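import Pool.Agent.Lib.MP_f47cd5_co.Defs

/-!
# From a discrete representation to a geometric one
-/

namespace Pool.Agent.Lib.MP_f47cd5_co

open Real

lemma norm_pt (s t : ℝ) : ‖pt s t‖ = |s| := by
  unfold pt
  rw [norm_mul, Complex.norm_exp_ofReal_mul_I, mul_one, Complex.norm_real, Real.norm_eq_abs]

lemma pt_neg (s t : ℝ) : pt (-s) t = pt s (t + π) := by
  unfold pt
  push_cast
  rw [add_mul, Complex.exp_add, Complex.exp_pi_mul_I]
  ring

lemma pt_eq_iff {s : ℝ} (hs : 0 < s) (t t' : ℝ) :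
    pt s t = pt s t' ↔ ∃ j : ℤ, t = t' + j * (2 * π) := by
  unfold pt
  have hs' : (s : ℂ) ≠ 0 := by exact_mod_cast hs.ne'
  rw [mul_right_inj' hs', Complex.exp_eq_exp_iff_exists_int]
  constructor
  · rintro ⟨j, hj⟩
    refine ⟨j, ?_⟩
    have hI : Complex.I ≠ 0 := Complex.I_ne_zero
    have h2 : ((t : ℂ)) = t' + j * (2 * π) := by
      apply mul_right_cancel₀ hI
      rw [hj]; ring
    exact_mod_cast h2
  · rintro ⟨j, hj⟩
    refine ⟨j, ?_⟩
    rw [hj]; push_cast; ring

variable {n M : ℕ}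

/-- The geometric arc attached to arc `u` of a discrete representation. -/
noncomputable def Disc.arc (D : Disc n M) (u : Fin n) : Arc where
  r := (n : ℝ) - (u : ℕ)
  a := π / M * ((D.s u : ℝ) + 1 / 4)
  b := π / M * ((D.s u : ℝ) + D.l u - 1 / 4)
  r_pos := by
    have := u.2
    have h : ((u : ℕ) : ℝ) < n := by exact_mod_cast this
    linarith
  a_nonneg := by positivity
  a_lt := by
    have hs := D.s_lt u
    have hM : 0 < M := by omega
    have hM' : (0 : ℝ) < M := by exact_mod_cast hM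
    have h1 : (D.s u : ℝ) + 1 ≤ 2 * M := by exact_mod_cast hs
    have h2 : π / M * ((D.s u : ℝ) + 1 / 4) < π / M * (2 * M) := by
      apply mul_lt_mul_of_pos_left _ (by positivity)
      linarith
    calc _ < π / M * (2 * M) := h2
      _ = 2 * π := by field_simp
  a_le_b := by
    have hs := D.s_lt u
    have hM : 0 < M := by omega
    have hM' : (0 : ℝ) < M := by exact_mod_cast hM
    have hl : (1 : ℝ) ≤ D.l u := by exact_mod_cast D.l_pos u
    apply mul_le_mul_of_nonneg_left _ (by positivity)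
    linarith
  b_lt := by
    have hs := D.s_lt u
    have hM : 0 < M := by omega
    have hM' : (0 : ℝ) < M := by exact_mod_cast hM
    have hl : (D.l u : ℝ) + 1 ≤ 2 * M := by exact_mod_cast D.l_lt u
    have h2 : π / M * ((D.s u : ℝ) + D.l u - 1 / 4) < π / M * ((D.s u : ℝ) + 1 / 4 + 2 * M) := by
      apply mul_lt_mul_of_pos_left _ (by positivity)
      linarith
    calc _ < π / M * ((D.s u : ℝ) + 1 / 4 + 2 * M) := h2
      _ = π / M * ((D.s u : ℝ) + 1 / 4) + 2 * π := by field_simp

lemma Disc.arc_r (D : Disc n M) (u : Fin n) : (D.arc u).r = (n : ℝ) - (u : ℕ) := rfl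

lemma Disc.mem_arc_of_al (D : Disc n M) (w : Fin n) (g : ℕ) (t : ℝ)
    (h1 : π / M * ((g : ℝ) + 1 / 3) ≤ t) (h2 : t ≤ π / M * ((g : ℝ) + 2 / 3))
    (hal : D.al w g) : pt (D.arc w).r t ∈ (D.arc w).pts := by
  have hs := D.s_lt w
  have hM : 0 < M := by omega
  have hM' : (0 : ℝ) < M := by exact_mod_cast hM
  unfold Disc.al at hal
  set d := (g + (2 * M - D.s w)) % (2 * M) with hd
  set q := (g + (2 * M - D.s w)) / (2 * M) with hq
  have hdiv : 2 * M * q + d = g + (2 * M - D.s w) := Nat.div_add_mod _ _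
  have hdiv' : 2 * M * q + d + D.s w = g + 2 * M := by omega
  have hR : 2 * (M : ℝ) * q + d + D.s w = g + 2 * M := by exact_mod_cast hdiv'
  have hdl : (d : ℝ) + 1 ≤ D.l w := by exact_mod_cast hal
  have hd0 : (0 : ℝ) ≤ d := by positivity
  have hpM : 0 < π / M := by positivity
  have hMM : π / M * (2 * M) = 2 * π := by field_simp
  refine ⟨t - ((q : ℝ) - 1) * (2 * π), ?_, ?_, ?_⟩
  · change π / M * ((D.s w : ℝ) + 1 / 4) ≤ _
    have : π / M * ((D.s w : ℝ) + 1 / 4) + ((q : ℝ) - 1) * (2 * π) ≤ π / M * ((g : ℝ) + 1 / 3) := by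
      rw [← hMM]
      have : π / M * ((D.s w : ℝ) + 1 / 4) + ((q : ℝ) - 1) * (π / M * (2 * M)) =
        π / M * ((D.s w : ℝ) + 1 / 4 + ((q : ℝ) - 1) * (2 * M)) := by ring
      rw [this]
      apply mul_le_mul_of_nonneg_left _ hpM.le
      nlinarith
    linarith
  · change _ ≤ π / M * ((D.s w : ℝ) + D.l w - 1 / 4)
    have : π / M * ((g : ℝ) + 2 / 3) ≤
        π / M * ((D.s w : ℝ) + D.l w - 1 / 4) + ((q : ℝ) - 1) * (2 * π) := by
      rw [← hMM]
      have : π / M * ((D.s w : ℝ) + D.l w - 1 / 4) + ((q : ℝ) - 1) * (π / M * (2 * M)) =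
        π / M * ((D.s w : ℝ) + D.l w - 1 / 4 + ((q : ℝ) - 1) * (2 * M)) := by ring
      rw [this]
      apply mul_le_mul_of_nonneg_left _ hpM.le
      nlinarith
    linarith
  · rw [pt_eq_iff (D.arc w).r_pos]
    exact ⟨(q : ℤ) - 1, by push_cast; ring⟩

lemma Disc.al_of_mem_arc (D : Disc n M) (w : Fin n) (g : ℕ) (t t' : ℝ)
    (h1 : π / M * ((g : ℝ) + 1 / 3) ≤ t) (h2 : t ≤ π / M * ((g : ℝ) + 2 / 3))
    (h3 : (D.arc w).a ≤ t') (h4 : t' ≤ (D.arc w).b) (j : ℤ) (hj : t = t' + j * (2 * π)) :
    D.al w g := by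
  have hs := D.s_lt w
  have hM : 0 < M := by omega
  have hM' : (0 : ℝ) < M := by exact_mod_cast hM
  change π / M * ((D.s w : ℝ) + 1 / 4) ≤ t' at h3
  change t' ≤ π / M * ((D.s w : ℝ) + D.l w - 1 / 4) at h4
  have hpM : 0 < π / M := by positivity
  have hMM : π / M * (2 * M) = 2 * π := by field_simp
  rw [← hMM] at hj
  -- the integer g - s - 2Mj lies strictly between -1 and l
  have e1 : (-1 : ℝ) < (g : ℝ) - D.s w - 2 * M * j := by
    by_contra hcon
    push Not at hcon
    have : π / M * ((g : ℝ) + 2 / 3) < π / M * ((D.s w : ℝ) + 1 / 4 + 2 * M * j) := by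
      apply mul_lt_mul_of_pos_left _ hpM
      linarith
    have e : π / M * ((D.s w : ℝ) + 1 / 4 + 2 * M * j) =
      π / M * ((D.s w : ℝ) + 1 / 4) + j * (π / M * (2 * M)) := by ring
    linarith
  have e2 : (g : ℝ) - D.s w - 2 * M * j < D.l w := by
    by_contra hcon
    push Not at hcon
    have : π / M * ((D.s w : ℝ) + D.l w - 1 / 4 + 2 * M * j) < π / M * ((g : ℝ) + 1 / 3) := by
      apply mul_lt_mul_of_pos_left _ hpM
      linarith
    have e : π / M * ((D.s w : ℝ) + D.l w - 1 / 4 + 2 * M * j) =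
      π / M * ((D.s w : ℝ) + D.l w - 1 / 4) + j * (π / M * (2 * M)) := by ring
    linarith
  have e1' : (-1 : ℤ) < (g : ℤ) - D.s w - 2 * M * j := by exact_mod_cast e1
  have e2' : (g : ℤ) - D.s w - 2 * M * j < D.l w := by exact_mod_cast e2
  have hl := D.l_lt w
  unfold Disc.al
  have key : (((g + (2 * M - D.s w)) % (2 * M) : ℕ) : ℤ) = (g : ℤ) - D.s w - 2 * M * j := by
    push_cast [Nat.cast_sub hs.le]
    have : ((g : ℤ) + (2 * M - D.s w)) = ((g : ℤ) - D.s w - 2 * M * j) + (2 * M) * (1 + j) := by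
      ring
    rw [this, Int.add_mul_emod_self_left]
    apply Int.emod_eq_of_lt
    · omega
    · have : (D.l w : ℤ) < 2 * M := by exact_mod_cast hl
      omega
  have : (((g + (2 * M - D.s w)) % (2 * M) : ℕ) : ℤ) < (D.l w : ℤ) := by rw [key]; exact e2'
  exact_mod_cast this

lemma Sees.symm {V : Type*} {k : ℕ} {A : V → Arc} {u v : V} (h : Sees k A u v) :
    Sees k A v u := by
  obtain ⟨p, q, α, β, hc, he, hk⟩ := h
  refine ⟨p, q, α, β, hc, he.symm, ?_⟩
  have : {w | w ≠ v ∧ w ≠ u ∧ (coneSet p q α β ∩ (A w).pts).Nonempty} =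
    {w | w ≠ u ∧ w ≠ v ∧ (coneSet p q α β ∩ (A w).pts).Nonempty} := by
    ext w; simp only [Set.mem_setOf_eq]; tauto
  rw [this]; exact hk

lemma Disc.sees_of_seesAt (D : Disc n M) (k : ℕ) {u v : Fin n} (huv : u < v) {h : ℕ}
    (hh : D.seesAt k u v h) : Sees k D.arc u v := by
  have hs := D.s_lt u
  have hM : 0 < M := by omega
  have hM' : (0 : ℝ) < M := by exact_mod_cast hM
  have hpM : 0 < π / M := by positivity
  have hMM : π / M * (2 * M) = 2 * π := by field_simp
  have hMM1 : π / M * M = π := by field_simp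
  have hM1 : (1 : ℝ) ≤ M := by exact_mod_cast hM
  obtain ⟨hu, hrest⟩ := hh
  set α := π / M * ((h : ℝ) + 1 / 3) with hα
  set β := π / M * ((h : ℝ) + 2 / 3) with hβ
  have hαβ : α < β := by
    apply mul_lt_mul_of_pos_left _ hpM; linarith
  have hβα : β < α + π := by
    have : β = α + π / M * (1 / 3) := by rw [hα, hβ]; ring
    rw [this]
    have : π / M * (1 / 3) < π / M * M := by
      apply mul_lt_mul_of_pos_left _ hpM; linarith
    linarith
  have hruv : (D.arc v).r < (D.arc u).r := by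
    rw [D.arc_r, D.arc_r]
    have : ((u : ℕ) : ℝ) < (v : ℕ) := by exact_mod_cast huv
    linarith
  have hrw : ∀ w w' : Fin n, (D.arc w).r ≤ (D.arc w').r → w' ≤ w := by
    intro w w' hw
    rw [D.arc_r, D.arc_r] at hw
    have : ((w' : ℕ) : ℝ) ≤ (w : ℕ) := by linarith
    exact_mod_cast this
  rcases hrest with ⟨hv, hcard⟩ | ⟨hv, hcard⟩
  · refine ⟨(D.arc v).r, (D.arc u).r, α, β, Or.inl ⟨(D.arc v).r_pos, hruv, hαβ, ?_⟩, ?_, ?_⟩
    · have := Real.pi_pos; linarith
    · right
      constructor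
      · rintro z ⟨t, h1, h2, rfl⟩
        exact D.mem_arc_of_al v h t h1 h2 hv
      · rintro z ⟨t, h1, h2, rfl⟩
        exact D.mem_arc_of_al u h t h1 h2 hu
    · have hsub : {w | w ≠ u ∧ w ≠ v ∧
          (coneSet (D.arc v).r (D.arc u).r α β ∩ (D.arc w).pts).Nonempty} ⊆
          ((Finset.univ.filter (fun w => u < w ∧ w < v ∧ D.al w h) : Finset (Fin n)) :
            Set (Fin n)) := by
        rintro w ⟨hwu, hwv, z, ⟨s, t, hs1, hs2, ht1, ht2, rfl⟩, ⟨t', h3, h4, hz⟩⟩
        have hspos : 0 < s := lt_of_lt_of_le (D.arc v).r_pos hs1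
        have hnorm : s = (D.arc w).r := by
          have := congrArg (fun z => ‖z‖) hz
          simp only [norm_pt] at this
          rwa [abs_of_pos hspos, abs_of_pos (D.arc w).r_pos] at this
        subst hnorm
        rw [pt_eq_iff (D.arc w).r_pos] at hz
        obtain ⟨j, hj⟩ := hz
        have hal := D.al_of_mem_arc w h t t' ht1 ht2 h3 h4 j hj
        simp only [Finset.coe_filter, Finset.mem_univ, true_and, Set.mem_setOf_eq]
        exact ⟨lt_of_le_of_ne (hrw w u hs2) (Ne.symm hwu), lt_of_le_of_ne (hrw v w hs1) hwv, hal⟩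
      calc _ ≤ ((Finset.univ.filter (fun w => u < w ∧ w < v ∧ D.al w h) : Finset (Fin n)) :
            Set (Fin n)).encard := Set.encard_le_encard hsub
        _ = ((Finset.univ.filter (fun w => u < w ∧ w < v ∧ D.al w h)).card : ℕ∞) :=
            Set.encard_coe_eq_coe_finsetCard _
        _ ≤ k := by exact_mod_cast hcard
  · refine ⟨-(D.arc v).r, (D.arc u).r, α, β,
      Or.inr ⟨by linarith [(D.arc v).r_pos], (D.arc u).r_pos, hαβ, hβα⟩, ?_, ?_⟩
    · right
      constructor
      · rintro z ⟨t, h1, h2, rfl⟩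
        rw [pt_neg]
        refine D.mem_arc_of_al v (h + M) (t + π) ?_ ?_ hv
        · have : π / M * (((h + M : ℕ) : ℝ) + 1 / 3) = α + π := by
            rw [hα]; push_cast; linear_combination hMM1
          rw [this]; linarith
        · have : π / M * (((h + M : ℕ) : ℝ) + 2 / 3) = β + π := by
            rw [hβ]; push_cast; linear_combination hMM1
          rw [this]; linarith
      · rintro z ⟨t, h1, h2, rfl⟩
        exact D.mem_arc_of_al u h t h1 h2 hu
    · have hsub : {w | w ≠ u ∧ w ≠ v ∧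
          (coneSet (-(D.arc v).r) (D.arc u).r α β ∩ (D.arc w).pts).Nonempty} ⊆
          ((Finset.univ.filter (fun w => w ≠ u ∧ w ≠ v ∧
            ((u < w ∧ D.al w h) ∨ (v < w ∧ D.al w (h + M)))) : Finset (Fin n)) :
            Set (Fin n)) := by
        rintro w ⟨hwu, hwv, z, ⟨s, t, hs1, hs2, ht1, ht2, rfl⟩, ⟨t', h3, h4, hz⟩⟩
        simp only [Finset.coe_filter, Finset.mem_univ, true_and, Set.mem_setOf_eq]
        refine ⟨hwu, hwv, ?_⟩
        rcases lt_trichotomy s 0 with hs | hs | hs
        · right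
          have hspos : 0 < -s := by linarith
          have hz' : pt (-s) (t + π) = pt (D.arc w).r t' := by
            rw [← hz, ← pt_neg, neg_neg]
          have hnorm : -s = (D.arc w).r := by
            have := congrArg (fun z => ‖z‖) hz'
            simp only [norm_pt] at this
            rwa [abs_of_pos hspos, abs_of_pos (D.arc w).r_pos] at this
          rw [hnorm, pt_eq_iff (D.arc w).r_pos] at hz'
          obtain ⟨j, hj⟩ := hz'
          have hal := D.al_of_mem_arc w (h + M) (t + π) t' (by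
            have : π / M * (((h + M : ℕ) : ℝ) + 1 / 3) = α + π := by
              rw [hα]; push_cast; linear_combination hMM1
            rw [this]; linarith) (by
            have : π / M * (((h + M : ℕ) : ℝ) + 2 / 3) = β + π := by
              rw [hβ]; push_cast; linear_combination hMM1
            rw [this]; linarith) h3 h4 j hj
          refine ⟨lt_of_le_of_ne (hrw w v (by linarith)) (Ne.symm hwv), hal⟩
        · exfalso
          have := congrArg (fun z => ‖z‖) hz
          simp only [norm_pt] at this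
          rw [hs, abs_zero, abs_of_pos (D.arc w).r_pos] at this
          linarith [(D.arc w).r_pos]
        · left
          have hnorm : s = (D.arc w).r := by
            have := congrArg (fun z => ‖z‖) hz
            simp only [norm_pt] at this
            rwa [abs_of_pos hs, abs_of_pos (D.arc w).r_pos] at this
          subst hnorm
          rw [pt_eq_iff (D.arc w).r_pos] at hz
          obtain ⟨j, hj⟩ := hz
          have hal := D.al_of_mem_arc w h t t' ht1 ht2 h3 h4 j hj
          exact ⟨lt_of_le_of_ne (hrw w u hs2) (Ne.symm hwu), hal⟩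
      calc _ ≤ ((Finset.univ.filter (fun w => w ≠ u ∧ w ≠ v ∧
            ((u < w ∧ D.al w h) ∨ (v < w ∧ D.al w (h + M)))) : Finset (Fin n)) :
            Set (Fin n)).encard := Set.encard_le_encard hsub
        _ = ((Finset.univ.filter (fun w => w ≠ u ∧ w ≠ v ∧
            ((u < w ∧ D.al w h) ∨ (v < w ∧ D.al w (h + M))))).card : ℕ∞) :=
            Set.encard_coe_eq_coe_finsetCard _
        _ ≤ k := by exact_mod_cast hcard

/-- A complete discrete representation yields a geometric representation of `K_n`. -/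
theorem isArcVis_of_disc {k n M : ℕ} (D : Disc n M) (hD : D.Complete k) :
    IsArcVis k (⊤ : SimpleGraph (Fin n)) := by
  refine ⟨inferInstance, D.arc, ?_, ?_⟩
  · intro u v huv
    rw [Set.disjoint_left]
    rintro z ⟨t, _, _, rfl⟩ ⟨t', _, _, hz⟩
    have := congrArg (fun z => ‖z‖) hz
    simp only [norm_pt] at this
    rw [abs_of_pos (D.arc u).r_pos, abs_of_pos (D.arc v).r_pos, D.arc_r, D.arc_r] at this
    have h2 : ((u : ℕ) : ℝ) = (v : ℕ) := by linarith
    exact huv (Fin.ext (by exact_mod_cast h2))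
  · intro u v huv
    simp only [SimpleGraph.top_adj, ne_eq, huv, not_false_eq_true, true_iff]
    rcases lt_or_gt_of_ne huv with h | h
    · obtain ⟨g, hg⟩ := hD u v h
      exact D.sees_of_seesAt k h hg
    · obtain ⟨g, hg⟩ := hD v u h
      exact (D.sees_of_seesAt k h hg).symm

end Pool.Agent.Lib.MP_f47cd5_co
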