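import Pool.Agent.Lib.MP_f47cd5_co.Zone

/-!
# Cyclic configurations and the number of tokens
-/

namespace Pool.Agent.Lib.MP_f47cd5_co

open Finset Classical

/-- A cyclic configuration of `n` arcs (index `0` is outermost) on `2 M` rays. -/
structure Cfg (n M : ℕ) where
  al : Fin n → ZMod (2 * M) → Prop
  s : Fin n → ZMod (2 * M)
  e : Fin n → ZMod (2 * M)
  start_iff : ∀ u h, (al u h ∧ ¬ al u (h - 1)) ↔ h = s u
  end_iff : ∀ u h, (¬ al u h ∧ al u (h - 1)) ↔ h = e u
  ss : ∀ u v, u ≠ v → s u ≠ s v ∧ s u ≠ s v + (M : ZMod (2 * M))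
  ee : ∀ u v, u ≠ v → e u ≠ e v ∧ e u ≠ e v + (M : ZMod (2 * M))
  se : ∀ u v, s u ≠ e v ∧ s u ≠ e v + (M : ZMod (2 * M))

section basic

variable {n M : ℕ}

instance [NeZero M] : NeZero (2 * M) := ⟨by have := NeZero.ne M; omega⟩

lemma half_add_half (M : ℕ) : (M : ZMod (2 * M)) + (M : ZMod (2 * M)) = 0 := by
  have : ((2 * M : ℕ) : ZMod (2 * M)) = 0 := ZMod.natCast_self _
  rw [← this]; push_cast; ring

lemma half_ne_zero (M : ℕ) [NeZero M] : (M : ZMod (2 * M)) ≠ 0 := by
  intro h
  rw [ZMod.natCast_eq_zero_iff] at h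
  have h1 := Nat.le_of_dvd (Nat.pos_of_ne_zero (NeZero.ne M)) h
  have := Nat.pos_of_ne_zero (NeZero.ne M)
  omega

namespace Cfg

variable (C : Cfg n M)

/-- the arcs on the ray `h` -/
def P (h : ZMod (2 * M)) : Fin n → Prop := fun w => C.al w h

lemma P_half (h : ZMod (2 * M)) : C.P (h + M + M) = C.P h := by
  rw [add_assoc, half_add_half, add_zero]

lemma al_pred {w : Fin n} {h : ZMod (2 * M)} (h1 : h ≠ C.s w) (h2 : h ≠ C.e w) :
    C.al w h ↔ C.al w (h - 1) := by
  constructor
  · intro h3
    by_contra h4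
    exact h1 ((C.start_iff w h).1 ⟨h3, h4⟩)
  · intro h3
    by_contra h4
    exact h2 ((C.end_iff w h).1 ⟨h4, h3⟩)

lemma start_al (x : Fin n) : C.al x (C.s x) := ((C.start_iff x _).2 rfl).1
lemma start_not_al (x : Fin n) : ¬ C.al x (C.s x - 1) := ((C.start_iff x _).2 rfl).2
lemma end_not_al (x : Fin n) : ¬ C.al x (C.e x) := ((C.end_iff x _).2 rfl).1
lemma end_al (x : Fin n) : C.al x (C.e x - 1) := ((C.end_iff x _).2 rfl).2

lemma ne_of_add_half {a b : ZMod (2 * M)} (h : a ≠ b + M) : a + M ≠ b := by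
  intro h'
  apply h
  rw [← h', add_assoc, half_add_half, add_zero]

lemma off_start (x : Fin n) : AgreeOff x (C.P (C.s x)) (C.P (C.s x - 1)) := by
  intro w hw
  exact C.al_pred (C.ss x w (Ne.symm hw)).1 (C.se x w).1

lemma off_end (x : Fin n) : AgreeOff x (C.P (C.e x)) (C.P (C.e x - 1)) := by
  intro w hw
  exact C.al_pred (Ne.symm (C.se w x).1) (C.ee x w (Ne.symm hw)).1

lemma far_start [NeZero M] (x : Fin n) : C.P (C.s x + M) = C.P (C.s x + M - 1) := by
  funext w
  apply propext
  apply C.al_pred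
  · by_cases hw : x = w
    · subst hw
      intro h
      exact half_ne_zero M (by simpa using h)
    · exact ne_of_add_half (C.ss x w hw).2
  · exact ne_of_add_half (C.se x w).2

lemma far_end [NeZero M] (x : Fin n) : C.P (C.e x + M) = C.P (C.e x + M - 1) := by
  funext w
  apply propext
  apply C.al_pred
  · intro h
    exact (C.se w x).2 h.symm
  · by_cases hw : x = w
    · subst hw
      intro h
      exact half_ne_zero M (by simpa using h)
    · exact ne_of_add_half (C.ee x w hw).2

/-- instance on the ray `h` -/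
def inst (K : ℕ) (u v : Fin n) (h : ZMod (2 * M)) : Prop := Inst K (C.P h) (C.P (h + M)) u v

/-- tokens -/
noncomputable def T (K : ℕ) [NeZero M] : Finset (ZMod (2 * M) × Fin n × Fin n) :=
  univ.filter (fun p => p.2.1 < p.2.2 ∧ C.inst K p.2.1 p.2.2 p.1 ∧
    (¬ C.inst K p.2.1 p.2.2 (p.1 - 1) ∨ p.1 = C.s p.2.2))

lemma mem_T (K : ℕ) [NeZero M] {h : ZMod (2 * M)} {u v : Fin n} :
    (h, u, v) ∈ C.T K ↔ u < v ∧ C.inst K u v h ∧ (¬ C.inst K u v (h - 1) ∨ h = C.s v) := by
  unfold T; simp

variable [NeZero M]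

lemma sub_one_add_half (h : ZMod (2 * M)) : h - 1 + M = h + M - 1 := by ring

/-- tokens of a start event -/
lemma card_TS (K : ℕ) (x : Fin n) :
    ((C.T K).filter (fun p => p.1 = C.s x ∨ p.1 = C.s x + M)).card ≤
      min K (B1 (C.P (C.s x)) x).card + min K (B2 (C.P (C.s x)) (C.P (C.s x + M)) x).card := by
  set θ := C.s x with hθ
  set out := (univ.filter (fun u => u < x ∧ C.P θ u ∧ dep (C.P θ) (C.P (θ + M)) u x < K))
    with hout
  set in1 := (univ.filter (fun v => x < v ∧ (C.P θ v ∨ C.P (θ + M) v) ∧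
    dep (C.P θ) (C.P (θ + M)) x v < K)) with hin1
  set in2 := (univ.filter (fun u => u < x ∧ C.P (θ + M) u ∧ ¬ C.P (θ + M) x ∧
    dep (C.P (θ + M)) (C.P θ) u x < K)) with hin2
  have h1 : out.card ≤ min K (B1 (C.P θ) x).card :=
    start_out_card K (C.P θ) (C.P (θ + M)) x (C.start_al x)
  have h2 : in1.card + in2.card ≤ min K (B2 (C.P θ) (C.P (θ + M)) x).card :=
    start_in_card K (C.P θ) (C.P (θ + M)) x
  have hsub : (C.T K).filter (fun p => p.1 = θ ∨ p.1 = θ + M) ⊆
      (out.image (fun u => ((θ, u, x) : ZMod (2 * M) × Fin n × Fin n)) ∪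
      in1.image (fun v => ((θ, x, v) : ZMod (2 * M) × Fin n × Fin n))) ∪
      in2.image (fun u => ((θ + M, u, x) : ZMod (2 * M) × Fin n × Fin n)) := by
    rintro ⟨h, u, v⟩ hp
    rw [Finset.mem_filter, mem_T] at hp
    obtain ⟨⟨huv, hI, hn⟩, hh⟩ := hp
    simp only at hh
    rw [Finset.mem_union, Finset.mem_union, Finset.mem_image, Finset.mem_image, Finset.mem_image]
    rcases hh with hh | hh
    · subst hh
      left
      have hvu : v = x ∨ u = x := by
        rcases hn with hn | hn
        · have hI' : Inst K (C.P θ) (C.P (θ + M)) u v := hI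
          have hn' : ¬ Inst K (C.P (θ - 1)) (C.P (θ + M)) u v := by
            have : C.P (θ + M) = C.P (θ - 1 + M) := by
              rw [sub_one_add_half]; exact C.far_start x
            rw [this]; exact hn
          exact start_near_token (C.start_not_al x) (C.off_start x) hI' hn'
        · left
          by_contra hvx
          exact (C.ss x v (Ne.symm hvx)).1 hn
      rcases hvu with h3 | h3
      · subst h3
        left
        refine ⟨u, ?_, rfl⟩
        rw [hout, Finset.mem_filter]
        exact ⟨Finset.mem_univ _, huv, hI.1, hI.2.2⟩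
      · subst h3
        right
        refine ⟨v, ?_, rfl⟩
        rw [hin1, Finset.mem_filter]
        exact ⟨Finset.mem_univ _, huv, hI.2.1, hI.2.2⟩
    · subst hh
      right
      have hne : ¬ (θ + (M : ZMod (2 * M)) = C.s v) := by
        by_cases hvx : x = v
        · subst hvx
          intro h
          exact half_ne_zero M (by simpa [hθ] using h)
        · exact ne_of_add_half (C.ss x v hvx).2
      have hn1 := hn.resolve_right hne
      have hI' : Inst K (C.P (θ + M)) (C.P θ) u v := by
        have := hI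
        unfold inst at this
        rwa [P_half] at this
      have hn' : ¬ Inst K (C.P (θ + M)) (C.P (θ - 1)) u v := by
        have e1 : C.P (θ + M - 1) = C.P (θ + M) := (C.far_start x).symm
        have e2 : C.P (θ + M - 1 + M) = C.P (θ - 1) := by
          have : θ + (M : ZMod (2 * M)) - 1 + M = (θ - 1) + (M + M) := by ring
          rw [this, half_add_half, add_zero]
        have := hn1
        unfold inst at this
        rwa [e1, e2] at this
      obtain ⟨h3, h4⟩ := start_far_token (C.start_not_al x) (C.off_start x) hI' hn'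
      subst h3
      refine ⟨u, ?_, rfl⟩
      rw [hin2, Finset.mem_filter]
      exact ⟨Finset.mem_univ _, huv, hI'.1, h4, hI'.2.2⟩
  have hc := Finset.card_le_card hsub
  have hu1 := Finset.card_union_le
    (out.image (fun u => ((θ, u, x) : ZMod (2 * M) × Fin n × Fin n)) ∪
      in1.image (fun v => ((θ, x, v) : ZMod (2 * M) × Fin n × Fin n)))
    (in2.image (fun u => ((θ + M, u, x) : ZMod (2 * M) × Fin n × Fin n)))
  have hu2 := Finset.card_union_le
    (out.image (fun u => ((θ, u, x) : ZMod (2 * M) × Fin n × Fin n)))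
    (in1.image (fun v => ((θ, x, v) : ZMod (2 * M) × Fin n × Fin n)))
  have i1 : (out.image (fun u => ((θ, u, x) : ZMod (2 * M) × Fin n × Fin n))).card ≤ out.card :=
    Finset.card_image_le
  have i2 : (in1.image (fun v => ((θ, x, v) : ZMod (2 * M) × Fin n × Fin n))).card ≤ in1.card :=
    Finset.card_image_le
  have i3 : (in2.image (fun u => ((θ + M, u, x) : ZMod (2 * M) × Fin n × Fin n))).card ≤
      in2.card := Finset.card_image_le
  omega

/-- tokens of an end event -/
lemma card_TE (K : ℕ) (x : Fin n) :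
    ((C.T K).filter (fun p => p.1 = C.e x ∨ p.1 = C.e x + M)).card ≤
      endBudget K (B1 (C.P (C.e x)) x).card (B2 (C.P (C.e x)) (C.P (C.e x + M)) x).card := by
  set θ := C.e x with hθ
  refine le_trans ?_ (end_card K (C.P θ) (C.P (θ - 1)) (C.P (θ + M)) x (C.end_al x)
    (C.end_not_al x) (C.off_end x))
  set E1 := (univ.filter (fun p : Fin n × Fin n => p.1 < p.2 ∧
    Inst K (C.P θ) (C.P (θ + M)) p.1 p.2 ∧
        ¬ Inst K (C.P (θ - 1)) (C.P (θ + M)) p.1 p.2)) with hE1
  set E2 := (univ.filter (fun p : Fin n × Fin n => p.1 < p.2 ∧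
    Inst K (C.P (θ + M)) (C.P θ) p.1 p.2 ∧
        ¬ Inst K (C.P (θ + M)) (C.P (θ - 1)) p.1 p.2)) with hE2
  have hsub : (C.T K).filter (fun p => p.1 = θ ∨ p.1 = θ + M) ⊆
      E1.image (fun p => ((θ, p) : ZMod (2 * M) × Fin n × Fin n)) ∪
      E2.image (fun p => ((θ + M, p) : ZMod (2 * M) × Fin n × Fin n)) := by
    rintro ⟨h, u, v⟩ hp
    rw [Finset.mem_filter, mem_T] at hp
    obtain ⟨⟨huv, hI, hn⟩, hh⟩ := hp
    simp only at hh
    rw [Finset.mem_union, Finset.mem_image, Finset.mem_image]
    rcases hh with hh | hh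
    · subst hh
      left
      refine ⟨(u, v), ?_, rfl⟩
      rw [hE1, Finset.mem_filter]
      refine ⟨Finset.mem_univ _, huv, hI, ?_⟩
      have hn1 := hn.resolve_right (fun h => (C.se v x).1 h.symm)
      have : C.P (θ + M) = C.P (θ - 1 + M) := by
        rw [sub_one_add_half]; exact C.far_end x
      rw [this]; exact hn1
    · subst hh
      right
      refine ⟨(u, v), ?_, rfl⟩
      rw [hE2, Finset.mem_filter]
      have hn1 := hn.resolve_right (fun h => (C.se v x).2 h.symm)
      refine ⟨Finset.mem_univ _, huv, ?_, ?_⟩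
      · have := hI
        unfold inst at this
        rwa [P_half] at this
      · have e1 : C.P (θ + M - 1) = C.P (θ + M) := (C.far_end x).symm
        have e2 : C.P (θ + M - 1 + M) = C.P (θ - 1) := by
          have : θ + (M : ZMod (2 * M)) - 1 + M = (θ - 1) + (M + M) := by ring
          rw [this, half_add_half, add_zero]
        have := hn1
        unfold inst at this
        rwa [e1, e2] at this
  have hc := Finset.card_le_card hsub
  have hu := Finset.card_union_le
    (E1.image (fun p => ((θ, p) : ZMod (2 * M) × Fin n × Fin n)))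
    (E2.image (fun p => ((θ + M, p) : ZMod (2 * M) × Fin n × Fin n)))
  have i1 : (E1.image (fun p => ((θ, p) : ZMod (2 * M) × Fin n × Fin n))).card ≤ E1.card :=
    Finset.card_image_le
  have i2 : (E2.image (fun p => ((θ + M, p) : ZMod (2 * M) × Fin n × Fin n))).card ≤ E2.card :=
    Finset.card_image_le
  omega

/-- the state does not change where there is no event -/
lemma P_pred {h : ZMod (2 * M)} (h1 : ∀ w, h ≠ C.s w) (h2 : ∀ w, h ≠ C.e w) :
    C.P h = C.P (h - 1) := by
  funext w
  exact propext (C.al_pred (h1 w) (h2 w))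

/-- total number of tokens -/
theorem card_T_le (K : ℕ) :
    (C.T K).card ≤ ∑ x : Fin n,
      ((min K (B1 (C.P (C.s x)) x).card + min K (B2 (C.P (C.s x)) (C.P (C.s x + M)) x).card) +
      endBudget K (B1 (C.P (C.e x)) x).card (B2 (C.P (C.e x)) (C.P (C.e x + M)) x).card) := by
  have hsub : C.T K ⊆ univ.biUnion (fun x =>
      (C.T K).filter (fun p => p.1 = C.s x ∨ p.1 = C.s x + M) ∪
      (C.T K).filter (fun p => p.1 = C.e x ∨ p.1 = C.e x + M)) := by
    rintro ⟨h, u, v⟩ hp
    have hp0 := hp
    rw [mem_T] at hp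
    obtain ⟨huv, hI, hn⟩ := hp
    rw [Finset.mem_biUnion]
    by_contra hcon
    push Not at hcon
    have hs1 : ∀ w, h ≠ C.s w := by
      intro w hw
      apply hcon w (Finset.mem_univ _)
      rw [Finset.mem_union, Finset.mem_filter]
      exact Or.inl ⟨hp0, Or.inl hw⟩
    have hs2 : ∀ w, h ≠ C.s w + M := by
      intro w hw
      apply hcon w (Finset.mem_univ _)
      rw [Finset.mem_union, Finset.mem_filter]
      exact Or.inl ⟨hp0, Or.inr hw⟩
    have he1 : ∀ w, h ≠ C.e w := by
      intro w hw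
      apply hcon w (Finset.mem_univ _)
      rw [Finset.mem_union, Finset.mem_filter, Finset.mem_filter]
      exact Or.inr ⟨hp0, Or.inl hw⟩
    have he2 : ∀ w, h ≠ C.e w + M := by
      intro w hw
      apply hcon w (Finset.mem_univ _)
      rw [Finset.mem_union, Finset.mem_filter, Finset.mem_filter]
      exact Or.inr ⟨hp0, Or.inr hw⟩
    have hn1 := hn.resolve_right (hs1 v)
    apply hn1
    have e1 : C.P h = C.P (h - 1) := C.P_pred hs1 he1
    have e2 : C.P (h + M) = C.P (h + M - 1) :=
      C.P_pred (fun w => ne_of_add_half (hs2 w)) (fun w => ne_of_add_half (he2 w))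
    unfold inst at hI ⊢
    rw [← e1, sub_one_add_half, ← e2]
    exact hI
  refine (Finset.card_le_card hsub).trans (Finset.card_biUnion_le.trans ?_)
  apply Finset.sum_le_sum
  intro x _
  refine (Finset.card_union_le _ _).trans ?_
  exact Nat.add_le_add (C.card_TS K x) (C.card_TE K x)

end Cfg

end basic

end Pool.Agent.Lib.MP_f47cd5_co
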