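import Pool.Agent.Lib.MP_f47cd5_co.Persist

/-!
# The edge bound when every line meets at least `K + 1` arcs
-/

namespace Pool.Agent.Lib.MP_f47cd5_co

open Finset Classical

lemma two_mul_sum_sub (K n : ℕ) (h : K ≤ n) : 2 * ∑ i ∈ range n, (K - i) = K * (K + 1) := by
  have base : ∀ K : ℕ, 2 * ∑ i ∈ range K, (K - i) = K * (K + 1) := by
    intro K
    induction K with
    | zero => simp
    | succ K ih =>
      rw [Finset.sum_range_succ']
      have : ∑ k ∈ range K, (K + 1 - (k + 1)) = ∑ k ∈ range K, (K - k) := by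
        apply Finset.sum_congr rfl
        intro k _
        omega
      rw [this, mul_add, ih]
      simp only [Nat.sub_zero]
      ring
  induction n, h using Nat.le_induction with
  | base => exact base K
  | succ n hn ih =>
    rw [Finset.sum_range_succ]
    have : K - n = 0 := by omega
    rw [this, add_zero]; exact ih

lemma two_mul_card_pairs (n : ℕ) :
    2 * (univ.filter (fun p : Fin n × Fin n => p.1 < p.2)).card = n * (n - 1) := by
  have h1 : (univ.filter (fun p : Fin n × Fin n => p.1 < p.2)).card = ∑ v : Fin n, (v : ℕ) := by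
    rw [Finset.card_filter, Fintype.sum_prod_type_right]
    apply Finset.sum_congr rfl
    intro v _
    rw [← Finset.card_filter]
    have : (univ.filter (fun u : Fin n => u < v)) = Finset.Iio v := by
      ext u; simp
    simp only [this, Fin.card_Iio]
  rw [h1, Fin.sum_univ_eq_sum_range (fun i => i) n, mul_comm, Finset.sum_range_id_mul_two]

lemma card_B_cover {n : ℕ} (P Q : Fin n → Prop) (x : Fin n) (K : ℕ)
    (h : K + 1 ≤ (univ.filter (fun w => P w ∨ Q w)).card) :
    K ≤ (B1 P x).card + (B2 P Q x).card := by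
  have hsub : (univ.filter (fun w => P w ∨ Q w)) ⊆ insert x (B1 P x ∪ B2 P Q x) := by
    intro w hw
    rw [Finset.mem_filter] at hw
    rw [Finset.mem_insert, Finset.mem_union, mem_B1, mem_B2]
    by_cases hwx : w = x
    · exact Or.inl hwx
    · right
      rcases hw.2 with h1 | h1
      · rcases lt_or_gt_of_ne hwx with h2 | h2
        · exact Or.inl ⟨h2, h1⟩
        · exact Or.inr ⟨hwx, Or.inl ⟨h2, h1⟩⟩
      · exact Or.inr ⟨hwx, Or.inr h1⟩
  have h1 := (Finset.card_le_card hsub).trans (Finset.card_insert_le _ _)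
  have h2 := Finset.card_union_le (B1 P x) (B2 P Q x)
  omega

lemma card_lnAbove_ge {n : ℕ} (P Q : Fin n → Prop) (j : Fin n) (K : ℕ)
    (h : K + 1 ≤ (univ.filter (fun w => P w ∨ Q w)).card) :
    K - j ≤ (lnAbove P Q j).card := by
  have hsub : (univ.filter (fun w => P w ∨ Q w)) ⊆ Finset.Iic j ∪ lnAbove P Q j := by
    intro w hw
    rw [Finset.mem_filter] at hw
    rw [Finset.mem_union, Finset.mem_Iic]
    unfold lnAbove
    rw [Finset.mem_filter]
    rcases le_or_gt w j with h1 | h1
    · exact Or.inl h1
    · exact Or.inr ⟨Finset.mem_univ _, h1, hw.2⟩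
  have h1 := (Finset.card_le_card hsub).trans (Finset.card_union_le _ _)
  rw [Fin.card_Iic] at h1
  omega

namespace Cfg

variable {n M : ℕ} (C : Cfg n M) [NeZero M]

lemma peel_near (K : ℕ) (P : Fin n → Prop) (x : Fin n) :
    (univ.filter (fun j : Fin n => j < x ∧ ¬ P j ∧
      ((B1 P x).filter (fun w => j < w)).card < K - j)).card + (K - x) ≤
      K - (B1 P x).card := by
  have hp := peel (B1 P x) K (min K x) (min_le_left _ _) ((min_le_right _ _).trans x.2.le)
  have h0 : K - min K (x : ℕ) -
      ((B1 P x).filter (fun w : Fin n => min K (x : ℕ) ≤ (w : ℕ))).card = K - x := by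
    rcases Nat.lt_or_ge (x : ℕ) K with h | h
    · rw [min_eq_right h.le]
      have : (B1 P x).filter (fun w : Fin n => (x : ℕ) ≤ (w : ℕ)) = ∅ := by
        ext w
        rw [Finset.mem_filter, mem_B1]
        simp only [Finset.notMem_empty, iff_false]
        rintro ⟨⟨h1, -⟩, h2⟩
        have h3 : (w : ℕ) < x := h1
        omega
      rw [this]; simp
    · rw [min_eq_left h]; omega
  rw [h0] at hp
  refine le_trans (Nat.add_le_add_right (Finset.card_le_card ?_) _) hp
  intro j hj
  rw [Finset.mem_filter] at hj ⊢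
  obtain ⟨-, h1, h2, h3⟩ := hj
  refine ⟨Finset.mem_univ _, ?_, ?_, h3⟩
  · have : (j : ℕ) < x := h1
    rw [lt_min_iff]; omega
  · rw [mem_B1]; intro h; exact h2 h.2

lemma peel_far (K : ℕ) (P Q : Fin n → Prop) (x : Fin n) :
    (univ.filter (fun j : Fin n => j < x ∧ ¬ Q j ∧
      ((B2 P Q x).filter (fun w => j < w)).card < K - j)).card ≤
      K - (B2 P Q x).card := by
  have hp := peel (B2 P Q x) K (min K x) (min_le_left _ _) ((min_le_right _ _).trans x.2.le)
  refine le_trans ?_ ((Nat.le_add_right _ _).trans hp)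
  apply Finset.card_le_card
  intro j hj
  rw [Finset.mem_filter] at hj ⊢
  obtain ⟨-, h1, h2, h3⟩ := hj
  refine ⟨Finset.mem_univ _, ?_, ?_, h3⟩
  · have : (j : ℕ) < x := h1
    rw [lt_min_iff]; omega
  · rw [mem_B2]
    rintro ⟨-, h | h⟩
    · exact lt_asymm h1 h.1
    · exact h2 h

lemma sum_swap (p : Fin n → Fin n → Prop) :
    ∑ x : Fin n, (univ.filter (fun j => p j x)).card =
      ∑ j : Fin n, (univ.filter (fun x => p j x)).card := by
  simp only [Finset.card_filter]
  rw [Finset.sum_comm]

/-- The main inequality when all lines are rich. -/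
theorem main_rich (K : ℕ)
    (hline : ∀ h, K + 1 ≤ (univ.filter (fun w => C.P h w ∨ C.P (h + M) w)).card)
    (hvis : ∀ u v, u < v → ∃ h, C.inst K u v h) :
    n * (n - 1) + 3 * (K * (K + 1)) ≤ 6 * K * n := by
  have hKn : K ≤ n := by
    have h1 := hline 0
    have h2 : (univ.filter (fun w : Fin n => C.P 0 w ∨ C.P (0 + M) w)).card ≤ n := by
      calc _ ≤ (univ : Finset (Fin n)).card := Finset.card_filter_le _ _
        _ = n := by simp
    omega
  -- budgets plus losses
  have hbud : ∀ x : Fin n,
      ((min K (B1 (C.P (C.s x)) x).card + min K (B2 (C.P (C.s x)) (C.P (C.s x + M)) x).card) +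
      endBudget K (B1 (C.P (C.e x)) x).card (B2 (C.P (C.e x)) (C.P (C.e x + M)) x).card) +
      ((((univ.filter (fun j => C.zs1 K j x)).card + (K - x)) +
        (univ.filter (fun j => C.zs2 K j x)).card) +
      (((univ.filter (fun j => C.ze1 K j x)).card + (K - x)) +
        (univ.filter (fun j => C.ze2 K j x)).card)) ≤ 3 * K := by
    intro x
    have a1 := peel_near K (C.P (C.s x)) x
    have a2 := peel_far K (C.P (C.s x)) (C.P (C.s x + M)) x
    have a3 := peel_near K (C.P (C.e x)) x
    have a4 := peel_far K (C.P (C.e x)) (C.P (C.e x + M)) x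
    have b := endBudget_eq K (B1 (C.P (C.e x)) x).card
      (B2 (C.P (C.e x)) (C.P (C.e x + M)) x).card
      (card_B_cover _ _ x K (hline (C.e x)))
    have c1 : (univ.filter (fun j => C.zs1 K j x)).card + (K - x) ≤
      K - (B1 (C.P (C.s x)) x).card := by
      refine le_trans (Nat.add_le_add_right (Finset.card_le_card ?_) _) a1
      intro j hj
      rw [Finset.mem_filter] at hj ⊢
      exact hj
    have c2 : (univ.filter (fun j => C.zs2 K j x)).card ≤
      K - (B2 (C.P (C.s x)) (C.P (C.s x + M)) x).card := by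
      refine le_trans (Finset.card_le_card ?_) a2
      intro j hj
      rw [Finset.mem_filter] at hj ⊢
      exact hj
    have c3 : (univ.filter (fun j => C.ze1 K j x)).card + (K - x) ≤
      K - (B1 (C.P (C.e x)) x).card := by
      refine le_trans (Nat.add_le_add_right (Finset.card_le_card ?_) _) a3
      intro j hj
      rw [Finset.mem_filter] at hj ⊢
      exact hj
    have c4 : (univ.filter (fun j => C.ze2 K j x)).card ≤
      K - (B2 (C.P (C.e x)) (C.P (C.e x + M)) x).card := by
      refine le_trans (Finset.card_le_card ?_) a4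
      intro j hj
      rw [Finset.mem_filter] at hj ⊢
      exact hj
    have d1 : min K (B1 (C.P (C.s x)) x).card + (K - (B1 (C.P (C.s x)) x).card) = K := by omega
    have d2 : min K (B2 (C.P (C.s x)) (C.P (C.s x + M)) x).card +
      (K - (B2 (C.P (C.s x)) (C.P (C.s x + M)) x).card) = K := by omega
    omega
  have hsum := Finset.sum_le_sum (fun x (_ : x ∈ (univ : Finset (Fin n))) => hbud x)
  rw [Finset.sum_add_distrib] at hsum
  simp only [Finset.sum_add_distrib] at hsum
  rw [sum_swap (fun j x => C.zs1 K j x), sum_swap (fun j x => C.zs2 K j x),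
    sum_swap (fun j x => C.ze1 K j x), sum_swap (fun j x => C.ze2 K j x)] at hsum
  have hT := C.card_T_le K
  rw [Finset.sum_add_distrib, Finset.sum_add_distrib] at hT
  have hKsum : 2 * ∑ x : Fin n, (K - (x : ℕ)) = K * (K + 1) := by
    rw [Fin.sum_univ_eq_sum_range (fun i => K - i) n]
    exact two_mul_sum_sub K n hKn
  have hec : ∑ j : Fin n, C.ecount K j =
      (∑ j : Fin n, (univ.filter (fun x => C.zs1 K j x)).card +
        ∑ j : Fin n, (univ.filter (fun x => C.zs2 K j x)).card) +
      (∑ j : Fin n, (univ.filter (fun x => C.ze1 K j x)).card +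
        ∑ j : Fin n, (univ.filter (fun x => C.ze2 K j x)).card) := by
    unfold ecount
    simp only [Finset.sum_add_distrib]
  -- persistent arcs
  have hpers : ∑ j : Fin n, (K - (j : ℕ)) ≤ ∑ j : Fin n, ((C.Pc K j).card + C.ecount K j) := by
    apply Finset.sum_le_sum
    intro j _
    rw [C.Pc_card]
    exact C.Pst_card K j (card_lnAbove_ge _ _ j K (hline (C.e j)))
  rw [Finset.sum_add_distrib] at hpers
  -- lower bound for the number of tokens
  set Pairs := (univ.filter (fun p : Fin n × Fin n => p.1 < p.2)) with hPairs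
  have hTlow : Pairs.card + ∑ j : Fin n, (C.Pc K j).card ≤ (C.T K).card := by
    have hfib : (C.T K).card = ∑ p ∈ Pairs, ((C.T K).filter (fun q => q.2 = p)).card := by
      apply Finset.card_eq_sum_card_fiberwise
      rintro ⟨h, u, v⟩ hq
      have hq' : (h, u, v) ∈ C.T K := hq
      rw [mem_T] at hq'
      simp only [hPairs, Finset.coe_filter, Finset.mem_univ, true_and, Set.mem_setOf_eq]
      exact hq'.1
    rw [hfib]
    have h1 : Pairs.card + ∑ j : Fin n, (C.Pc K j).card =
        ∑ p ∈ Pairs, (1 + (if p.2 ∈ C.Pc K p.1 then 1 else 0)) := by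
      rw [Finset.sum_add_distrib, Finset.sum_const, smul_eq_mul, mul_one]
      congr 1
      have h2 : ∑ p ∈ Pairs, (if p.2 ∈ C.Pc K p.1 then 1 else 0) =
          ∑ p : Fin n × Fin n, (if p.2 ∈ C.Pc K p.1 then 1 else 0) := by
        apply Finset.sum_subset (Finset.subset_univ _)
        rintro ⟨j, c⟩ _ hnp
        rw [if_neg]
        intro hc
        apply hnp
        simp only [hPairs, Finset.mem_filter, Finset.mem_univ, true_and]
        unfold Pc at hc
        rw [Finset.mem_image] at hc
        obtain ⟨⟨σ, c'⟩, hp, hcc⟩ := hc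
        simp only at hcc
        subst hcc
        unfold Pst at hp
        rw [Finset.mem_filter] at hp
        exact (mem_ZS.1 hp.1).2.1
      rw [h2, Fintype.sum_prod_type]
      apply Finset.sum_congr rfl
      intro j _
      simp only
      rw [Finset.sum_ite_mem, Finset.univ_inter, Finset.sum_const, smul_eq_mul, mul_one]
    rw [h1]
    apply Finset.sum_le_sum
    rintro ⟨u, v⟩ hp
    rw [hPairs, Finset.mem_filter] at hp
    by_cases hc : v ∈ C.Pc K u
    · simp only [hc, if_true]
      exact C.two_tokens K u v hc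
    · simp only [hc, if_false]
      exact C.one_token K u v hp.2 (hvis u v hp.2)
  have hpairs := two_mul_card_pairs n
  rw [← hPairs] at hpairs
  have hconst : ∑ _x : Fin n, 3 * K = 3 * K * n := by
    rw [Finset.sum_const, Finset.card_univ, Fintype.card_fin, smul_eq_mul]; ring
  rw [hconst] at hsum
  nlinarith [hsum, hT, hKsum, hec, hpers, hTlow, hpairs]

end Cfg

end Pool.Agent.Lib.MP_f47cd5_co
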