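import Mathlib

/-!
# Arc k-visibility graphs: definitions

The plane is `ℂ`.  `pt s t` is the point with signed radius `s` and angle `t`.
-/

namespace Pool.Agent.Lib.MP_f47cd5_co

open Real

/-- The point of the plane with signed radius `s` and angle `t`. -/
noncomputable def pt (s t : ℝ) : ℂ := (s : ℂ) * Complex.exp ((t : ℂ) * Complex.I)

/-- A closed arc of a circle centred at the origin: radius `r > 0`, angles from `a` to `b`,
`a ∈ [0, 2π)` and `0 ≤ b - a < 2π`. -/
structure Arc where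
  r : ℝ
  a : ℝ
  b : ℝ
  r_pos : 0 < r
  a_nonneg : 0 ≤ a
  a_lt : a < 2 * π
  a_le_b : a ≤ b
  b_lt : b < a + 2 * π

/-- The set of points of an arc. -/
def Arc.pts (A : Arc) : Set ℂ := {z | ∃ t, A.a ≤ t ∧ t ≤ A.b ∧ z = pt A.r t}

/-- The region between the signed radii `p` and `q` and between the angles `α` and `β`. -/
def coneSet (p q α β : ℝ) : Set ℂ :=
  {z | ∃ s t, p ≤ s ∧ s ≤ q ∧ α ≤ t ∧ t ≤ β ∧ z = pt s t}

/-- The circular end of signed radius `p`. -/
def coneEnd (p α β : ℝ) : Set ℂ := {z | ∃ t, α ≤ t ∧ t ≤ β ∧ z = pt p t}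

/-- Non-degenerate cones: either an annular sector (`0 < p < q`), or a double sector
through the origin (`p < 0 < q`), whose two radial sides cross at the origin. -/
def IsCone (p q α β : ℝ) : Prop :=
  (0 < p ∧ p < q ∧ α < β ∧ β < α + 2 * π) ∨ (p < 0 ∧ 0 < q ∧ α < β ∧ β < α + π)

/-- `u` and `v` see each other: some non-degenerate cone has its two circular ends in
the arcs of `u` and `v` and meets at most `k` other arcs. -/
def Sees {V : Type*} (k : ℕ) (A : V → Arc) (u v : V) : Prop :=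
  ∃ p q α β : ℝ, IsCone p q α β ∧
    ((coneEnd p α β ⊆ (A u).pts ∧ coneEnd q α β ⊆ (A v).pts) ∨
      (coneEnd p α β ⊆ (A v).pts ∧ coneEnd q α β ⊆ (A u).pts)) ∧
    {w | w ≠ u ∧ w ≠ v ∧ (coneSet p q α β ∩ (A w).pts).Nonempty}.encard ≤ (k : ℕ∞)

/-- Arc `k`-visibility graphs (finite simple graphs). -/
def IsArcVis (k : ℕ) {V : Type*} (G : SimpleGraph V) : Prop :=
  Finite V ∧ ∃ A : V → Arc, (∀ u v, u ≠ v → Disjoint (A u).pts (A v).pts) ∧
    ∀ u v, u ≠ v → (G.Adj u v ↔ Sees k A u v)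

/-! ### The discrete model -/

/-- Arc `u` (rank `0` is outermost) occupies the slots `s u, …, s u + l u - 1` modulo `2 M`. -/
structure Disc (n M : ℕ) where
  s : Fin n → ℕ
  l : Fin n → ℕ
  s_lt : ∀ u, s u < 2 * M
  l_pos : ∀ u, 0 < l u
  l_lt : ∀ u, l u < 2 * M

/-- Arc `u` is present on the ray `h`. -/
def Disc.al {n M : ℕ} (D : Disc n M) (u : Fin n) (h : ℕ) : Prop :=
  (h + (2 * M - D.s u)) % (2 * M) < D.l u

instance {n M : ℕ} (D : Disc n M) (u : Fin n) (h : ℕ) : Decidable (D.al u h) := by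
  unfold Disc.al; infer_instance

/-- `u` sees `v` from the ray `h` (meant for `u < v`). -/
def Disc.seesAt {n M : ℕ} (k : ℕ) (D : Disc n M) (u v : Fin n) (h : ℕ) : Prop :=
  D.al u h ∧
    ((D.al v h ∧ (Finset.univ.filter (fun w => u < w ∧ w < v ∧ D.al w h)).card ≤ k) ∨
     (D.al v (h + M) ∧ (Finset.univ.filter (fun w => w ≠ u ∧ w ≠ v ∧
        ((u < w ∧ D.al w h) ∨ (v < w ∧ D.al w (h + M))))).card ≤ k))

instance {n M : ℕ} (k : ℕ) (D : Disc n M) (u v : Fin n) (h : ℕ) :
    Decidable (D.seesAt k u v h) := by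
  unfold Disc.seesAt; infer_instance

/-- `D` represents the complete graph with parameter `k`. -/
def Disc.Complete {n M : ℕ} (k : ℕ) (D : Disc n M) : Prop :=
  ∀ u v : Fin n, u < v → ∃ h, D.seesAt k u v h

end Pool.Agent.Lib.MP_f47cd5_co
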