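import Pool.Agent.Lib.MP_f47cd5_co.State

/-!
# Effect of a start or an end of an arc on the instances
-/

namespace Pool.Agent.Lib.MP_f47cd5_co

open Finset Classical

variable {n : ℕ}

lemma depS_mono {P Q P' Q' : Fin n → Prop} {j v : Fin n} (hP : ∀ w, P' w → P w)
    (hPQ : ∀ w, (P' w ∨ Q' w) → (P w ∨ Q w)) (hv : P v ↔ P' v) :
    depS P' Q' j v ⊆ depS P Q j v := by
  intro w hw
  rw [mem_depS] at hw ⊢
  refine ⟨hw.1, hPQ w hw.2.1, ?_⟩
  have hkv : key P v = key P' v := by unfold key; simp [hv]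
  rw [hkv]
  refine lt_of_le_of_lt ?_ hw.2.2
  unfold key
  have := w.2
  by_cases h1 : P' w
  · rw [if_pos h1, if_pos (hP w h1)]
  · rw [if_neg h1]; split_ifs <;> omega

/-- outside a single arc `x` two states agree -/
def AgreeOff (x : Fin n) (P P' : Fin n → Prop) : Prop := ∀ w, w ≠ x → (P w ↔ P' w)

lemma key_congr {P P' : Fin n → Prop} {w : Fin n} (h : P w ↔ P' w) : key P w = key P' w := by
  unfold key; simp [h]

/-! ### start -/

lemma start_near_token {K : ℕ} {P P' Q : Fin n → Prop} {x u v : Fin n}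
    (hx' : ¬ P' x) (hoff : AgreeOff x P P') (hI : Inst K P Q u v)
    (hn : ¬ Inst K P' Q u v) : v = x ∨ u = x := by
  by_contra hcon
  push Not at hcon
  obtain ⟨hvx, hux⟩ := hcon
  apply hn
  refine ⟨(hoff u hux).1 hI.1, ?_, lt_of_le_of_lt ?_ hI.2.2⟩
  · rcases hI.2.1 with h | h
    · exact Or.inl ((hoff v hvx).1 h)
    · exact Or.inr h
  · unfold dep
    apply Finset.card_le_card
    apply depS_mono
    · intro w hw
      by_cases hwx : w = x
      · subst hwx; exact absurd hw hx'
      · exact (hoff w hwx).2 hw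
    · intro w hw
      rcases hw with hw | hw
      · left
        by_cases hwx : w = x
        · subst hwx; exact absurd hw hx'
        · exact (hoff w hwx).2 hw
      · exact Or.inr hw
    · exact hoff v hvx

lemma start_far_token {K : ℕ} {P P' Q : Fin n → Prop} {x u v : Fin n}
    (hx' : ¬ P' x) (hoff : AgreeOff x P P') (hI : Inst K Q P u v)
    (hn : ¬ Inst K Q P' u v) : v = x ∧ ¬ Q x := by
  have hdep : dep Q P' u v ≤ dep Q P u v := by
    unfold dep
    apply Finset.card_le_card
    apply depS_mono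
    · intro w hw; exact hw
    · intro w hw
      rcases hw with hw | hw
      · exact Or.inl hw
      · right
        by_cases hwx : w = x
        · subst hwx; exact absurd hw hx'
        · exact (hoff w hwx).2 hw
    · exact Iff.rfl
  by_contra hcon
  apply hn
  refine ⟨hI.1, ?_, lt_of_le_of_lt hdep hI.2.2⟩
  by_cases hvx : v = x
  · left
    have : Q x := by
      by_contra hq
      exact hcon ⟨hvx, hq⟩
    rw [hvx]; exact this
  · rcases hI.2.1 with h | h
    · exact Or.inl h
    · exact Or.inr ((hoff v hvx).1 h)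

/-! ### end -/

lemma end_near_token {K : ℕ} {P P' Q : Fin n → Prop} {x u v : Fin n}
    (hx' : P' x) (hx : ¬ P x) (hoff : AgreeOff x P P') (hI : Inst K P Q u v)
    (hn : ¬ Inst K P' Q u v) :
    u < x ∧ P u ∧ v ≠ x ∧ (P v ∨ Q v) ∧ dep P' Q u v = K ∧ (x : ℕ) < key P' v := by
  have hux : u ≠ x := by rintro rfl; exact hx hI.1
  have hP'u : P' u := (hoff u hux).1 hI.1
  have hline : P' v ∨ Q v := by
    by_cases hvx : v = x
    · left; rw [hvx]; exact hx'
    · rcases hI.2.1 with h | h
      · exact Or.inl ((hoff v hvx).1 h)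
      · exact Or.inr h
  have hge : K ≤ dep P' Q u v := by
    by_contra hcon
    exact hn ⟨hP'u, hline, not_le.1 hcon⟩
  have hlt := hI.2.2
  by_cases hvx : v = x
  · exfalso
    subst hvx
    have : dep P' Q u v ≤ dep P Q u v := by
      unfold dep
      apply Finset.card_le_card
      intro w hw
      rw [mem_depS] at hw ⊢
      have hwv : w ≠ v := by
        rintro rfl; exact lt_irrefl _ hw.2.2
      refine ⟨hw.1, ?_, ?_⟩
      · rcases hw.2.1 with h | h
        · exact Or.inl ((hoff w hwv).2 h)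
        · exact Or.inr h
      · rw [key_congr (hoff w hwv)]
        refine hw.2.2.trans_le ?_
        rw [key_near hx', key_far hx]
        have := v.2
        omega
    omega
  · have hkv : key P v = key P' v := key_congr (hoff v hvx)
    have hsub : depS P' Q u v ⊆ insert x (depS P Q u v) := by
      intro w hw
      rw [Finset.mem_insert]
      by_cases hwx : w = x
      · exact Or.inl hwx
      · right
        rw [mem_depS] at hw ⊢
        refine ⟨hw.1, ?_, ?_⟩
        · rcases hw.2.1 with h | h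
          · exact Or.inl ((hoff w hwx).2 h)
          · exact Or.inr h
        · rw [key_congr (hoff w hwx), hkv]; exact hw.2.2
    have hcard : dep P' Q u v ≤ dep P Q u v + 1 := by
      unfold dep
      exact (Finset.card_le_card hsub).trans (Finset.card_insert_le _ _)
    have hxm : x ∈ depS P' Q u v := by
      by_contra hxm
      have hsub2 : depS P' Q u v ⊆ depS P Q u v := by
        intro w hw
        have := hsub hw
        rw [Finset.mem_insert] at this
        rcases this with h | h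
        · subst h; exact absurd hw hxm
        · exact h
      have := Finset.card_le_card hsub2
      unfold dep at hge hlt
      omega
    rw [mem_depS, key_near hx'] at hxm
    exact ⟨hxm.1, hI.1, hvx, hI.2.1, by omega, hxm.2.2⟩

lemma end_far_token {K : ℕ} {P P' Q : Fin n → Prop} {x u v : Fin n}
    (hx' : P' x) (hoff : AgreeOff x P P') (hI : Inst K Q P u v)
    (hn : ¬ Inst K Q P' u v) :
    Q u ∧ v < x ∧ P v ∧ ¬ Q v ∧ ¬ Q x ∧ dep Q P' u v = K := by
  have hline : Q v ∨ P' v := by
    rcases hI.2.1 with h | h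
    · exact Or.inl h
    · right
      by_cases hvx : v = x
      · rw [hvx]; exact hx'
      · exact (hoff v hvx).1 h
  have hge : K ≤ dep Q P' u v := by
    by_contra hcon
    exact hn ⟨hI.1, hline, not_le.1 hcon⟩
  have hlt := hI.2.2
  have hsub : depS Q P' u v ⊆ insert x (depS Q P u v) := by
    intro w hw
    rw [Finset.mem_insert]
    by_cases hwx : w = x
    · exact Or.inl hwx
    · right
      rw [mem_depS] at hw ⊢
      refine ⟨hw.1, ?_, hw.2.2⟩
      rcases hw.2.1 with h | h
      · exact Or.inl h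
      · exact Or.inr ((hoff w hwx).2 h)
  have hcard : dep Q P' u v ≤ dep Q P u v + 1 := by
    unfold dep
    exact (Finset.card_le_card hsub).trans (Finset.card_insert_le _ _)
  have hnsub : ¬ depS Q P' u v ⊆ depS Q P u v := by
    intro hsub2
    have := Finset.card_le_card hsub2
    unfold dep at hge hlt
    omega
  have hxm : x ∈ depS Q P' u v ∧ x ∉ depS Q P u v := by
    rw [Finset.not_subset] at hnsub
    obtain ⟨w, hw1, hw2⟩ := hnsub
    have := hsub hw1
    rw [Finset.mem_insert] at this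
    rcases this with h | h
    · subst h; exact ⟨hw1, hw2⟩
    · exact absurd h hw2
  obtain ⟨hx1, hx2⟩ := hxm
  rw [mem_depS] at hx1 hx2
  have hnQx : ¬ Q x := by
    intro hq
    exact hx2 ⟨hx1.1, Or.inl hq, hx1.2.2⟩
  have hk := hx1.2.2
  rw [key_far hnQx] at hk
  have hx3 := x.2
  have hv3 := v.2
  have hnQv : ¬ Q v := by
    intro hq
    rw [key_near hq] at hk
    omega
  rw [key_far hnQv] at hk
  refine ⟨hI.1, ?_, ?_, hnQv, hnQx, by omega⟩
  · change (v : ℕ) < x; omega
  · rcases hI.2.1 with h | h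
    · exact absurd h hnQv
    · exact h

lemma end_range {K : ℕ} {P P' Q : Fin n → Prop} {x y z : Fin n}
    (hx' : P' x) (hoff : AgreeOff x P P') (hy : y < x) (hPy : P y)
    (hK : idx (B2 P' Q y) (ikey P' y) z = K) (hzx : z ≠ x) (hz : (x < z ∧ P z) ∨ Q z)
    (hxz : (x : ℕ) < ikey P' y z) :
    idx (B1 P x) (fun w => n - w) y < K ∧
      K - 1 - idx (B1 P x) (fun w => n - w) y < (B2 P Q x).card := by
  have hyx' : (y : ℕ) < x := hy
  set I : Finset (Fin n) := (B1 P x).filter (fun w => n - (w : ℕ) < n - (y : ℕ)) with hI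
  have hidx : idx (B1 P x) (fun w => n - w) y = I.card := rfl
  set T : Finset (Fin n) := (B2 P' Q y).filter (fun w => ikey P' y w < ikey P' y z) with hT
  have hTK : T.card = K := hK
  have hmI : ∀ w, w ∈ I ↔ w < x ∧ P w ∧ y < w := by
    intro w
    rw [hI, Finset.mem_filter, mem_B1]
    have h1 := w.2
    have h2 := y.2
    constructor
    · rintro ⟨⟨h3, h4⟩, h5⟩
      refine ⟨h3, h4, ?_⟩
      change (y : ℕ) < w; omega
    · rintro ⟨h3, h4, h5⟩
      have : (y : ℕ) < w := h5
      exact ⟨⟨h3, h4⟩, by omega⟩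
  have hxI : x ∉ I := by
    rw [hmI]; intro h; exact lt_irrefl _ h.1
  have hsub1 : insert x I ⊆ T := by
    intro w hw
    rw [Finset.mem_insert, hmI] at hw
    rw [hT, Finset.mem_filter, mem_B2]
    rcases hw with rfl | ⟨hwx, hPw, hyw⟩
    · refine ⟨⟨ne_of_gt hy, Or.inl ⟨hy, hx'⟩⟩, ?_⟩
      have : ikey P' y w = w := by unfold ikey; rw [if_pos ⟨hy, hx'⟩]
      rw [this]; exact hxz
    · have hP'w : P' w := (hoff w (ne_of_lt hwx)).1 hPw
      refine ⟨⟨ne_of_gt hyw, Or.inl ⟨hyw, hP'w⟩⟩, ?_⟩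
      have : ikey P' y w = w := by unfold ikey; rw [if_pos ⟨hyw, hP'w⟩]
      rw [this]
      exact lt_trans (show (w : ℕ) < x from hwx) hxz
  have hc1 := Finset.card_le_card hsub1
  rw [Finset.card_insert_of_notMem hxI, hTK] at hc1
  have hzB : z ∈ B2 P Q x := mem_B2.2 ⟨hzx, hz⟩
  have hsub2 : T ⊆ insert x I ∪ (B2 P Q x).erase z := by
    intro w hw
    rw [hT, Finset.mem_filter, mem_B2] at hw
    rw [Finset.mem_union, Finset.mem_insert, hmI, Finset.mem_erase, mem_B2]
    obtain ⟨⟨hwy, hw1⟩, hw2⟩ := hw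
    by_cases hwx : w = x
    · exact Or.inl (Or.inl hwx)
    · have hwz : w ≠ z := by rintro rfl; exact lt_irrefl _ hw2
      rcases hw1 with ⟨h1, h2⟩ | h1
      · have hPw : P w := (hoff w hwx).2 h2
        rcases lt_or_gt_of_ne hwx with h3 | h3
        · exact Or.inl (Or.inr ⟨h3, hPw, h1⟩)
        · exact Or.inr ⟨hwz, hwx, Or.inl ⟨h3, hPw⟩⟩
      · exact Or.inr ⟨hwz, hwx, Or.inr h1⟩
  have hc2 := (Finset.card_le_card hsub2).trans (Finset.card_union_le _ _)
  rw [Finset.card_insert_of_notMem hxI, hTK, Finset.card_erase_of_mem hzB] at hc2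
  have hpos : 0 < (B2 P Q x).card := Finset.card_pos.2 ⟨z, hzB⟩
  rw [hidx]
  omega

/-- Token count of an end event. -/
lemma end_card (K : ℕ) (P P' Q : Fin n → Prop) (x : Fin n)
    (hx' : P' x) (hx : ¬ P x) (hoff : AgreeOff x P P') :
    (univ.filter (fun p : Fin n × Fin n => p.1 < p.2 ∧ Inst K P Q p.1 p.2 ∧
        ¬ Inst K P' Q p.1 p.2)).card +
      (univ.filter (fun p : Fin n × Fin n => p.1 < p.2 ∧ Inst K Q P p.1 p.2 ∧
        ¬ Inst K Q P' p.1 p.2)).card ≤ endBudget K (B1 P x).card (B2 P Q x).card := by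
  set E1 := (univ.filter (fun p : Fin n × Fin n => p.1 < p.2 ∧ Inst K P Q p.1 p.2 ∧
        ¬ Inst K P' Q p.1 p.2)) with hE1
  set E2 := (univ.filter (fun p : Fin n × Fin n => p.1 < p.2 ∧ Inst K Q P p.1 p.2 ∧
        ¬ Inst K Q P' p.1 p.2)) with hE2
  set f : Fin n → ℕ := fun w => n - w with hf
  have hfinj : Set.InjOn f (B1 P x) := by
    intro a _ b _ hab
    have h1 := a.2
    have h2 := b.2
    simp only [hf] at hab
    ext; omega
  -- the common description
  have h1 : ∀ p ∈ E1, p.2 ∈ B2 P' Q p.1 ∧ idx (B2 P' Q p.1) (ikey P' p.1) p.2 = K ∧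
      p.1 ∈ B1 P x ∧ (idx (B1 P x) f p.1 < K ∧
      K - 1 - idx (B1 P x) f p.1 < (B2 P Q x).card) := by
    rintro ⟨u, v⟩ hp
    rw [hE1, Finset.mem_filter] at hp
    obtain ⟨-, huv, hI, hn⟩ := hp
    simp only at huv hI hn ⊢
    obtain ⟨hux, hPu, hvx, hline, hd, hk⟩ := end_near_token hx' hx hoff hI hn
    have hline' : P' v ∨ Q v := by
      rcases hline with h | h
      · exact Or.inl ((hoff v hvx).1 h)
      · exact Or.inr h
    have hvB : v ∈ B2 P' Q u := by
      rw [mem_B2]
      refine ⟨ne_of_gt huv, ?_⟩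
      rcases hline' with h | h
      · exact Or.inl ⟨huv, h⟩
      · exact Or.inr h
    have hidx : idx (B2 P' Q u) (ikey P' u) v = K := by rw [iidx_above huv]; exact hd
    refine ⟨hvB, hidx, mem_B1.2 ⟨hux, hPu⟩, ?_⟩
    refine end_range hx' hoff hux hPu hidx hvx ?_ ?_
    · by_cases hq : Q v
      · exact Or.inr hq
      · left
        have hPv : P v := hline.resolve_right hq
        have hP'v : P' v := (hoff v hvx).1 hPv
        rw [key_near hP'v] at hk
        exact ⟨hk, hPv⟩
    · rw [ikey_of_lt huv]; exact hk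
  have h2 : ∀ p ∈ E2, p.1 ∈ B2 P' Q p.2 ∧ idx (B2 P' Q p.2) (ikey P' p.2) p.1 = K ∧
      p.2 ∈ B1 P x ∧ (idx (B1 P x) f p.2 < K ∧
      K - 1 - idx (B1 P x) f p.2 < (B2 P Q x).card) := by
    rintro ⟨u, v⟩ hp
    rw [hE2, Finset.mem_filter] at hp
    obtain ⟨-, huv, hI, hn⟩ := hp
    simp only at huv hI hn ⊢
    obtain ⟨hQu, hvx, hPv, hQv, hQx, hd⟩ := end_far_token hx' hoff hI hn
    have huB : u ∈ B2 P' Q v := mem_B2.2 ⟨ne_of_lt huv, Or.inr hQu⟩
    have hidx : idx (B2 P' Q v) (ikey P' v) u = K := by rw [iidx_below huv hQv]; exact hd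
    refine ⟨huB, hidx, mem_B1.2 ⟨hvx, hPv⟩, ?_⟩
    refine end_range hx' hoff hvx hPv hidx ?_ (Or.inr hQu) ?_
    · rintro rfl; exact hQx hQu
    · rw [ikey_of_not_lt (not_lt.2 huv.le)]
      have := x.2
      have := u.2
      omega
  have hinj : ∀ y z z' : Fin n, z ∈ B2 P' Q y → z' ∈ B2 P' Q y →
      idx (B2 P' Q y) (ikey P' y) z = K → idx (B2 P' Q y) (ikey P' y) z' = K → z = z' := by
    intro y z z' hz hz' e e'
    exact idx_injOn (B2 P' Q y) (ikey P' y) (fun _ _ _ _ h => ikey_inj h) hz hz' (e.trans e'.symm)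
  have hi1 : Set.InjOn (fun p : Fin n × Fin n => p.1) E1 := by
    rintro ⟨u, v⟩ hp ⟨u', v'⟩ hp' h
    simp only at h
    subst h
    have a := h1 _ hp
    have b := h1 _ hp'
    simp only at a b
    have := hinj u v v' a.1 b.1 a.2.1 b.2.1
    rw [this]
  have hi2 : Set.InjOn (fun p : Fin n × Fin n => p.2) E2 := by
    rintro ⟨u, v⟩ hp ⟨u', v'⟩ hp' h
    simp only at h
    subst h
    have a := h2 _ hp
    have b := h2 _ hp'
    simp only at a b
    have := hinj v u u' a.1 b.1 a.2.1 b.2.1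
    rw [this]
  have hbud : ((B1 P x).filter (fun y => idx (B1 P x) f y < K ∧
      K - 1 - idx (B1 P x) f y < (B2 P Q x).card)).card =
      endBudget K (B1 P x).card (B2 P Q x).card :=
    card_idx_pred (B1 P x) f hfinj (fun i => i < K ∧ K - 1 - i < (B2 P Q x).card)
  rw [← hbud, ← Finset.card_image_of_injOn hi1, ← Finset.card_image_of_injOn hi2,
    ← Finset.card_union_of_disjoint]
  · apply Finset.card_le_card
    intro y hy
    rw [Finset.mem_union, Finset.mem_image, Finset.mem_image] at hy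
    rw [Finset.mem_filter]
    rcases hy with ⟨p, hp, rfl⟩ | ⟨p, hp, rfl⟩
    · exact ⟨(h1 p hp).2.2.1, (h1 p hp).2.2.2⟩
    · exact ⟨(h2 p hp).2.2.1, (h2 p hp).2.2.2⟩
  · rw [Finset.disjoint_left]
    intro y hy hy'
    rw [Finset.mem_image] at hy hy'
    obtain ⟨⟨u, v⟩, hp, rfl⟩ := hy
    obtain ⟨⟨u', v'⟩, hp', h⟩ := hy'
    simp only at h
    subst h
    have a := h1 _ hp
    have b := h2 _ hp'
    simp only at a b
    have e := hinj v' v u' a.1 b.1 a.2.1 b.2.1
    rw [hE1, Finset.mem_filter] at hp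
    rw [hE2, Finset.mem_filter] at hp'
    have c := hp.2.1
    have d := hp'.2.1
    simp only at c d
    rw [e] at c
    exact lt_asymm c d

end Pool.Agent.Lib.MP_f47cd5_co
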