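import Pool.Agent.Lib.MP_f47cd5_co.Defs

/-!
# A general family: `K_{5K+1}` is an arc `(K-1)`-visibility graph for every `K ≥ 1`

The line through the origin rotates by half a turn; it has positions `0, …, M - 1`,
`M = 10 K + 3`.  Side `A` of the line at position `t` is the ray `t`, side `B` is the ray
`M + t`.
-/

namespace Pool.Agent.Lib.MP_f47cd5_co

namespace Fam

/-- The position at which arc `u` ends on side `A`. -/
def ee (K u : ℕ) : ℕ :=
  if u < 2 * K then 5 * K - u
  else if u ≤ 3 * K then 11 * K + 2 - u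
  else if u ≤ 4 * K then 5 * K + 1 - u
  else u - 4 * K

/-- The position at which arc `u` starts (on side `A` if `u < K`, otherwise on side `B`). -/
def es (K u : ℕ) : ℕ :=
  if u < K then 9 * K + 3 + u
  else if u < 2 * K then 4 * K - u
  else if u ≤ 3 * K then 5 * K + 1 + u
  else 10 * K + 1 - u

/-- Start slot. -/
def ss (K u : ℕ) : ℕ := if u < K then es K u else 10 * K + 3 + es K u

/-- Length. -/
def ll (K u : ℕ) : ℕ :=
  if u < K then 2 * (10 * K + 3) - es K u + ee K u else 10 * K + 3 - es K u + ee K u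

/-- The family. -/
def fam (K : ℕ) (hK : 0 < K) : Disc (5 * K + 1) (10 * K + 3) where
  s := fun u => ss K u.1
  l := fun u => ll K u.1
  s_lt := by
    intro u
    have hu := u.2
    unfold ss es
    split_ifs <;> omega
  l_pos := by
    intro u
    have hu := u.2
    unfold ll es ee
    split_ifs <;> omega
  l_lt := by
    intro u
    have hu := u.2
    unfold ll es ee
    split_ifs <;> omega

/-- Alive on side `A` at position `t`. -/
theorem al_A {K : ℕ} (hK : 0 < K) (u : Fin (5 * K + 1)) {t : ℕ} (ht : t < 10 * K + 3) :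
    (fam K hK).al u t ↔ (t < ee K u.1 ∨ (u.1 < K ∧ es K u.1 ≤ t)) := by
  have hu := u.2
  have key : (t + (2 * (10 * K + 3) - ss K u.1)) % (2 * (10 * K + 3)) < ll K u.1 ↔
      (t < ee K u.1 ∨ (u.1 < K ∧ es K u.1 ≤ t)) := by
    have h1 : es K u.1 < 10 * K + 3 := by unfold es; split_ifs <;> omega
    have h2 : ee K u.1 < es K u.1 + (10 * K + 3) := by unfold es ee; split_ifs <;> omega
    have h2' : u.1 < K → ee K u.1 < es K u.1 := by
      intro h; unfold es ee; split_ifs <;> omega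
    unfold ss ll
    by_cases hF : u.1 < K
    · have h3 := h2' hF
      simp only [hF, if_true, true_and]
      by_cases h : es K u.1 ≤ t
      · have : (t + (2 * (10 * K + 3) - es K u.1)) = (t - es K u.1) + 2 * (10 * K + 3) := by
          omega
        rw [this, Nat.add_mod_right, Nat.mod_eq_of_lt (by omega)]
        omega
      · rw [Nat.mod_eq_of_lt (by omega)]
        omega
    · simp only [hF, if_false, false_and, or_false]
      rw [Nat.mod_eq_of_lt (by omega)]
      omega
  exact key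

/-- Alive on side `B` at position `t`. -/
theorem al_B {K : ℕ} (hK : 0 < K) (u : Fin (5 * K + 1)) {t : ℕ} (ht : t < 10 * K + 3) :
    (fam K hK).al u (10 * K + 3 + t) ↔ (u.1 < K ∨ es K u.1 ≤ t) := by
  have hu := u.2
  have key : (10 * K + 3 + t + (2 * (10 * K + 3) - ss K u.1)) % (2 * (10 * K + 3)) < ll K u.1 ↔
      (u.1 < K ∨ es K u.1 ≤ t) := by
    have h1 : es K u.1 < 10 * K + 3 := by unfold es; split_ifs <;> omega
    have h2 : ee K u.1 < 10 * K + 3 := by unfold ee; split_ifs <;> omega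
    have h3 : 0 < ee K u.1 := by unfold ee; split_ifs <;> omega
    unfold ss ll
    by_cases hF : u.1 < K
    · simp only [hF, if_true, true_or, iff_true]
      have : (10 * K + 3 + t + (2 * (10 * K + 3) - es K u.1)) =
          (10 * K + 3 + t - es K u.1) + 2 * (10 * K + 3) := by omega
      rw [this, Nat.add_mod_right, Nat.mod_eq_of_lt (by omega)]
      omega
    · simp only [hF, if_false, false_or]
      by_cases h : es K u.1 ≤ t
      · have : (10 * K + 3 + t + (2 * (10 * K + 3) - (10 * K + 3 + es K u.1))) =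
          (t - es K u.1) + 2 * (10 * K + 3) := by omega
        rw [this, Nat.add_mod_right, Nat.mod_eq_of_lt (by omega)]
        omega
      · rw [Nat.mod_eq_of_lt (by omega)]
        omega
  exact key

theorem al_A' {K : ℕ} (hK : 0 < K) (u : Fin (5 * K + 1)) {t : ℕ} (ht : t < 10 * K + 3) :
    (fam K hK).al u (10 * K + 3 + t + (10 * K + 3)) ↔
      (t < ee K u.1 ∨ (u.1 < K ∧ es K u.1 ≤ t)) := by
  rw [← al_A hK u ht]
  unfold Disc.al
  have hs := (fam K hK).s_lt u
  have : 10 * K + 3 + t + (10 * K + 3) + (2 * (10 * K + 3) - (fam K hK).s u) =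
      (t + (2 * (10 * K + 3) - (fam K hK).s u)) + 2 * (10 * K + 3) := by omega
  rw [this, Nat.add_mod_right]

theorem al_B' {K : ℕ} (hK : 0 < K) (u : Fin (5 * K + 1)) {t : ℕ} (ht : t < 10 * K + 3) :
    (fam K hK).al u (t + (10 * K + 3)) ↔ (u.1 < K ∨ es K u.1 ≤ t) := by
  rw [← al_B hK u ht, Nat.add_comm t (10 * K + 3)]

theorem card_filter_le {n : ℕ} (p : Fin n → Prop) [DecidablePred p] (a b : ℕ)
    (h : ∀ w : Fin n, p w → a ≤ w.1 ∧ w.1 < b) : (Finset.univ.filter p).card ≤ b - a := by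
  have h1 : ((Finset.univ.filter p).map Fin.valEmbedding).card ≤ (Finset.Ico a b).card := by
    apply Finset.card_le_card
    intro x hx
    simp only [Finset.mem_map, Finset.mem_filter, Finset.mem_univ, true_and] at hx
    obtain ⟨w, hw, rfl⟩ := hx
    simpa using h w hw
  simpa using h1

/-- Visibility on the same side `A`. -/
theorem seesAA {K : ℕ} (hK : 0 < K) (u v : Fin (5 * K + 1)) (t a b : ℕ) (ht : t < 10 * K + 3)
    (hu : t < ee K u.1 ∨ (u.1 < K ∧ es K u.1 ≤ t))
    (hv : t < ee K v.1 ∨ (v.1 < K ∧ es K v.1 ≤ t))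
    (hab : b ≤ a + (K - 1))
    (h : ∀ w : ℕ, w < 5 * K + 1 → u.1 < w → w < v.1 →
      (t < ee K w ∨ (w < K ∧ es K w ≤ t)) → a ≤ w ∧ w < b) :
    (fam K hK).seesAt (K - 1) u v t := by
  refine ⟨(al_A hK u ht).2 hu, Or.inl ⟨(al_A hK v ht).2 hv, ?_⟩⟩
  refine (card_filter_le _ a b ?_).trans (by omega)
  rintro w ⟨h1, h2, h3⟩
  rw [al_A hK w ht] at h3
  exact h w.1 w.2 h1 h2 h3

/-- Visibility on the same side `B`. -/
theorem seesBB {K : ℕ} (hK : 0 < K) (u v : Fin (5 * K + 1)) (t a b : ℕ) (ht : t < 10 * K + 3)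
    (hu : u.1 < K ∨ es K u.1 ≤ t)
    (hv : v.1 < K ∨ es K v.1 ≤ t)
    (hab : b ≤ a + (K - 1))
    (h : ∀ w : ℕ, w < 5 * K + 1 → u.1 < w → w < v.1 →
      (w < K ∨ es K w ≤ t) → a ≤ w ∧ w < b) :
    (fam K hK).seesAt (K - 1) u v (10 * K + 3 + t) := by
  refine ⟨(al_B hK u ht).2 hu, Or.inl ⟨(al_B hK v ht).2 hv, ?_⟩⟩
  refine (card_filter_le _ a b ?_).trans (by omega)
  rintro w ⟨h1, h2, h3⟩
  rw [al_B hK w ht] at h3
  exact h w.1 w.2 h1 h2 h3

/-- Visibility, `u` on side `A` and `v` on side `B`. -/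
theorem seesAB {K : ℕ} (hK : 0 < K) (u v : Fin (5 * K + 1)) (t a b : ℕ) (ht : t < 10 * K + 3)
    (hu : t < ee K u.1 ∨ (u.1 < K ∧ es K u.1 ≤ t))
    (hv : v.1 < K ∨ es K v.1 ≤ t)
    (hab : b ≤ a + (K - 1))
    (h : ∀ w : ℕ, w < 5 * K + 1 →
      (u.1 < w ∧ (t < ee K w ∨ (w < K ∧ es K w ≤ t))) ∨
      (v.1 < w ∧ (w < K ∨ es K w ≤ t)) → a ≤ w ∧ w < b) :
    (fam K hK).seesAt (K - 1) u v t := by
  refine ⟨(al_A hK u ht).2 hu, Or.inr ⟨(al_B' hK v ht).2 hv, ?_⟩⟩
  refine (card_filter_le _ a b ?_).trans (by omega)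
  rintro w ⟨-, -, h3⟩
  rw [al_A hK w ht, al_B' hK w ht] at h3
  exact h w.1 w.2 h3

/-- Visibility, `u` on side `B` and `v` on side `A`. -/
theorem seesBA {K : ℕ} (hK : 0 < K) (u v : Fin (5 * K + 1)) (t a b : ℕ) (ht : t < 10 * K + 3)
    (hu : u.1 < K ∨ es K u.1 ≤ t)
    (hv : t < ee K v.1 ∨ (v.1 < K ∧ es K v.1 ≤ t))
    (hab : b ≤ a + (K - 1))
    (h : ∀ w : ℕ, w < 5 * K + 1 →
      (u.1 < w ∧ (w < K ∨ es K w ≤ t)) ∨
      (v.1 < w ∧ (t < ee K w ∨ (w < K ∧ es K w ≤ t))) → a ≤ w ∧ w < b) :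
    (fam K hK).seesAt (K - 1) u v (10 * K + 3 + t) := by
  refine ⟨(al_B hK u ht).2 hu, Or.inr ⟨(al_A' hK v ht).2 hv, ?_⟩⟩
  refine (card_filter_le _ a b ?_).trans (by omega)
  rintro w ⟨-, -, h3⟩
  rw [al_B hK w ht, al_A' hK w ht] at h3
  exact h w.1 w.2 h3

theorem fam_complete (K : ℕ) (hK : 0 < K) : (fam K hK).Complete (K - 1) := by
  intro u v huv
  have huv' : u.1 < v.1 := huv
  have hu := u.2
  have hv := v.2
  by_cases hd : v.1 ≤ u.1 + K
  · -- close pairs, position 0, side A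
    refine ⟨_, seesAA hK u v 0 (u.1 + 1) v.1 (by omega) ?_ ?_ (by omega) ?_⟩
    · left; unfold ee; split_ifs <;> omega
    · left; unfold ee; split_ifs <;> omega
    · intro w _ h1 h2 _; omega
  by_cases hF : u.1 < K
  · by_cases hG' : v.1 < 2 * K
    · -- F, G
      refine ⟨_, seesBB hK u v (es K v.1) (u.1 + 1) K ?_ (Or.inl hF) (Or.inr le_rfl)
        (by omega) ?_⟩
      · unfold es; split_ifs <;> omega
      · intro w hw h1 h2 h3
        unfold es at h3; split_ifs at h3 <;> omega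
    by_cases hH' : v.1 < 3 * K
    · -- F, H
      refine ⟨_, seesAA hK u v (ee K u.1 - 1) (2 * K) v.1 ?_ ?_ ?_ (by omega) ?_⟩
      · unfold ee; split_ifs <;> omega
      · left; unfold ee; split_ifs <;> omega
      · left; unfold ee; split_ifs <;> omega
      · intro w hw h1 h2 h3
        unfold ee es at h3; split_ifs at h3 <;> omega
    by_cases hH'' : v.1 = 3 * K
    · refine ⟨_, seesBA hK u v (2 * K) (u.1 + 1) K (by omega) (Or.inl hF) ?_ (by omega) ?_⟩
      · left; unfold ee; split_ifs <;> omega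
      · intro w hw h3
        unfold ee es at h3; split_ifs at h3 <;> omega
    by_cases hI' : v.1 ≤ 4 * K
    · -- F, I1
      refine ⟨_, seesBA hK u v (ee K v.1 - 1) (u.1 + 1) K ?_ (Or.inl hF) ?_ (by omega) ?_⟩
      · unfold ee; split_ifs <;> omega
      · left; unfold ee; split_ifs <;> omega
      · intro w hw h3
        unfold ee es at h3; split_ifs at h3 <;> omega
    · -- F, I2
      refine ⟨_, seesAB hK u v (es K u.1) (v.1 + 1) (5 * K + 1) ?_ (Or.inr ⟨hF, le_rfl⟩) ?_
        (by omega) ?_⟩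
      · unfold es; split_ifs <;> omega
      · right; unfold es; split_ifs <;> omega
      · intro w hw h3
        unfold ee es at h3; split_ifs at h3 <;> omega
  by_cases hG : u.1 < 2 * K
  · by_cases hH' : v.1 < 3 * K
    · -- G, H
      refine ⟨_, seesAA hK u v (ee K u.1 - 1) (2 * K) v.1 ?_ ?_ ?_ (by omega) ?_⟩
      · unfold ee; split_ifs <;> omega
      · left; unfold ee; split_ifs <;> omega
      · left; unfold ee; split_ifs <;> omega
      · intro w hw h1 h2 h3
        unfold ee es at h3; split_ifs at h3 <;> omega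
    by_cases hH'' : v.1 = 3 * K
    · refine ⟨_, seesBA hK u v (es K u.1) (u.1 + 1) (2 * K) ?_ (Or.inr le_rfl) ?_ (by omega) ?_⟩
      · unfold es; split_ifs <;> omega
      · left; unfold ee es; split_ifs <;> omega
      · intro w hw h3
        unfold ee es at h3; split_ifs at h3 <;> omega
    · -- G, I
      refine ⟨_, seesBB hK u v (es K v.1) (u.1 + 1) (2 * K) ?_ ?_ (Or.inr le_rfl)
        (by omega) ?_⟩
      · unfold es; split_ifs <;> omega
      · right; unfold es; split_ifs <;> omega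
      · intro w hw h1 h2 h3
        unfold es at h3; split_ifs at h3 <;> omega
  by_cases hH : u.1 ≤ 3 * K
  · by_cases hI' : v.1 ≤ 4 * K
    · -- H, I1
      refine ⟨_, seesBB hK u v (es K u.1) (3 * K + 1) v.1 ?_ (Or.inr le_rfl) ?_
        (by omega) ?_⟩
      · unfold es; split_ifs <;> omega
      · right; unfold es; split_ifs <;> omega
      · intro w hw h1 h2 h3
        unfold es at h3; split_ifs at h3 <;> omega
    · -- H, I2
      refine ⟨_, seesAB hK u v (ee K u.1 - 1) (v.1 + 1) (5 * K + 1) ?_ ?_ ?_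
        (by omega) ?_⟩
      · unfold ee; split_ifs <;> omega
      · left; unfold ee; split_ifs <;> omega
      · right; unfold es ee; split_ifs <;> omega
      · intro w hw h3
        unfold ee es at h3; split_ifs at h3 <;> omega
  · -- I1, I2
    refine ⟨_, seesAA hK u v (ee K v.1 - 1) (u.1 + 1) (4 * K + 1) ?_ ?_ ?_ (by omega) ?_⟩
    · unfold ee; split_ifs <;> omega
    · left; unfold ee; split_ifs <;> omega
    · left; unfold ee; split_ifs <;> omega
    · intro w hw h1 h2 h3
      unfold ee es at h3; split_ifs at h3 <;> omega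

end Fam

end Pool.Agent.Lib.MP_f47cd5_co
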