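import Mathlib

/-!
# Index lemmas for finite sets with an injective key
-/

namespace Pool.Agent.Lib.MP_f47cd5_co

open Finset

/-- number of elements of `S` with smaller key -/
def idx {α : Type*} (S : Finset α) (f : α → ℕ) (y : α) : ℕ := (S.filter (fun w => f w < f y)).card

lemma idx_lt_card {α : Type*} (S : Finset α) (f : α → ℕ) {y : α} (hy : y ∈ S) :
    idx S f y < S.card := by
  unfold idx
  apply Finset.card_lt_card
  rw [Finset.filter_ssubset]
  exact ⟨y, hy, lt_irrefl _⟩

lemma idx_lt_idx {α : Type*} (S : Finset α) (f : α → ℕ) {y z : α} (hy : y ∈ S)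
    (h : f y < f z) : idx S f y < idx S f z := by
  unfold idx
  apply Finset.card_lt_card
  rw [Finset.ssubset_iff_of_subset]
  · exact ⟨y, by simp [hy, h], by simp⟩
  · intro w hw
    simp only [Finset.mem_filter] at hw ⊢
    exact ⟨hw.1, hw.2.trans h⟩

lemma idx_injOn {α : Type*} (S : Finset α) (f : α → ℕ) (hf : Set.InjOn f S) :
    Set.InjOn (idx S f) S := by
  intro y hy z hz h
  by_contra hne
  have hf' : f y ≠ f z := fun h' => hne (hf hy hz h')
  rcases lt_or_gt_of_ne hf' with h1 | h1
  · exact (idx_lt_idx S f hy h1).ne h
  · exact (idx_lt_idx S f hz h1).ne h.symm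

lemma image_idx {α : Type*} [DecidableEq α] (S : Finset α) (f : α → ℕ) (hf : Set.InjOn f S) :
    S.image (idx S f) = Finset.range S.card := by
  apply Finset.eq_of_subset_of_card_le
  · intro i hi
    simp only [Finset.mem_image] at hi
    obtain ⟨y, hy, rfl⟩ := hi
    exact Finset.mem_range.2 (idx_lt_card S f hy)
  · rw [Finset.card_image_of_injOn (idx_injOn S f hf), Finset.card_range]

lemma sum_idx {α : Type*} [DecidableEq α] (S : Finset α) (f : α → ℕ) (hf : Set.InjOn f S)
    (F : ℕ → ℕ) : ∑ y ∈ S, F (idx S f y) = ∑ i ∈ Finset.range S.card, F i := by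
  rw [← image_idx S f hf, Finset.sum_image (idx_injOn S f hf)]

lemma card_idx_pred {α : Type*} [DecidableEq α] (S : Finset α) (f : α → ℕ)
    (hf : Set.InjOn f S) (p : ℕ → Prop) [DecidablePred p] :
    (S.filter (fun y => p (idx S f y))).card = ((Finset.range S.card).filter p).card := by
  rw [Finset.card_filter, Finset.card_filter]
  exact sum_idx S f hf (fun i => if p i then 1 else 0)

lemma card_idx_lt {α : Type*} [DecidableEq α] (S : Finset α) (f : α → ℕ)
    (hf : Set.InjOn f S) (K : ℕ) :
    (S.filter (fun y => idx S f y < K)).card = min K S.card := by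
  rw [card_idx_pred S f hf (fun i => i < K)]
  have : (Finset.range S.card).filter (fun i => i < K) = Finset.range (min K S.card) := by
    ext i; simp; omega
  rw [this, Finset.card_range]

/-- the number of `i < a` with `i < K` and `K - 1 - i < b` -/
def endBudget (K a b : ℕ) : ℕ := ((Finset.range a).filter (fun i => i < K ∧ K - 1 - i < b)).card

lemma endBudget_eq (K a b : ℕ) (h : K ≤ a + b) : endBudget K a b + (K - a) + (K - b) = K := by
  unfold endBudget
  have : (Finset.range a).filter (fun i => i < K ∧ K - 1 - i < b) =
      Finset.Ico (K - b) (min a K) := by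
    ext i; simp only [Finset.mem_filter, Finset.mem_range, Finset.mem_Ico]; omega
  rw [this, Nat.card_Ico]
  omega

lemma endBudget_le (K a b : ℕ) : endBudget K a b ≤ min K (a + b - K) := by
  unfold endBudget
  have : (Finset.range a).filter (fun i => i < K ∧ K - 1 - i < b) ⊆
      Finset.Ico (K - b) (min a K) := by
    intro i; simp only [Finset.mem_filter, Finset.mem_range, Finset.mem_Ico]; omega
  have h2 := Finset.card_le_card this
  rw [Nat.card_Ico] at h2
  omega

/-- The peeling inequality. -/
lemma peel {n : ℕ} (B : Finset (Fin n)) (K J : ℕ) (hJ : J ≤ K) (hJn : J ≤ n) :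
    ((Finset.univ : Finset (Fin n)).filter (fun j : Fin n => (j : ℕ) < J ∧ j ∉ B ∧
      (B.filter (fun w : Fin n => j < w)).card < K - j)).card
      + (K - J - (B.filter (fun w : Fin n => J ≤ (w : ℕ))).card) ≤ K - B.card := by
  classical
  induction J with
  | zero => simp
  | succ J ih =>
    have ih := ih (by omega) (by omega)
    set jj : Fin n := ⟨J, by omega⟩ with hjj
    have hsplit : (B.filter (fun w : Fin n => J ≤ (w : ℕ))).card =
        (B.filter (fun w : Fin n => J + 1 ≤ (w : ℕ))).card + (if jj ∈ B then 1 else 0) := by
      have h1 : B.filter (fun w : Fin n => J ≤ (w : ℕ)) =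
          B.filter (fun w : Fin n => J + 1 ≤ (w : ℕ)) ∪ B.filter (fun w : Fin n => w = jj) := by
        ext w
        simp only [Finset.mem_filter, Finset.mem_union, Fin.ext_iff, hjj]
        constructor
        · rintro ⟨hw, h⟩
          rcases Nat.lt_or_ge J w with h' | h'
          · left; exact ⟨hw, h'⟩
          · right; exact ⟨hw, by omega⟩
        · rintro (⟨hw, h⟩ | ⟨hw, h⟩)
          · exact ⟨hw, by omega⟩
          · exact ⟨hw, by omega⟩
      rw [h1, Finset.card_union_of_disjoint]
      · congr 1
        by_cases hb : jj ∈ B
        · rw [if_pos hb]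
          have : B.filter (fun w : Fin n => w = jj) = {jj} := by
            ext w; simp only [Finset.mem_filter, Finset.mem_singleton]
            constructor
            · exact fun h => h.2
            · rintro rfl; exact ⟨hb, rfl⟩
          rw [this, Finset.card_singleton]
        · rw [if_neg hb]
          have : B.filter (fun w : Fin n => w = jj) = ∅ := by
            ext w; simp only [Finset.mem_filter, Finset.notMem_empty, iff_false, not_and]
            rintro hw rfl; exact hb hw
          rw [this, Finset.card_empty]
      · rw [Finset.disjoint_left]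
        intro w hw hw'
        simp only [Finset.mem_filter, hjj, Fin.ext_iff] at hw hw'
        omega
    have hsplit2 : ((Finset.univ : Finset (Fin n)).filter (fun j : Fin n => (j : ℕ) < J + 1 ∧ j ∉ B ∧
        (B.filter (fun w : Fin n => j < w)).card < K - j)).card =
        ((Finset.univ : Finset (Fin n)).filter (fun j : Fin n => (j : ℕ) < J ∧ j ∉ B ∧
        (B.filter (fun w : Fin n => j < w)).card < K - j)).card +
        (if jj ∉ B ∧ (B.filter (fun w : Fin n => jj < w)).card < K - J then 1 else 0) := by
      have h1 : (Finset.univ : Finset (Fin n)).filter (fun j : Fin n => (j : ℕ) < J + 1 ∧ j ∉ B ∧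
          (B.filter (fun w : Fin n => j < w)).card < K - j) =
          (Finset.univ : Finset (Fin n)).filter (fun j : Fin n => (j : ℕ) < J ∧ j ∉ B ∧
          (B.filter (fun w : Fin n => j < w)).card < K - j) ∪
          (Finset.univ : Finset (Fin n)).filter (fun j : Fin n => j = jj ∧ jj ∉ B ∧
            (B.filter (fun w : Fin n => jj < w)).card < K - J) := by
        ext w
        simp only [Finset.mem_filter, Finset.mem_univ, true_and, Finset.mem_union]
        constructor
        · rintro ⟨h1, h2, h3⟩
          rcases Nat.lt_or_ge w J with h' | h'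
          · left; exact ⟨h', h2, h3⟩
          · right
            have : w = jj := by ext; simp only [hjj]; omega
            subst this
            exact ⟨rfl, h2, h3⟩
        · rintro (⟨h1, h2, h3⟩ | ⟨h1, h2, h3⟩)
          · exact ⟨by omega, h2, h3⟩
          · subst h1; exact ⟨by simp [hjj], h2, h3⟩
      rw [h1, Finset.card_union_of_disjoint]
      · congr 1
        by_cases hb : jj ∉ B ∧ (B.filter (fun w : Fin n => jj < w)).card < K - J
        · rw [if_pos hb]
          have : (Finset.univ : Finset (Fin n)).filter (fun j : Fin n => j = jj ∧ jj ∉ B ∧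
            (B.filter (fun w : Fin n => jj < w)).card < K - J) = {jj} := by
            ext w; simp only [Finset.mem_filter, Finset.mem_univ, true_and,
              Finset.mem_singleton]
            constructor
            · exact fun h => h.1
            · intro h; exact ⟨h, hb⟩
          rw [this, Finset.card_singleton]
        · rw [if_neg hb]
          have : (Finset.univ : Finset (Fin n)).filter (fun j : Fin n => j = jj ∧ jj ∉ B ∧
            (B.filter (fun w : Fin n => jj < w)).card < K - J) = ∅ := by
            ext w; simp only [Finset.mem_filter, Finset.mem_univ, true_and,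
              Finset.notMem_empty, iff_false]
            intro h; exact hb h.2
          rw [this, Finset.card_empty]
      · rw [Finset.disjoint_left]
        intro w hw hw'
        simp only [Finset.mem_filter, Finset.mem_univ, true_and] at hw hw'
        have := hw'.1
        subst this
        simp only [hjj] at hw
        omega
    have hc : (B.filter (fun w : Fin n => jj < w)) = (B.filter (fun w : Fin n => J + 1 ≤ (w : ℕ))) := by
      ext w; simp only [Finset.mem_filter, hjj, Fin.lt_def]; rfl
    rw [hsplit2]
    rw [hsplit] at ih
    rw [hc]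
    by_cases hb : jj ∈ B
    · simp only [hb, not_true_eq_false, false_and, if_false, if_true] at ih ⊢
      omega
    · simp only [hb, not_false_eq_true, true_and, if_false] at ih ⊢
      split_ifs with h2 <;> omega

end Pool.Agent.Lib.MP_f47cd5_co
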