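import Pool.Agent.Lib.MP_f47cd5_co.Cfg

/-!
# Persistent strands and repeated tokens
-/

namespace Pool.Agent.Lib.MP_f47cd5_co

open Finset Classical

lemma persist_card {α : Type*} [DecidableEq α] (Z : ℕ → Finset α) (g : ℕ) :
    (Z 0).card ≤ ((Z 0).filter (fun p => ∀ t, t ≤ g → p ∈ Z t)).card +
      ∑ t ∈ range g, (Z t \ Z (t + 1)).card := by
  induction g with
  | zero =>
    rw [Finset.range_zero, Finset.sum_empty, add_zero]
    apply Finset.card_le_card
    intro p hp
    rw [Finset.mem_filter]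
    refine ⟨hp, ?_⟩
    intro t ht
    have : t = 0 := by omega
    rw [this]; exact hp
  | succ g ih =>
    rw [Finset.sum_range_succ]
    have hsub : (Z 0).filter (fun p => ∀ t, t ≤ g → p ∈ Z t) ⊆
        (Z 0).filter (fun p => ∀ t, t ≤ g + 1 → p ∈ Z t) ∪ (Z g \ Z (g + 1)) := by
      intro p hp
      rw [Finset.mem_filter] at hp
      rw [Finset.mem_union, Finset.mem_filter, Finset.mem_sdiff]
      by_cases h : p ∈ Z (g + 1)
      · left
        refine ⟨hp.1, ?_⟩
        intro t ht
        rcases Nat.lt_or_ge g t with h1 | h1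
        · have : t = g + 1 := by omega
          rw [this]; exact h
        · exact hp.2 t h1
      · right
        exact ⟨hp.2 g le_rfl, h⟩
    have h1 := (Finset.card_le_card hsub).trans (Finset.card_union_le _ _)
    omega

lemma ivt_nat (p : ℕ → Prop) (a b : ℕ) (hab : a ≤ b) (ha : ¬ p a) (hb : p b) :
    ∃ t, a < t ∧ t ≤ b ∧ p t ∧ ¬ p (t - 1) := by
  induction b, hab using Nat.le_induction with
  | base => exact absurd hb ha
  | succ b hab ih =>
    by_cases h : p b
    · obtain ⟨t, h1, h2, h3, h4⟩ := ih h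
      exact ⟨t, h1, by omega, h3, h4⟩
    · exact ⟨b + 1, by omega, le_rfl, hb, h⟩

lemma ZS_congr {n : ℕ} {P P' Q Q' : Fin n → Prop} {m : ℕ} {j : Fin n}
    (hP : ∀ w, j < w → (P w ↔ P' w)) (hQ : ∀ w, j < w → (Q w ↔ Q' w)) :
    ZS P Q m j = ZS P' Q' m j := by
  have hd : ∀ c, j < c → dep P Q j c = dep P' Q' j c := by
    intro c hc
    unfold dep
    congr 1
    ext w
    rw [mem_depS, mem_depS]
    constructor
    · rintro ⟨h1, h2, h3⟩
      rw [hP w h1, hQ w h1, key_congr (hP w h1), key_congr (hP c hc)] at *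
      exact ⟨h1, h2, h3⟩
    · rintro ⟨h1, h2, h3⟩
      rw [hP w h1, hQ w h1, key_congr (hP w h1), key_congr (hP c hc)]
      exact ⟨h1, h2, h3⟩
  ext ⟨σ, c⟩
  rw [mem_ZS, mem_ZS]
  constructor
  · rintro ⟨h1, h2, h3, h4⟩
    rw [← hP c h2, ← hQ c h2, ← hd c h2]
    exact ⟨h1, h2, h3, h4⟩
  · rintro ⟨h1, h2, h3, h4⟩
    rw [hP c h2, hQ c h2, hd c h2]
    exact ⟨h1, h2, h3, h4⟩

namespace Cfg

variable {n M : ℕ} (C : Cfg n M) [NeZero M]

/-- length of arc `j` -/
def len (j : Fin n) : ℕ := (C.e j - C.s j).val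
/-- length of the gap of arc `j` -/
def gap (j : Fin n) : ℕ := (C.s j - C.e j).val

lemma s_add_len (j : Fin n) : C.s j + (C.len j : ZMod (2 * M)) = C.e j := by
  unfold len; rw [ZMod.natCast_val, ZMod.cast_id']; simp

lemma e_add_gap (j : Fin n) : C.e j + (C.gap j : ZMod (2 * M)) = C.s j := by
  unfold gap; rw [ZMod.natCast_val, ZMod.cast_id']; simp

lemma len_pos (j : Fin n) : 0 < C.len j := by
  rw [Nat.pos_iff_ne_zero]
  intro h
  have := C.s_add_len j
  rw [h, Nat.cast_zero, add_zero] at this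
  exact (C.se j j).1 this

lemma gap_pos (j : Fin n) : 0 < C.gap j := by
  rw [Nat.pos_iff_ne_zero]
  intro h
  have := C.e_add_gap j
  rw [h, Nat.cast_zero, add_zero] at this
  exact (C.se j j).1 this.symm

lemma len_lt (j : Fin n) : C.len j < 2 * M := ZMod.val_lt _
lemma gap_lt (j : Fin n) : C.gap j < 2 * M := ZMod.val_lt _

lemma len_add_gap (j : Fin n) : C.len j + C.gap j = 2 * M := by
  have h1 : ((C.len j + C.gap j : ℕ) : ZMod (2 * M)) = 0 := by
    push_cast
    have h2 := C.s_add_len j
    have h3 := C.e_add_gap j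
    have : C.s j + ((C.len j : ZMod (2 * M)) + C.gap j) = C.s j := by
      rw [← add_assoc, h2, h3]
    simpa using this
  rw [ZMod.natCast_eq_zero_iff] at h1
  obtain ⟨c, hc⟩ := h1
  have := C.len_pos j
  have := C.gap_pos j
  have := C.len_lt j
  have := C.gap_lt j
  have hM : 0 < 2 * M := by omega
  have hc1 : c = 1 := by
    have h4 : 0 < 2 * M * c := by omega
    have h5 : 2 * M * c < 2 * M * 2 := by omega
    have h6 : c < 2 := Nat.lt_of_mul_lt_mul_left h5
    have h7 : 0 < c := Nat.pos_of_mul_pos_left h4 |> fun h => by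
      rcases Nat.eq_zero_or_pos c with h0 | h0
      · rw [h0] at h4; simp at h4
      · exact h0
    omega
  rw [hc1] at hc; omega

lemma natCast_inj_of_lt {a b : ℕ} (ha : a < 2 * M) (hb : b < 2 * M)
    (h : (a : ZMod (2 * M)) = (b : ZMod (2 * M))) : a = b := by
  have h1 := congrArg ZMod.val h
  rwa [ZMod.val_natCast_of_lt ha, ZMod.val_natCast_of_lt hb] at h1

lemma al_len (j : Fin n) (t : ℕ) (ht : t < C.len j) : C.al j (C.s j + t) := by
  induction t with
  | zero => simpa using C.start_al j
  | succ t ih =>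
    have ih := ih (by omega)
    by_contra hcon
    have h1 : C.s j + ((t + 1 : ℕ) : ZMod (2 * M)) - 1 = C.s j + t := by push_cast; ring
    have h2 := (C.end_iff j (C.s j + ((t + 1 : ℕ) : ZMod (2 * M)))).1 ⟨hcon, by rw [h1]; exact ih⟩
    have h3 := C.s_add_len j
    rw [← h3] at h2
    have h4 := add_left_cancel h2
    have := natCast_inj_of_lt (by have := C.len_lt j; omega) (C.len_lt j) h4
    omega

lemma not_al_gap (j : Fin n) (t : ℕ) (ht : t < C.gap j) : ¬ C.al j (C.e j + t) := by
  induction t with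
  | zero => simpa using C.end_not_al j
  | succ t ih =>
    have ih := ih (by omega)
    intro hcon
    have h1 : C.e j + ((t + 1 : ℕ) : ZMod (2 * M)) - 1 = C.e j + t := by push_cast; ring
    have h2 := (C.start_iff j (C.e j + ((t + 1 : ℕ) : ZMod (2 * M)))).1 ⟨hcon, by rw [h1]; exact ih⟩
    have h3 := C.e_add_gap j
    rw [← h3] at h2
    have h4 := add_left_cancel h2
    have := natCast_inj_of_lt (by have := C.gap_lt j; omega) (C.gap_lt j) h4
    omega

/-- zone of arc `j` at the ray `h` -/
noncomputable def Z (K : ℕ) (j : Fin n) (h : ZMod (2 * M)) : Finset (Bool × Fin n) :=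
  ZS (C.P h) (C.P (h + M)) (K - j) j

/-- at the start of `j` the zone does not change -/
lemma Z_start (K : ℕ) (j : Fin n) : C.Z K j (C.s j) = C.Z K j (C.s j - 1) := by
  unfold Z
  apply ZS_congr
  · intro w hw
    exact C.off_start j w (ne_of_gt hw)
  · intro w hw
    rw [sub_one_add_half, ← C.far_start j]

lemma Z_end (K : ℕ) (j : Fin n) : C.Z K j (C.e j) = C.Z K j (C.e j - 1) := by
  unfold Z
  apply ZS_congr
  · intro w hw
    exact C.off_end j w (ne_of_gt hw)
  · intro w hw
    rw [sub_one_add_half, ← C.far_end j]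

/-- predicates: the event of `x` is a zone event for `j` -/
def zs1 (K : ℕ) (j x : Fin n) : Prop :=
  j < x ∧ ¬ C.al j (C.s x) ∧ ((B1 (C.P (C.s x)) x).filter (fun w => j < w)).card < K - j
def zs2 (K : ℕ) (j x : Fin n) : Prop :=
  j < x ∧ ¬ C.al j (C.s x + M) ∧
    ((B2 (C.P (C.s x)) (C.P (C.s x + M)) x).filter (fun w => j < w)).card < K - j
def ze1 (K : ℕ) (j x : Fin n) : Prop :=
  j < x ∧ ¬ C.al j (C.e x) ∧ ((B1 (C.P (C.e x)) x).filter (fun w => j < w)).card < K - j
def ze2 (K : ℕ) (j x : Fin n) : Prop :=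
  j < x ∧ ¬ C.al j (C.e x + M) ∧
    ((B2 (C.P (C.e x)) (C.P (C.e x + M)) x).filter (fun w => j < w)).card < K - j

/-- number of zone events for `j` -/
noncomputable def ecount (K : ℕ) (j : Fin n) : ℕ :=
  ((univ.filter (fun x => C.zs1 K j x)).card + (univ.filter (fun x => C.zs2 K j x)).card) +
  ((univ.filter (fun x => C.ze1 K j x)).card + (univ.filter (fun x => C.ze2 K j x)).card)

/-- a lost strand comes from a zone event -/
lemma lost_le (K : ℕ) (j : Fin n) (h : ZMod (2 * M)) (hj : ¬ C.al j h) :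
    (C.Z K j (h - 1) \ C.Z K j h).card ≤
      ((univ.filter (fun x => C.zs1 K j x ∧ C.s x = h)).card +
        (univ.filter (fun x => C.zs2 K j x ∧ C.s x + M = h)).card) +
      ((univ.filter (fun x => C.ze1 K j x ∧ C.e x = h)).card +
        (univ.filter (fun x => C.ze2 K j x ∧ C.e x + M = h)).card) := by
  by_cases h1 : ∃ x, C.s x = h
  · obtain ⟨x, rfl⟩ := h1
    have hz := zone_near_start (m := K - j) (j := j) (Q := C.P (C.s x + M)) (C.start_not_al x)
      (C.start_al x) (C.off_start x)
    have e1 : C.P (C.s x - 1 + M) = C.P (C.s x + M) := by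
      rw [sub_one_add_half]; exact (C.far_start x).symm
    have e2 : C.Z K j (C.s x - 1) \ C.Z K j (C.s x) =
      ZS (C.P (C.s x - 1)) (C.P (C.s x + M)) (K - j) j \
        ZS (C.P (C.s x)) (C.P (C.s x + M)) (K - j) j := by
      unfold Z; rw [e1]
    rw [e2]
    by_cases hzs : C.zs1 K j x
    · have : 0 < (univ.filter (fun y => C.zs1 K j y ∧ C.s y = C.s x)).card :=
        Finset.card_pos.2 ⟨x, by simp [hzs]⟩
      have := hz.1
      omega
    · have hsub := hz.2 (fun hc => hzs ⟨hc.1, hj, hc.2⟩)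
      rw [Finset.sdiff_eq_empty_iff_subset.2 hsub]; simp
  · by_cases h2 : ∃ x, C.e x = h
    · obtain ⟨x, rfl⟩ := h2
      have hz := zone_near_end (m := K - j) (j := j) (Q := C.P (C.e x + M)) (C.end_al x)
        (C.end_not_al x) (C.off_end x)
      have e1 : C.P (C.e x - 1 + M) = C.P (C.e x + M) := by
        rw [sub_one_add_half]; exact (C.far_end x).symm
      have e2 : C.Z K j (C.e x - 1) \ C.Z K j (C.e x) =
        ZS (C.P (C.e x - 1)) (C.P (C.e x + M)) (K - j) j \
          ZS (C.P (C.e x)) (C.P (C.e x + M)) (K - j) j := by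
        unfold Z; rw [e1]
      rw [e2]
      by_cases hzs : C.ze1 K j x
      · have : 0 < (univ.filter (fun y => C.ze1 K j y ∧ C.e y = C.e x)).card :=
          Finset.card_pos.2 ⟨x, by simp [hzs]⟩
        have := hz.1
        omega
      · have hsub := hz.2 (fun hc => hzs ⟨hc.1, hj, hc.2⟩)
        rw [Finset.sdiff_eq_empty_iff_subset.2 hsub]; simp
    · by_cases h3 : ∃ x, C.s x + M = h
      · obtain ⟨x, rfl⟩ := h3
        have hz := zone_far_start (P := C.P (C.s x + M)) (m := K - j) (j := j)
          (C.start_not_al x) (C.off_start x)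
        have e1 : C.P (C.s x + M - 1) = C.P (C.s x + M) := (C.far_start x).symm
        have e3 : C.P (C.s x + M - 1 + M) = C.P (C.s x - 1) := by
          have : C.s x + (M : ZMod (2 * M)) - 1 + M = (C.s x - 1) + (M + M) := by ring
          rw [this, half_add_half, add_zero]
        have e2 : C.Z K j (C.s x + M - 1) \ C.Z K j (C.s x + M) =
          ZS (C.P (C.s x + M)) (C.P (C.s x - 1)) (K - j) j \
            ZS (C.P (C.s x + M)) (C.P (C.s x)) (K - j) j := by
          unfold Z; rw [e1, e3, P_half]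
        rw [e2]
        by_cases hzs : C.zs2 K j x
        · have : 0 < (univ.filter (fun y => C.zs2 K j y ∧ C.s y + M = C.s x + M)).card :=
            Finset.card_pos.2 ⟨x, by simp [hzs]⟩
          have := hz.1
          omega
        · have hsub := hz.2 (fun hc => hzs ⟨hc.1, hj, hc.2⟩)
          rw [Finset.sdiff_eq_empty_iff_subset.2 hsub]; simp
      · by_cases h4 : ∃ x, C.e x + M = h
        · obtain ⟨x, rfl⟩ := h4
          have hz := zone_far_end (P := C.P (C.e x + M)) (m := K - j) (j := j)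
            (C.end_al x) (C.end_not_al x) (C.off_end x)
          have e1 : C.P (C.e x + M - 1) = C.P (C.e x + M) := (C.far_end x).symm
          have e3 : C.P (C.e x + M - 1 + M) = C.P (C.e x - 1) := by
            have : C.e x + (M : ZMod (2 * M)) - 1 + M = (C.e x - 1) + (M + M) := by ring
            rw [this, half_add_half, add_zero]
          have e2 : C.Z K j (C.e x + M - 1) \ C.Z K j (C.e x + M) =
            ZS (C.P (C.e x + M)) (C.P (C.e x - 1)) (K - j) j \
              ZS (C.P (C.e x + M)) (C.P (C.e x)) (K - j) j := by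
            unfold Z; rw [e1, e3, P_half]
          rw [e2]
          by_cases hzs : C.ze2 K j x
          · have : 0 < (univ.filter (fun y => C.ze2 K j y ∧ C.e y + M = C.e x + M)).card :=
              Finset.card_pos.2 ⟨x, by simp [hzs]⟩
            have := hz.1
            omega
          · have hsub := hz.2 (fun hc => hzs ⟨hc.1, hj, hc.2⟩)
            rw [Finset.sdiff_eq_empty_iff_subset.2 hsub]; simp
        · have e1 : C.P h = C.P (h - 1) :=
            C.P_pred (fun w hw => h1 ⟨w, hw.symm⟩) (fun w hw => h2 ⟨w, hw.symm⟩)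
          have e2 : C.P (h + M) = C.P (h + M - 1) := by
            apply C.P_pred
            · intro w hw
              apply h3
              refine ⟨w, ?_⟩
              rw [← hw, add_assoc, half_add_half, add_zero]
            · intro w hw
              apply h4
              refine ⟨w, ?_⟩
              rw [← hw, add_assoc, half_add_half, add_zero]
          have : C.Z K j (h - 1) = C.Z K j h := by
            unfold Z
            rw [← e1, sub_one_add_half, ← e2]
          rw [this, sdiff_self]; simp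

lemma sum_fiber_le {α : Type*} [DecidableEq α] (A : Finset α) (f : α → ZMod (2 * M))
    (c : ZMod (2 * M)) (g : ℕ) (hg : g ≤ 2 * M) :
    ∑ t ∈ range g, (A.filter (fun x => f x = c + t)).card ≤ A.card := by
  rw [← Finset.card_biUnion]
  · apply Finset.card_le_card
    intro x hx
    rw [Finset.mem_biUnion] at hx
    obtain ⟨t, _, hx⟩ := hx
    exact (Finset.mem_filter.1 hx).1
  · intro t ht t' ht' htt
    rw [Function.onFun, Finset.disjoint_left]
    intro x hx hx'
    rw [Finset.mem_filter] at hx hx'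
    apply htt
    have h1 := hx.2.symm.trans hx'.2
    have h2 := add_left_cancel h1
    have ht1 := Finset.mem_range.1 ht
    have ht2 := Finset.mem_range.1 ht'
    exact natCast_inj_of_lt (by omega) (by omega) h2

/-- persistent strands of the gap of `j` -/
noncomputable def Pst (K : ℕ) (j : Fin n) : Finset (Bool × Fin n) :=
  (C.Z K j (C.e j)).filter (fun p => ∀ t : ℕ, t ≤ C.gap j → p ∈ C.Z K j (C.e j + t))

theorem Pst_card (K : ℕ) (j : Fin n)
    (hline : K - j ≤ (lnAbove (C.P (C.e j)) (C.P (C.e j + M)) j).card) :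
    K - j ≤ (C.Pst K j).card + C.ecount K j := by
  have h0 := persist_card (fun t : ℕ => C.Z K j (C.e j + t)) (C.gap j)
  have hz0 : (C.Z K j (C.e j)).card = K - j := by
    unfold Z
    rw [ZS_card, min_eq_left hline]
  have e0 : (C.e j : ZMod (2 * M)) + ((0 : ℕ) : ZMod (2 * M)) = C.e j := by simp
  simp only [e0] at h0
  rw [hz0] at h0
  have hP : (C.Pst K j).card = ((C.Z K j (C.e j)).filter
      (fun p => ∀ t : ℕ, t ≤ C.gap j → p ∈ C.Z K j (C.e j + t))).card := rfl
  rw [← hP] at h0
  -- bound the sum of losses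
  have hsum : ∑ t ∈ range (C.gap j),
      (C.Z K j (C.e j + (t : ℕ)) \ C.Z K j (C.e j + ((t + 1 : ℕ) : ZMod (2 * M)))).card ≤
      C.ecount K j := by
    have hstep : ∀ t ∈ range (C.gap j),
        (C.Z K j (C.e j + (t : ℕ)) \ C.Z K j (C.e j + ((t + 1 : ℕ) : ZMod (2 * M)))).card ≤
        (((univ.filter (fun x => C.zs1 K j x)).filter (fun x => C.s x = (C.e j + 1) + t)).card +
        ((univ.filter (fun x => C.zs2 K j x)).filter (fun x => C.s x + M = (C.e j + 1) + t)).card) +
        (((univ.filter (fun x => C.ze1 K j x)).filter (fun x => C.e x = (C.e j + 1) + t)).card +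
        ((univ.filter (fun x => C.ze2 K j x)).filter
          (fun x => C.e x + M = (C.e j + 1) + t)).card) := by
      intro t ht
      have ht := Finset.mem_range.1 ht
      have e1 : C.e j + ((t + 1 : ℕ) : ZMod (2 * M)) = (C.e j + 1) + t := by push_cast; ring
      have e2 : C.e j + (t : ZMod (2 * M)) = (C.e j + 1) + t - 1 := by ring
      rcases Nat.lt_or_ge (t + 1) (C.gap j) with h1 | h1
      · have hna := C.not_al_gap j (t + 1) h1
        rw [e1] at hna ⊢
        rw [e2]
        have := C.lost_le K j _ hna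
        simp only [Finset.filter_filter]
        exact this
      · have h2 : t + 1 = C.gap j := by omega
        have h3 : C.e j + ((t + 1 : ℕ) : ZMod (2 * M)) = C.s j := by rw [h2]; exact C.e_add_gap j
        have h4 : C.e j + (t : ZMod (2 * M)) = C.s j - 1 := by rw [← h3]; push_cast; ring
        rw [h3, h4, C.Z_start, sdiff_self]
        simp
    refine (Finset.sum_le_sum hstep).trans ?_
    rw [Finset.sum_add_distrib, Finset.sum_add_distrib, Finset.sum_add_distrib]
    unfold ecount
    have hg : C.gap j ≤ 2 * M := (C.gap_lt j).le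
    have i1 := sum_fiber_le (univ.filter (fun x => C.zs1 K j x)) (fun x => C.s x) (C.e j + 1)
      (C.gap j) hg
    have i2 := sum_fiber_le (univ.filter (fun x => C.zs2 K j x))
      (fun x => C.s x + (M : ZMod (2 * M))) (C.e j + 1) (C.gap j) hg
    have i3 := sum_fiber_le (univ.filter (fun x => C.ze1 K j x)) (fun x => C.e x) (C.e j + 1)
      (C.gap j) hg
    have i4 := sum_fiber_le (univ.filter (fun x => C.ze2 K j x))
      (fun x => C.e x + (M : ZMod (2 * M))) (C.e j + 1) (C.gap j) hg
    exact Nat.add_le_add (Nat.add_le_add i1 i2) (Nat.add_le_add i3 i4)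
  refine h0.trans ?_
  exact Nat.add_le_add_left hsum _

/-- the projection of the persistent strands to arcs -/
noncomputable def Pc (K : ℕ) (j : Fin n) : Finset (Fin n) := (C.Pst K j).image Prod.snd

lemma Pc_card (K : ℕ) (j : Fin n) : (C.Pc K j).card = (C.Pst K j).card := by
  unfold Pc
  apply Finset.card_image_of_injOn
  rintro ⟨σ, c⟩ h ⟨σ', c'⟩ h' hcc
  simp only at hcc
  subst hcc
  unfold Pst at h h'
  rw [Finset.coe_filter] at h h'
  have h1 := mem_ZS.1 h.1
  have h2 := mem_ZS.1 h'.1
  have : σ = σ' := by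
    by_cases hp : C.P (C.e j) c
    · rw [h1.1.2 hp, h2.1.2 hp]
    · cases σ
      · cases σ'
        · rfl
        · exact absurd (h2.1.1 rfl) hp
      · exact absurd (h1.1.1 rfl) hp
  rw [this]

/-- every slot is `s j + t` with `t < 2M` -/
lemma exists_offset (j : Fin n) (h : ZMod (2 * M)) : ∃ t : ℕ, t < 2 * M ∧ h = C.s j + t := by
  refine ⟨(h - C.s j).val, ZMod.val_lt _, ?_⟩
  rw [ZMod.natCast_val, ZMod.cast_id']; simp

/-- a persistent arc has two tokens with `j` -/
theorem two_tokens (K : ℕ) (j c : Fin n) (hc : c ∈ C.Pc K j) :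
    2 ≤ ((C.T K).filter (fun p => p.2 = (j, c))).card := by
  unfold Pc at hc
  rw [Finset.mem_image] at hc
  obtain ⟨⟨σ, c'⟩, hp, hcc⟩ := hc
  simp only at hcc
  subst hcc
  unfold Pst at hp
  rw [Finset.mem_filter] at hp
  obtain ⟨hp0, hp⟩ := hp
  have hL := C.len_pos j
  have hL2 := C.len_lt j
  have hG := C.gap_pos j
  have hLG := C.len_add_gap j
  -- membership at the start of j
  have hs : (σ, c') ∈ C.Z K j (C.s j) := by
    have := hp (C.gap j) le_rfl
    rwa [C.e_add_gap] at this
  have he : (σ, c') ∈ C.Z K j (C.e j - 1) := by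
    rw [← C.Z_end]; exact hp0
  have hjc : j < c' := (mem_ZS.1 hs).2.1
  have hinst : ∀ h, C.al j h → (σ, c') ∈ C.Z K j h → C.inst K j c' h := by
    intro h hal hz
    have := mem_ZS.1 hz
    exact ⟨hal, this.2.2.1, lt_of_lt_of_le this.2.2.2 (Nat.sub_le _ _)⟩
  have hI0 : C.inst K j c' (C.s j) := hinst _ (C.start_al j) hs
  have hI1 : C.inst K j c' (C.e j - 1) := hinst _ (C.end_al j) he
  have htok0 : (C.s j, j, c') ∈ C.T K := by
    rw [mem_T]
    refine ⟨hjc, hI0, Or.inl ?_⟩
    intro h
    exact C.start_not_al j h.1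
  -- near status of c' is constant on the closed gap
  have hstat : ∀ t : ℕ, t ≤ C.gap j → (C.al c' (C.e j + t) ↔ σ = true) := by
    intro t ht
    exact (mem_ZS.1 (hp t ht)).1.symm
  have hstat1 : C.al c' (C.e j - 1) ↔ σ = true := (mem_ZS.1 he).1.symm
  -- the start of c'
  obtain ⟨t1, ht1, hst1⟩ := C.exists_offset j (C.s c')
  have ht1pos : 0 < t1 := by
    rcases Nat.eq_zero_or_pos t1 with h | h
    · exfalso
      rw [h, Nat.cast_zero, add_zero] at hst1
      exact (C.ss c' j (ne_of_gt hjc)).1 hst1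
    · exact h
  have ht1lt : t1 < C.len j := by
    by_contra hcon
    push Not at hcon
    obtain ⟨t2, ht2⟩ := Nat.exists_eq_add_of_le hcon
    have h1 : C.s c' = C.e j + t2 := by
      rw [hst1, ht2, ← C.s_add_len j]; push_cast; ring
    have ht2g : t2 ≤ C.gap j := by omega
    have h2 : C.al c' (C.e j + t2) := by rw [← h1]; exact C.start_al c'
    have h3 : ¬ C.al c' (C.e j + t2 - 1) := by rw [← h1]; exact C.start_not_al c'
    have hσ := (hstat t2 ht2g).1 h2
    rcases Nat.eq_zero_or_pos t2 with h0 | h0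
    · rw [h0, Nat.cast_zero, add_zero] at h3
      exact h3 (hstat1.2 hσ)
    · apply h3
      have h4 : C.e j + (t2 : ZMod (2 * M)) - 1 = C.e j + ((t2 - 1 : ℕ) : ZMod (2 * M)) := by
        rw [Nat.cast_sub h0]; push_cast; ring
      rw [h4]
      exact (hstat (t2 - 1) (by omega)).2 hσ
  -- second token
  have hsecond : ∃ t : ℕ, 0 < t ∧ t < C.len j ∧ (C.s j + (t : ZMod (2 * M)), j, c') ∈ C.T K := by
    by_cases hI : C.inst K j c' (C.s j + t1)
    · refine ⟨t1, ht1pos, ht1lt, ?_⟩
      rw [mem_T]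
      exact ⟨hjc, hI, Or.inr hst1.symm⟩
    · have hlast : C.inst K j c' (C.s j + ((C.len j - 1 : ℕ) : ZMod (2 * M))) := by
        have : C.s j + ((C.len j - 1 : ℕ) : ZMod (2 * M)) = C.e j - 1 := by
          rw [Nat.cast_sub hL, ← C.s_add_len j]; push_cast; ring
        rw [this]; exact hI1
      obtain ⟨t, h1, h2, h3, h4⟩ := ivt_nat (fun t => C.inst K j c' (C.s j + (t : ZMod (2 * M))))
        t1 (C.len j - 1) (by omega) hI hlast
      refine ⟨t, by omega, by omega, ?_⟩
      rw [mem_T]
      refine ⟨hjc, h3, Or.inl ?_⟩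
      have : C.s j + (t : ZMod (2 * M)) - 1 = C.s j + ((t - 1 : ℕ) : ZMod (2 * M)) := by
        rw [Nat.cast_sub (by omega)]; push_cast; ring
      rw [this]; exact h4
  obtain ⟨t, ht0, htl, htok⟩ := hsecond
  have hne : ((C.s j, j, c') : ZMod (2 * M) × Fin n × Fin n) ≠ (C.s j + (t : ZMod (2 * M)), j, c') := by
    intro h
    have h1 := (Prod.ext_iff.1 h).1
    simp only at h1
    have h2 : ((0 : ℕ) : ZMod (2 * M)) = (t : ZMod (2 * M)) := by
      have : C.s j + 0 = C.s j + (t : ZMod (2 * M)) := by rw [add_zero]; exact h1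
      simpa using add_left_cancel this
    have := natCast_inj_of_lt (M := M) (by omega) (by omega) h2
    omega
  refine (Finset.card_pair hne).symm.le.trans ?_
  apply Finset.card_le_card
  intro p hp
  rw [Finset.mem_insert, Finset.mem_singleton] at hp
  rw [Finset.mem_filter]
  rcases hp with rfl | rfl
  · exact ⟨htok0, rfl⟩
  · exact ⟨htok, rfl⟩

/-- every visible pair has a token -/
theorem one_token (K : ℕ) (u v : Fin n) (huv : u < v) (hv : ∃ h, C.inst K u v h) :
    1 ≤ ((C.T K).filter (fun p => p.2 = (u, v))).card := by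
  obtain ⟨h, hI⟩ := hv
  obtain ⟨t, ht, rfl⟩ := C.exists_offset u h
  have h0 : ¬ C.inst K u v (C.s u - 1) := fun h => C.start_not_al u h.1
  have : ∃ t' : ℕ, (C.s u + (t' : ZMod (2 * M)), u, v) ∈ C.T K := by
    by_cases hI0 : C.inst K u v (C.s u)
    · refine ⟨0, ?_⟩
      rw [mem_T, Nat.cast_zero, add_zero]
      exact ⟨huv, hI0, Or.inl h0⟩
    · obtain ⟨t', h1, h2, h3, h4⟩ := ivt_nat (fun t => C.inst K u v (C.s u + (t : ZMod (2 * M))))
        0 t (by omega) (by simpa using hI0) hI
      refine ⟨t', ?_⟩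
      rw [mem_T]
      refine ⟨huv, h3, Or.inl ?_⟩
      have : C.s u + (t' : ZMod (2 * M)) - 1 = C.s u + ((t' - 1 : ℕ) : ZMod (2 * M)) := by
        rw [Nat.cast_sub (by omega)]; push_cast; ring
      rw [this]; exact h4
  obtain ⟨t', ht'⟩ := this
  exact Finset.card_pos.2 ⟨_, Finset.mem_filter.2 ⟨ht', rfl⟩⟩

end Cfg

end Pool.Agent.Lib.MP_f47cd5_co
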