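import Pool.Agent.Lib.MP_f47cd5_co.Count

/-!
# The case of a line meeting few arcs, and the final discrete bound
-/

namespace Pool.Agent.Lib.MP_f47cd5_co

open Finset Classical

lemma barSum (K m : ℕ) (h : 2 * K ≤ m) :
    2 * (∑ b ∈ range m, (min (2 * K) b + min K (b - K))) + 7 * K * K + 3 * K = 6 * K * m := by
  have base2 : ∀ c : ℕ, c ≤ K → 2 * ∑ b ∈ range (K + c), min K (b - K) = c * (c - 1) := by
    intro c
    induction c with
    | zero =>
      intro _
      rw [add_zero]
      have : ∑ b ∈ range K, min K (b - K) = 0 := by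
        apply Finset.sum_eq_zero
        intro b hb
        have := Finset.mem_range.1 hb
        omega
      rw [this]
    | succ c ih =>
      intro hc
      have ih := ih (by omega)
      rw [← add_assoc, Finset.sum_range_succ, mul_add, ih]
      have : min K (K + c - K) = c := by omega
      rw [this]
      rcases c with _ | c
      · simp
      · simp only [Nat.add_sub_cancel]; ring
  have base1 : 2 * ∑ b ∈ range (2 * K), min (2 * K) b = 2 * K * (2 * K - 1) := by
    have : ∑ b ∈ range (2 * K), min (2 * K) b = ∑ b ∈ range (2 * K), b := by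
      apply Finset.sum_congr rfl
      intro b hb
      have := Finset.mem_range.1 hb
      omega
    rw [this, mul_comm, Finset.sum_range_id_mul_two]
  induction m, h using Nat.le_induction with
  | base =>
    rw [Finset.sum_add_distrib, mul_add, base1]
    have h2 := base2 K le_rfl
    have : K + K = 2 * K := by ring
    rw [this] at h2
    rw [h2]
    rcases K with _ | K
    · simp
    · have e1 : 2 * (K + 1) - 1 = 2 * K + 1 := by omega
      have e2 : K + 1 - 1 = K := by omega
      rw [e1, e2]; ring
  | succ m hm ih =>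
    rw [Finset.sum_range_succ, mul_add]
    have e1 : min (2 * K) m = 2 * K := by omega
    have e2 : min K (m - K) = K := by omega
    rw [e1, e2]
    have : 6 * K * (m + 1) = 6 * K * m + 6 * K := by ring
    rw [this, ← ih]; ring

namespace Cfg

variable {n M : ℕ} (C : Cfg n M) [NeZero M]

/-- line time relative to `h0` -/
def tau (h0 h : ZMod (2 * M)) : ℕ := (h - h0).val % M

lemma tau_lt (h0 h : ZMod (2 * M)) : tau h0 h < M :=
  Nat.mod_lt _ (Nat.pos_of_ne_zero (NeZero.ne M))

/-- decomposition of a slot: base `b` is `h0` or `h0 + M` -/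
lemma tau_spec (h0 h : ZMod (2 * M)) :
    h = h0 + (tau h0 h : ZMod (2 * M)) ∨ h = h0 + M + (tau h0 h : ZMod (2 * M)) := by
  have hv : ((h - h0).val : ZMod (2 * M)) = h - h0 := by
    rw [ZMod.natCast_val, ZMod.cast_id']; simp
  have hlt := ZMod.val_lt (h - h0)
  have hM := Nat.pos_of_ne_zero (NeZero.ne M)
  unfold tau
  rcases Nat.lt_or_ge (h - h0).val M with h1 | h1
  · left
    rw [Nat.mod_eq_of_lt h1, hv]; ring
  · right
    have h2 : (h - h0).val % M = (h - h0).val - M := by
      rw [Nat.mod_eq_sub_mod h1, Nat.mod_eq_of_lt (by omega)]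
    rw [h2, Nat.cast_sub h1, hv]; ring

lemma tau_eq (h0 h h' : ZMod (2 * M)) (he : tau h0 h = tau h0 h') : h = h' ∨ h = h' + M := by
  rcases tau_spec h0 h with h1 | h1 <;> rcases tau_spec h0 h' with h2 | h2
  · left; rw [h1, h2, he]
  · right
    rw [h1, h2, he]
    have : h0 + (M : ZMod (2 * M)) + (tau h0 h' : ZMod (2 * M)) + M =
      h0 + tau h0 h' + (M + M) := by ring
    rw [this, half_add_half, add_zero]
  · right
    rw [h1, h2, he]; ring
  · left; rw [h1, h2, he]

lemma tau_of (h0 : ZMod (2 * M)) (t : ℕ) (ht : t < M) : tau h0 (h0 + t) = t := by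
  unfold tau
  have : h0 + (t : ZMod (2 * M)) - h0 = (t : ZMod (2 * M)) := by ring
  rw [this, ZMod.val_natCast_of_lt (by omega), Nat.mod_eq_of_lt ht]

lemma tau_of' (h0 : ZMod (2 * M)) (t : ℕ) (ht : t < M) : tau h0 (h0 + M + t) = t := by
  unfold tau
  have : h0 + (M : ZMod (2 * M)) + (t : ZMod (2 * M)) - h0 = ((M + t : ℕ) : ZMod (2 * M)) := by
    push_cast; ring
  rw [this, ZMod.val_natCast_of_lt (by omega), Nat.add_mod_left, Nat.mod_eq_of_lt ht]

/-- start after a dead slot -/
lemma start_between (w : Fin n) (b : ZMod (2 * M)) (t : ℕ) (hb : ¬ C.al w b)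
    (ht : C.al w (b + t)) : ∃ t' : ℕ, 0 < t' ∧ t' ≤ t ∧ C.s w = b + t' := by
  obtain ⟨t', h1, h2, h3, h4⟩ := ivt_nat (fun t => C.al w (b + (t : ZMod (2 * M)))) 0 t
    (by omega) (by simpa using hb) ht
  refine ⟨t', h1, h2, ?_⟩
  symm
  apply (C.start_iff w _).1
  refine ⟨h3, ?_⟩
  have : b + (t' : ZMod (2 * M)) - 1 = b + ((t' - 1 : ℕ) : ZMod (2 * M)) := by
    rw [Nat.cast_sub h1]; push_cast; ring
  rw [this]; exact h4

/-- end before a dead slot -/
lemma end_between (w : Fin n) (b : ZMod (2 * M)) (t T : ℕ) (htT : t ≤ T)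
    (ht : C.al w (b + t)) (hT : ¬ C.al w (b + T)) :
    ∃ t' : ℕ, t < t' ∧ t' ≤ T ∧ C.e w = b + t' := by
  obtain ⟨t', h1, h2, h3, h4⟩ := ivt_nat (fun t => ¬ C.al w (b + (t : ZMod (2 * M)))) t T
    htT (by simpa using ht) hT
  refine ⟨t', h1, h2, ?_⟩
  symm
  apply (C.end_iff w _).1
  refine ⟨h3, ?_⟩
  have : b + (t' : ZMod (2 * M)) - 1 = b + ((t' - 1 : ℕ) : ZMod (2 * M)) := by
    rw [Nat.cast_sub (by omega)]; push_cast; ring
  rw [this]
  exact not_not.1 h4

section bars

variable (h0 : ZMod (2 * M)) (hd : ∀ w, ¬ C.al w h0 ∧ ¬ C.al w (h0 + M))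

include hd

lemma bar_time {w : Fin n} {h : ZMod (2 * M)} (hw : C.al w h) :
    tau h0 (C.s w) ≤ tau h0 h ∧ tau h0 h ≤ tau h0 (C.e w - 1) := by
  have hM := Nat.pos_of_ne_zero (NeZero.ne M)
  have hlt := tau_lt h0 h
  rcases tau_spec h0 h with h1 | h1
  · constructor
    · obtain ⟨t', a, b, c⟩ := C.start_between w h0 (tau h0 h) (hd w).1 (by rw [← h1]; exact hw)
      rw [c, tau_of h0 t' (by omega)]; exact b
    · obtain ⟨t', a, b, c⟩ := C.end_between w h0 (tau h0 h) M hlt.le (by rw [← h1]; exact hw)
        (hd w).2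
      have : C.e w - 1 = h0 + ((t' - 1 : ℕ) : ZMod (2 * M)) := by
        rw [c, Nat.cast_sub (by omega)]; push_cast; ring
      rw [this, tau_of h0 (t' - 1) (by omega)]; omega
  · constructor
    · obtain ⟨t', a, b, c⟩ := C.start_between w (h0 + M) (tau h0 h) (hd w).2
        (by rw [← h1]; exact hw)
      rw [c, tau_of' h0 t' (by omega)]; exact b
    · obtain ⟨t', a, b, c⟩ := C.end_between w (h0 + M) (tau h0 h) M hlt.le
        (by rw [← h1]; exact hw) (by rw [add_assoc, half_add_half, add_zero]; exact (hd w).1)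
      have : C.e w - 1 = h0 + M + ((t' - 1 : ℕ) : ZMod (2 * M)) := by
        rw [c, Nat.cast_sub (by omega)]; push_cast; ring
      rw [this, tau_of' h0 (t' - 1) (by omega)]; omega

lemma bar_not_both (w : Fin n) (h : ZMod (2 * M)) : ¬ (C.al w h ∧ C.al w (h + M)) := by
  rintro ⟨h1, h2⟩
  have hM := Nat.pos_of_ne_zero (NeZero.ne M)
  have hlt := tau_lt h0 h
  have key : ∀ t : ℕ, t < M → C.al w (h0 + t) → C.al w (h0 + M + t) → False := by
    intro t ht a b
    obtain ⟨t1, a1, a2, a3⟩ := C.start_between w h0 t (hd w).1 a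
    obtain ⟨t2, b1, b2, b3⟩ := C.start_between w (h0 + M) t (hd w).2 b
    rw [a3] at b3
    have e : ((t1 : ℕ) : ZMod (2 * M)) = ((M + t2 : ℕ) : ZMod (2 * M)) := by
      have : h0 + (t1 : ZMod (2 * M)) = h0 + ((M + t2 : ℕ) : ZMod (2 * M)) := by
        rw [b3]; push_cast; ring
      exact add_left_cancel this
    have := natCast_inj_of_lt (M := M) (by omega) (by omega) e
    omega
  rcases tau_spec h0 h with e | e
  · apply key (tau h0 h) hlt
    · rw [← e]; exact h1
    · have : h0 + (M : ZMod (2 * M)) + (tau h0 h : ZMod (2 * M)) = h + M := by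
        conv_rhs => rw [e]
        ring
      rw [this]; exact h2
  · apply key (tau h0 h) hlt
    · have : h0 + (tau h0 h : ZMod (2 * M)) = h + M := by
        conv_rhs => rw [e]
        have : h0 + (M : ZMod (2 * M)) + (tau h0 h : ZMod (2 * M)) + M =
          h0 + (tau h0 h : ZMod (2 * M)) + (M + M) := by ring
        rw [this, half_add_half, add_zero]
      rw [this]; exact h2
    · rw [← e]; exact h1

theorem bars_bound (K : ℕ) (hvis : ∀ u v, u < v → ∃ h, C.inst K u v h) :
    n * (n - 1) ≤ 2 * (∑ b ∈ range n, (min (2 * K) b + min K (b - K))) := by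
  have hM := Nat.pos_of_ne_zero (NeZero.ne M)
  have hT := C.card_T_le K
  -- start events
  set f : Fin n → ℕ := fun w => tau h0 (C.s w) with hf
  set g : Fin n → ℕ := fun w => M - tau h0 (C.e w - 1) with hg
  have hfinj : Set.InjOn f (univ : Finset (Fin n)) := by
    intro u _ v _ huv
    by_contra hne
    rcases tau_eq h0 _ _ huv with h | h
    · exact (C.ss u v hne).1 h
    · exact (C.ss u v hne).2 h
  have hginj : Set.InjOn g (univ : Finset (Fin n)) := by
    intro u _ v _ huv
    by_contra hne
    have h1 := tau_lt h0 (C.e u - 1)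
    have h2 := tau_lt h0 (C.e v - 1)
    have h3 : tau h0 (C.e u - 1) = tau h0 (C.e v - 1) := by
      simp only [hg] at huv; omega
    rcases tau_eq h0 _ _ h3 with h | h
    · exact (C.ee u v hne).1 (by
        have := congrArg (fun z => z + 1) h
        simpa using this)
    · apply (C.ee u v hne).2
      have := congrArg (fun z => z + 1) h
      simp only [sub_add_cancel] at this
      rw [this]; ring
  have hstart : ∀ x : Fin n, (B1 (C.P (C.s x)) x).card + (B2 (C.P (C.s x)) (C.P (C.s x + M)) x).card
      ≤ idx (univ : Finset (Fin n)) f x := by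
    intro x
    rw [← Finset.card_union_of_disjoint]
    · unfold idx
      apply Finset.card_le_card
      intro w hw
      rw [Finset.mem_union, mem_B1, mem_B2] at hw
      rw [Finset.mem_filter]
      refine ⟨Finset.mem_univ _, ?_⟩
      have hwx : w ≠ x := by
        rcases hw with h | h
        · exact ne_of_lt h.1
        · exact h.1
      have hle : f w ≤ f x := by
        have htM : tau h0 (C.s x + M) = tau h0 (C.s x) := by
          rcases tau_spec h0 (C.s x) with e | e
          · have : C.s x + (M : ZMod (2 * M)) = h0 + M + (tau h0 (C.s x) : ZMod (2 * M)) := by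
              conv_lhs => rw [e]
              ring
            rw [this, tau_of' h0 _ (tau_lt _ _)]
          · have : C.s x + (M : ZMod (2 * M)) = h0 + (tau h0 (C.s x) : ZMod (2 * M)) := by
              conv_lhs => rw [e]
              have : h0 + (M : ZMod (2 * M)) + (tau h0 (C.s x) : ZMod (2 * M)) + M =
                h0 + (tau h0 (C.s x) : ZMod (2 * M)) + (M + M) := by ring
              rw [this, half_add_half, add_zero]
            rw [this, tau_of h0 _ (tau_lt _ _)]
        rcases hw with h | h
        · exact (C.bar_time h0 hd (h := C.s x) h.2).1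
        · rcases h.2 with h' | h'
          · exact (C.bar_time h0 hd (h := C.s x) h'.2).1
          · have := (C.bar_time h0 hd (h := C.s x + M) h').1
            rw [htM] at this
            exact this
      exact lt_of_le_of_ne hle (fun h => hwx (hfinj (Finset.mem_coe.2 (Finset.mem_univ _)) (Finset.mem_coe.2 (Finset.mem_univ _)) h))
    · rw [Finset.disjoint_left]
      intro w hw hw'
      rw [mem_B1] at hw
      rw [mem_B2] at hw'
      rcases hw'.2 with h | h
      · exact lt_asymm hw.1 h.1
      · exact C.bar_not_both h0 hd w (C.s x) ⟨hw.2, h⟩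
  have hend : ∀ x : Fin n, (B1 (C.P (C.e x)) x).card + (B2 (C.P (C.e x)) (C.P (C.e x + M)) x).card
      ≤ idx (univ : Finset (Fin n)) g x := by
    intro x
    rw [← Finset.card_union_of_disjoint]
    · unfold idx
      apply Finset.card_le_card
      intro w hw
      rw [Finset.mem_union, mem_B1, mem_B2] at hw
      rw [Finset.mem_filter]
      refine ⟨Finset.mem_univ _, ?_⟩
      have hal : C.al w (C.e x) ∨ C.al w (C.e x + M) := by
        rcases hw with h | h
        · exact Or.inl h.2
        · rcases h.2 with h' | h'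
          · exact Or.inl h'.2
          · exact Or.inr h'
      -- e x = base + (τ(e x - 1) + 1)
      have hlt := tau_lt h0 (C.e x - 1)
      have hlt2 := tau_lt h0 (C.e w - 1)
      have hkey : tau h0 (C.e x - 1) + 1 ≤ tau h0 (C.e w - 1) := by
        have hbase : ∃ h', (C.al w h') ∧ (h' = h0 + ((tau h0 (C.e x - 1) + 1 : ℕ) : ZMod (2 * M)) ∨
            h' = h0 + M + ((tau h0 (C.e x - 1) + 1 : ℕ) : ZMod (2 * M))) := by
          rcases tau_spec h0 (C.e x - 1) with e | e
          · have e1 : C.e x = h0 + ((tau h0 (C.e x - 1) + 1 : ℕ) : ZMod (2 * M)) := by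
              have : C.e x = (C.e x - 1) + 1 := by ring
              rw [this]
              conv_lhs => rw [e]
              push_cast
              have : C.e x - 1 + 1 - 1 = C.e x - 1 := by ring
              rw [this]; ring
            rcases hal with h | h
            · exact ⟨C.e x, h, Or.inl e1⟩
            · refine ⟨C.e x + M, h, Or.inr ?_⟩
              conv_lhs => rw [e1]
              ring
          · have e1 : C.e x = h0 + M + ((tau h0 (C.e x - 1) + 1 : ℕ) : ZMod (2 * M)) := by
              have : C.e x = (C.e x - 1) + 1 := by ring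
              rw [this]
              conv_lhs => rw [e]
              push_cast
              have : C.e x - 1 + 1 - 1 = C.e x - 1 := by ring
              rw [this]; ring
            rcases hal with h | h
            · exact ⟨C.e x, h, Or.inr e1⟩
            · refine ⟨C.e x + M, h, Or.inl ?_⟩
              conv_lhs => rw [e1]
              have : h0 + (M : ZMod (2 * M)) + ((tau h0 (C.e x - 1) + 1 : ℕ) : ZMod (2 * M)) + M =
                h0 + ((tau h0 (C.e x - 1) + 1 : ℕ) : ZMod (2 * M)) + (M + M) := by ring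
              rw [this, half_add_half, add_zero]
        obtain ⟨h', hal', hh'⟩ := hbase
        rcases Nat.lt_or_ge (tau h0 (C.e x - 1) + 1) M with h1 | h1
        · have htau : tau h0 h' = tau h0 (C.e x - 1) + 1 := by
            rcases hh' with rfl | rfl
            · exact tau_of h0 _ h1
            · exact tau_of' h0 _ h1
          rw [← htau]
          exact (C.bar_time h0 hd hal').2
        · exfalso
          have h2 : tau h0 (C.e x - 1) + 1 = M := by omega
          rw [h2] at hh'
          rcases hh' with rfl | rfl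
          · exact (hd w).2 hal'
          · rw [add_assoc, half_add_half, add_zero] at hal'
            exact (hd w).1 hal'
      simp only [hg]
      omega
    · rw [Finset.disjoint_left]
      intro w hw hw'
      rw [mem_B1] at hw
      rw [mem_B2] at hw'
      rcases hw'.2 with h | h
      · exact lt_asymm hw.1 h.1
      · exact C.bar_not_both h0 hd w (C.e x) ⟨hw.2, h⟩
  have hsum : ∑ x : Fin n,
      ((min K (B1 (C.P (C.s x)) x).card + min K (B2 (C.P (C.s x)) (C.P (C.s x + M)) x).card) +
      endBudget K (B1 (C.P (C.e x)) x).card (B2 (C.P (C.e x)) (C.P (C.e x + M)) x).card) ≤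
      ∑ b ∈ range n, (min (2 * K) b + min K (b - K)) := by
    have e1 := sum_idx (univ : Finset (Fin n)) f hfinj (fun b => min (2 * K) b)
    have e2 := sum_idx (univ : Finset (Fin n)) g hginj (fun b => min K (b - K))
    rw [Finset.card_univ, Fintype.card_fin] at e1 e2
    rw [Finset.sum_add_distrib (s := range n), ← e1, ← e2, ← Finset.sum_add_distrib]
    apply Finset.sum_le_sum
    intro x _
    have a := hstart x
    have b := hend x
    have c := endBudget_le K (B1 (C.P (C.e x)) x).card
      (B2 (C.P (C.e x)) (C.P (C.e x + M)) x).card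
    omega
  -- lower bound for tokens
  have hTlow : (univ.filter (fun p : Fin n × Fin n => p.1 < p.2)).card ≤ (C.T K).card := by
    have hfib : (C.T K).card = ∑ p ∈ (univ.filter (fun p : Fin n × Fin n => p.1 < p.2)),
        ((C.T K).filter (fun q => q.2 = p)).card := by
      apply Finset.card_eq_sum_card_fiberwise
      rintro ⟨h, u, v⟩ hq
      have hq' : (h, u, v) ∈ C.T K := hq
      rw [mem_T] at hq'
      simp only [Finset.coe_filter, Finset.mem_univ, true_and]
      exact hq'.1
    rw [hfib, Finset.card_eq_sum_ones]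
    apply Finset.sum_le_sum
    rintro ⟨u, v⟩ hp
    rw [Finset.mem_filter] at hp
    exact C.one_token K u v hp.2 (hvis u v hp.2)
  have h1 := two_mul_card_pairs n
  omega

end bars

/-- restriction to a subset of the arcs -/
def restrict {m : ℕ} (ι : Fin m ↪o Fin n) : Cfg m M where
  al := fun i h => C.al (ι i) h
  s := fun i => C.s (ι i)
  e := fun i => C.e (ι i)
  start_iff := fun i h => C.start_iff (ι i) h
  end_iff := fun i h => C.end_iff (ι i) h
  ss := fun i j hij => C.ss _ _ (fun h => hij (ι.injective h))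
  ee := fun i j hij => C.ee _ _ (fun h => hij (ι.injective h))
  se := fun i j => C.se _ _

omit [NeZero M] in
lemma restrict_inst {m : ℕ} (ι : Fin m ↪o Fin n) (K : ℕ) (u v : Fin m) (h : ZMod (2 * M))
    (hI : C.inst K (ι u) (ι v) h) : (C.restrict ι).inst K u v h := by
  refine ⟨hI.1, hI.2.1, lt_of_le_of_lt ?_ hI.2.2⟩
  unfold dep
  rw [← Finset.card_map ι.toEmbedding]
  apply Finset.card_le_card
  intro w hw
  rw [Finset.mem_map] at hw
  obtain ⟨w', hw', rfl⟩ := hw
  rw [mem_depS] at hw' ⊢
  obtain ⟨h1, h2, h3⟩ := hw'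
  refine ⟨ι.lt_iff_lt.2 h1, h2, ?_⟩
  have hlt : ∀ a b : Fin m, ((a : ℕ) < b) ↔ ((ι a : ℕ) < ι b) := by
    intro a b
    have : a < b ↔ ι a < ι b := ι.lt_iff_lt.symm
    exact this
  have q1 := (ι w').2
  have q2 := (ι v).2
  have q3 := w'.2
  have q4 := v.2
  have k1 := hlt w' v
  have k2 := hlt v w'
  have p1 : (C.restrict ι).P h w' ↔ C.P h (ι w') := Iff.rfl
  have p2 : (C.restrict ι).P h v ↔ C.P h (ι v) := Iff.rfl
  change key (C.P h) (ι w') < key (C.P h) (ι v)
  unfold key at h3 ⊢
  rw [p1, p2] at h3
  split_ifs at h3 ⊢ <;> omega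

/-- The discrete upper bound. -/
theorem disc_bound (K : ℕ) (hK : 0 < K) (hn : 3 * K ≤ n)
    (hvis : ∀ u v, u < v → ∃ h, C.inst K u v h) :
    n * (n - 1) + 3 * (K * (K + 1)) ≤ 6 * K * n := by
  by_cases hline : ∀ h, K + 1 ≤ (univ.filter (fun w => C.P h w ∨ C.P (h + M) w)).card
  · exact C.main_rich K hline hvis
  · push Not at hline
    obtain ⟨h0, hh⟩ := hline
    set L := (univ.filter (fun w => C.P h0 w ∨ C.P (h0 + M) w)) with hL
    have hLK : L.card ≤ K := by omega
    obtain ⟨S, hLS, -, hSK⟩ := Finset.exists_subsuperset_card_eq (Finset.subset_univ L) hLK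
      (by rw [Finset.card_univ, Fintype.card_fin]; omega)
    have hcard : (Sᶜ).card = n - K := by
      rw [Finset.card_compl, Fintype.card_fin, hSK]
    set ι := (Sᶜ).orderEmbOfFin hcard with hι
    have hdead : ∀ w, ¬ (C.restrict ι).al w h0 ∧ ¬ (C.restrict ι).al w (h0 + M) := by
      intro w
      have h1 : ι w ∈ Sᶜ := Finset.orderEmbOfFin_mem _ _ _
      rw [Finset.mem_compl] at h1
      have h2 : ι w ∉ L := fun h => h1 (hLS h)
      rw [hL, Finset.mem_filter] at h2
      push Not at h2
      exact h2 (Finset.mem_univ _)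
    have hb := (C.restrict ι).bars_bound h0 hdead K (by
      intro u v huv
      obtain ⟨h, hh⟩ := hvis (ι u) (ι v) (ι.lt_iff_lt.2 huv)
      exact ⟨h, C.restrict_inst ι K u v h hh⟩)
    have hs := barSum K (n - K) (by omega)
    obtain ⟨m, rfl⟩ : ∃ m, n = m + K := ⟨n - K, by omega⟩
    rw [Nat.add_sub_cancel] at hb hs
    have hm2 : 2 * K ≤ m := by omega
    obtain ⟨m', rfl⟩ : ∃ m', m = m' + 1 := ⟨m - 1, by omega⟩
    have e1 : m' + 1 + K - 1 = m' + K := by omega
    rw [e1]
    rw [Nat.add_sub_cancel] at hb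
    have hb2 : (m' + 1) * m' + 7 * K * K + 3 * K ≤ 6 * K * (m' + 1) := by
      rw [← hs]; omega
    have hm : 2 * (m' + 1) ≤ 9 * K + 1 := by
      by_contra hcon
      push Not at hcon
      nlinarith [hb2, hcon, hK]
    nlinarith [hb2, hm, hK, Nat.mul_le_mul_left K hm]

end Cfg

end Pool.Agent.Lib.MP_f47cd5_co
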