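import Pool.Agent.Lib.MP_f47cd5_co.Defs

/-!
# Explicit complete arc k-visibility graphs: `K_22` for `k = 3`, `K_27` for `k = 4`
-/

namespace Pool.Agent.Lib.MP_f47cd5_co

/-- An explicit representation of `K_22` for `k = 3`. -/
def D22 : Disc 22 44 where
  s := fun u => ([41, 73, 84, 3, 80, 4, 2, 1, 86, 63, 64, 79, 77, 75, 65, 8, 66, 13, 74, 15, 70, 14] : List ℕ).getD u.1 0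
  l := fun u => ([81, 76, 75, 66, 61, 50, 41, 38, 30, 30, 30, 33, 27, 31, 30, 15, 22, 19, 26, 22, 29, 24] : List ℕ).getD u.1 0
  s_lt := by decide +kernel
  l_pos := by decide +kernel
  l_lt := by decide +kernel

/-- Witnesses for `D22`. -/
def w22 : List (List ℕ) := [
  [0, 0, 0, 3, 0, 53, 2, 1, 0, 63, 64, 79, 77, 75, 69, 56, 71, 57, 55, 61, 54, 58],
  [0, 0, 0, 3, 0, 4, 2, 1, 0, 0, 73, 79, 77, 56, 73, 55, 73, 57, 54, 59, 53, 58],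
  [0, 0, 0, 3, 0, 4, 2, 1, 0, 0, 0, 84, 56, 55, 65, 54, 69, 57, 53, 59, 43, 58],
  [0, 0, 0, 0, 3, 4, 3, 3, 3, 63, 64, 56, 55, 54, 65, 53, 66, 57, 43, 59, 39, 58],
  [0, 0, 0, 0, 0, 4, 2, 1, 0, 0, 0, 0, 80, 51, 44, 52, 43, 28, 39, 32, 38, 37],
  [0, 0, 0, 0, 0, 0, 4, 4, 4, 4, 5, 6, 51, 44, 43, 52, 39, 24, 38, 28, 37, 32],
  [0, 0, 0, 0, 0, 0, 0, 2, 2, 2, 2, 5, 6, 16, 39, 18, 38, 23, 37, 24, 32, 28],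
  [0, 0, 0, 0, 0, 0, 0, 0, 1, 1, 1, 1, 5, 6, 38, 16, 37, 18, 32, 23, 28, 24],
  [0, 0, 0, 0, 0, 0, 0, 0, 0, 0, 0, 0, 0, 5, 6, 8, 24, 16, 7, 18, 26, 23],
  [0, 0, 0, 0, 0, 0, 0, 0, 0, 0, 0, 0, 0, 0, 65, 63, 66, 63, 74, 63, 70, 63],
  [0, 0, 0, 0, 0, 0, 0, 0, 0, 0, 0, 0, 0, 0, 0, 64, 66, 64, 74, 64, 70, 64],
  [0, 0, 0, 0, 0, 0, 0, 0, 0, 0, 0, 0, 0, 0, 0, 8, 23, 13, 0, 16, 7, 18],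
  [0, 0, 0, 0, 0, 0, 0, 0, 0, 0, 0, 0, 0, 0, 0, 8, 77, 13, 0, 15, 0, 14],
  [0, 0, 0, 0, 0, 0, 0, 0, 0, 0, 0, 0, 0, 0, 0, 8, 75, 13, 0, 15, 0, 14],
  [0, 0, 0, 0, 0, 0, 0, 0, 0, 0, 0, 0, 0, 0, 0, 65, 66, 65, 0, 65, 0, 65],
  [0, 0, 0, 0, 0, 0, 0, 0, 0, 0, 0, 0, 0, 0, 0, 0, 22, 13, 8, 15, 8, 14],
  [0, 0, 0, 0, 0, 0, 0, 0, 0, 0, 0, 0, 0, 0, 0, 0, 0, 66, 74, 66, 70, 66],
  [0, 0, 0, 0, 0, 0, 0, 0, 0, 0, 0, 0, 0, 0, 0, 0, 0, 0, 30, 15, 26, 14],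
  [0, 0, 0, 0, 0, 0, 0, 0, 0, 0, 0, 0, 0, 0, 0, 0, 0, 0, 0, 74, 0, 74],
  [0, 0, 0, 0, 0, 0, 0, 0, 0, 0, 0, 0, 0, 0, 0, 0, 0, 0, 0, 0, 26, 15],
  [0, 0, 0, 0, 0, 0, 0, 0, 0, 0, 0, 0, 0, 0, 0, 0, 0, 0, 0, 0, 0, 70],
  [0, 0, 0, 0, 0, 0, 0, 0, 0, 0, 0, 0, 0, 0, 0, 0, 0, 0, 0, 0, 0, 0]]

theorem D22_complete : D22.Complete 3 := by
  have h : ∀ u v : Fin 22, u < v → D22.seesAt 3 u v ((w22.getD u.1 []).getD v.1 0) := by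
    decide +kernel
  exact fun u v huv => ⟨_, h u v huv⟩

/-- An explicit representation of `K_27` for `k = 4`. -/
def D27 : Disc 27 55 where
  s := fun u => ([1, 2, 3, 4, 6, 11, 21, 25, 33, 38, 30, 39, 45, 37, 36, 19, 18, 10, 24, 9, 8, 7, 5, 17, 20, 22, 23] : List ℕ).getD u.1 0
  l := fun u => ([103, 99, 96, 94, 91, 70, 61, 62, 57, 57, 39, 31, 26, 31, 31, 32, 30, 31, 23, 25, 21, 21, 26, 33, 32, 31, 31] : List ℕ).getD u.1 0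
  s_lt := by decide +kernel
  l_pos := by decide +kernel
  l_lt := by decide +kernel

/-- Witnesses for `D27`. -/
def w27 : List (List ℕ) := [
  [0, 2, 3, 4, 6, 11, 81, 82, 87, 90, 1, 1, 1, 1, 1, 103, 102, 10, 101, 9, 8, 7, 5, 99, 98, 97, 95],
  [0, 0, 3, 4, 6, 11, 21, 81, 82, 87, 2, 2, 2, 2, 2, 19, 18, 10, 99, 9, 8, 7, 5, 98, 97, 95, 90],
  [0, 0, 0, 4, 6, 11, 21, 25, 81, 82, 3, 3, 3, 3, 3, 19, 18, 10, 98, 9, 8, 7, 5, 97, 95, 90, 87],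
  [0, 0, 0, 0, 6, 11, 21, 25, 33, 81, 4, 4, 4, 4, 4, 19, 18, 10, 97, 9, 8, 7, 5, 95, 90, 87, 82],
  [0, 0, 0, 0, 0, 11, 21, 25, 33, 38, 30, 6, 6, 6, 6, 19, 18, 10, 95, 9, 8, 7, 6, 90, 87, 82, 81],
  [0, 0, 0, 0, 0, 0, 21, 25, 33, 38, 30, 69, 70, 37, 36, 19, 18, 11, 24, 11, 11, 11, 11, 72, 75, 77, 78],
  [0, 0, 0, 0, 0, 0, 0, 25, 33, 38, 30, 39, 69, 37, 36, 21, 21, 21, 24, 21, 21, 71, 70, 72, 75, 77, 78],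
  [0, 0, 0, 0, 0, 0, 0, 0, 33, 38, 30, 39, 45, 37, 36, 25, 25, 25, 25, 25, 71, 70, 69, 72, 75, 77, 78],
  [0, 0, 0, 0, 0, 0, 0, 0, 0, 38, 33, 39, 45, 37, 36, 33, 33, 33, 33, 71, 70, 69, 68, 72, 75, 77, 78],
  [0, 0, 0, 0, 0, 0, 0, 0, 0, 0, 38, 39, 45, 38, 38, 38, 38, 71, 89, 70, 69, 68, 67, 72, 75, 77, 78],
  [0, 0, 0, 0, 0, 0, 0, 0, 0, 0, 0, 39, 45, 37, 36, 30, 30, 30, 30, 30, 68, 67, 60, 34, 51, 52, 53],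
  [0, 0, 0, 0, 0, 0, 0, 0, 0, 0, 0, 0, 45, 39, 39, 39, 39, 39, 41, 68, 67, 62, 60, 48, 50, 51, 52],
  [0, 0, 0, 0, 0, 0, 0, 0, 0, 0, 0, 0, 0, 45, 45, 45, 45, 68, 45, 67, 63, 62, 60, 47, 48, 50, 51],
  [0, 0, 0, 0, 0, 0, 0, 0, 0, 0, 0, 0, 0, 0, 37, 37, 37, 37, 37, 64, 63, 62, 60, 41, 47, 48, 50],
  [0, 0, 0, 0, 0, 0, 0, 0, 0, 0, 0, 0, 0, 0, 0, 36, 36, 36, 36, 64, 63, 62, 60, 36, 41, 47, 48],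
  [0, 0, 0, 0, 0, 0, 0, 0, 0, 0, 0, 0, 0, 0, 0, 0, 19, 19, 24, 19, 19, 19, 29, 31, 34, 41, 47],
  [0, 0, 0, 0, 0, 0, 0, 0, 0, 0, 0, 0, 0, 0, 0, 0, 0, 18, 24, 18, 18, 18, 18, 29, 31, 34, 41],
  [0, 0, 0, 0, 0, 0, 0, 0, 0, 0, 0, 0, 0, 0, 0, 0, 0, 0, 24, 10, 10, 10, 10, 17, 29, 31, 34],
  [0, 0, 0, 0, 0, 0, 0, 0, 0, 0, 0, 0, 0, 0, 0, 0, 0, 0, 0, 24, 24, 24, 24, 24, 28, 29, 31],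
  [0, 0, 0, 0, 0, 0, 0, 0, 0, 0, 0, 0, 0, 0, 0, 0, 0, 0, 0, 0, 9, 9, 9, 17, 20, 28, 29],
  [0, 0, 0, 0, 0, 0, 0, 0, 0, 0, 0, 0, 0, 0, 0, 0, 0, 0, 0, 0, 0, 8, 8, 17, 20, 22, 28],
  [0, 0, 0, 0, 0, 0, 0, 0, 0, 0, 0, 0, 0, 0, 0, 0, 0, 0, 0, 0, 0, 0, 7, 17, 20, 22, 23],
  [0, 0, 0, 0, 0, 0, 0, 0, 0, 0, 0, 0, 0, 0, 0, 0, 0, 0, 0, 0, 0, 0, 0, 17, 20, 22, 23],
  [0, 0, 0, 0, 0, 0, 0, 0, 0, 0, 0, 0, 0, 0, 0, 0, 0, 0, 0, 0, 0, 0, 0, 0, 20, 22, 23],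
  [0, 0, 0, 0, 0, 0, 0, 0, 0, 0, 0, 0, 0, 0, 0, 0, 0, 0, 0, 0, 0, 0, 0, 0, 0, 22, 23],
  [0, 0, 0, 0, 0, 0, 0, 0, 0, 0, 0, 0, 0, 0, 0, 0, 0, 0, 0, 0, 0, 0, 0, 0, 0, 0, 23],
  [0, 0, 0, 0, 0, 0, 0, 0, 0, 0, 0, 0, 0, 0, 0, 0, 0, 0, 0, 0, 0, 0, 0, 0, 0, 0, 0]]

theorem D27_complete : D27.Complete 4 := by
  have h : ∀ u v : Fin 27, u < v → D27.seesAt 4 u v ((w27.getD u.1 []).getD v.1 0) := by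
    decide +kernel
  exact fun u v huv => ⟨_, h u v huv⟩

end Pool.Agent.Lib.MP_f47cd5_co
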