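import Pool.Agent.Lib.MP_f47cd5_co.Idx

/-!
# States of a line: near ray `P`, far ray `Q`
-/

namespace Pool.Agent.Lib.MP_f47cd5_co

open Finset Classical

variable {n : ℕ}

/-- Order along the line seen from the near end: near arcs by increasing index, then
far arcs by decreasing index. -/
noncomputable def key (P : Fin n → Prop) (w : Fin n) : ℕ := if P w then (w : ℕ) else 2 * n - w

lemma key_near {P : Fin n → Prop} {w : Fin n} (h : P w) : key P w = w := by
  unfold key; rw [if_pos h]

lemma key_far {P : Fin n → Prop} {w : Fin n} (h : ¬ P w) : key P w = 2 * n - w := by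
  unfold key; rw [if_neg h]

lemma key_inj {P : Fin n → Prop} {w v : Fin n} (h : key P w = key P v) : w = v := by
  have h1 := w.2
  have h2 := v.2
  unfold key at h
  ext
  split_ifs at h <;> omega

lemma key_injOn (P : Fin n → Prop) (S : Finset (Fin n)) : Set.InjOn (key P) S :=
  fun _ _ _ _ h => key_inj h

/-- arcs of index `> j` on the line -/
noncomputable def lnAbove (P Q : Fin n → Prop) (j : Fin n) : Finset (Fin n) :=
  univ.filter (fun w => j < w ∧ (P w ∨ Q w))

/-- the set of arcs of index `> j` met before `v` -/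
noncomputable def depS (P Q : Fin n → Prop) (j v : Fin n) : Finset (Fin n) :=
  univ.filter (fun w => j < w ∧ (P w ∨ Q w) ∧ key P w < key P v)

/-- the number of distinct arcs of index `> j` met before `v` -/
noncomputable def dep (P Q : Fin n → Prop) (j v : Fin n) : ℕ := (depS P Q j v).card

lemma mem_depS {P Q : Fin n → Prop} {j v w : Fin n} :
    w ∈ depS P Q j v ↔ j < w ∧ (P w ∨ Q w) ∧ key P w < key P v := by
  unfold depS; simp

lemma dep_eq_idx (P Q : Fin n → Prop) (j v : Fin n) :
    dep P Q j v = idx (lnAbove P Q j) (key P) v := by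
  unfold dep idx lnAbove depS
  rw [Finset.filter_filter]
  congr 1
  ext w; simp [and_assoc]

/-- `u` (on the near ray) sees `v` inwards. -/
def Inst (K : ℕ) (P Q : Fin n → Prop) (u v : Fin n) : Prop :=
  P u ∧ (P v ∨ Q v) ∧ dep P Q u v < K

/-- arcs outside `x` on the near ray -/
noncomputable def B1 (P : Fin n → Prop) (x : Fin n) : Finset (Fin n) :=
  univ.filter (fun w => w < x ∧ P w)

/-- arcs met inwards from `x` on the near ray -/
noncomputable def B2 (P Q : Fin n → Prop) (x : Fin n) : Finset (Fin n) :=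
  univ.filter (fun w => w ≠ x ∧ ((x < w ∧ P w) ∨ Q w))

lemma mem_B1 {P : Fin n → Prop} {x w : Fin n} : w ∈ B1 P x ↔ w < x ∧ P w := by
  unfold B1; simp

lemma mem_B2 {P Q : Fin n → Prop} {x w : Fin n} :
    w ∈ B2 P Q x ↔ w ≠ x ∧ ((x < w ∧ P w) ∨ Q w) := by
  unfold B2; simp

/-- inward key from `x` -/
noncomputable def ikey (P : Fin n → Prop) (x w : Fin n) : ℕ :=
  if x < w ∧ P w then (w : ℕ) else 2 * n - w

lemma ikey_inj {P : Fin n → Prop} {x w v : Fin n} (h : ikey P x w = ikey P x v) : w = v := by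
  have h1 := w.2
  have h2 := v.2
  unfold ikey at h
  ext
  split_ifs at h <;> omega

lemma ikey_of_lt {P : Fin n → Prop} {x w : Fin n} (h : x < w) : ikey P x w = key P w := by
  unfold ikey key
  by_cases hp : P w
  · simp [h, hp]
  · simp [hp]

lemma ikey_of_not_lt {P : Fin n → Prop} {x w : Fin n} (h : ¬ x < w) :
    ikey P x w = 2 * n - w := by
  unfold ikey; simp [h]

/-- Lemma A -/
lemma iidx_above {P Q : Fin n → Prop} {x v : Fin n} (hv : x < v) :
    idx (B2 P Q x) (ikey P x) v = dep P Q x v := by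
  unfold idx dep
  congr 1
  ext w
  rw [Finset.mem_filter, mem_B2, mem_depS, ikey_of_lt hv]
  have h1 := w.2
  have h2 := v.2
  constructor
  · rintro ⟨⟨hne, hw⟩, hk⟩
    have hxw : x < w := by
      by_contra hcon
      rw [ikey_of_not_lt hcon] at hk
      unfold key at hk
      have : (w : ℕ) < x := by
        have h3 : w < x := lt_of_le_of_ne (not_lt.1 hcon) hne
        exact h3
      have h4 : (x : ℕ) < v := hv
      split_ifs at hk <;> omega
    rw [ikey_of_lt hxw] at hk
    refine ⟨hxw, ?_, hk⟩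
    rcases hw with hw | hw
    · exact Or.inl hw.2
    · exact Or.inr hw
  · rintro ⟨hxw, hw, hk⟩
    rw [ikey_of_lt hxw]
    refine ⟨⟨ne_of_gt hxw, ?_⟩, hk⟩
    rcases hw with hw | hw
    · exact Or.inl ⟨hxw, hw⟩
    · exact Or.inr hw

/-- Lemma B -/
lemma iidx_below {P Q : Fin n → Prop} {x u : Fin n} (hu : u < x) (hQx : ¬ Q x) :
    idx (B2 P Q x) (ikey P x) u = dep Q P u x := by
  unfold idx dep
  congr 1
  ext w
  rw [Finset.mem_filter, mem_B2, mem_depS, ikey_of_not_lt (not_lt.2 hu.le), key_far hQx]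
  have h1 := w.2
  have h2 := x.2
  have h3 : (u : ℕ) < x := hu
  constructor
  · rintro ⟨⟨hne, hw⟩, hk⟩
    by_cases hQw : Q w
    · rw [key_near hQw]
      by_cases hxw : x < w ∧ P w
      · refine ⟨hu.trans hxw.1, Or.inl hQw, ?_⟩
        omega
      · have : ikey P x w = 2 * n - w := by unfold ikey; rw [if_neg hxw]
        rw [this] at hk
        refine ⟨?_, Or.inl hQw, ?_⟩
        · change (u : ℕ) < w; omega
        · omega
    · have hxw : x < w ∧ P w := by
        rcases hw with hw | hw
        · exact hw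
        · exact absurd hw hQw
      rw [key_far hQw]
      refine ⟨hu.trans hxw.1, Or.inr hxw.2, ?_⟩
      have : (x : ℕ) < w := hxw.1
      omega
  · rintro ⟨huw, hw, hk⟩
    have huw' : (u : ℕ) < w := huw
    by_cases hQw : Q w
    · have hne : w ≠ x := by rintro rfl; exact hQx hQw
      refine ⟨⟨hne, Or.inr hQw⟩, ?_⟩
      unfold ikey
      split_ifs <;> omega
    · rw [key_far hQw] at hk
      have hPw : P w := hw.resolve_left hQw
      have hxw : x < w := by change (x : ℕ) < w; omega
      refine ⟨⟨ne_of_gt hxw, Or.inl ⟨hxw, hPw⟩⟩, ?_⟩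
      unfold ikey
      rw [if_pos ⟨hxw, hPw⟩]
      omega

/-! ### Tokens of a start event -/

lemma start_out_card (K : ℕ) (P Q : Fin n → Prop) (x : Fin n) (hPx : P x) :
    (univ.filter (fun u => u < x ∧ P u ∧ dep P Q u x < K)).card ≤ min K (B1 P x).card := by
  set f : Fin n → ℕ := fun w => n - w with hf
  have hinj : Set.InjOn f (B1 P x) := by
    intro a _ b _ hab
    have h1 := a.2
    have h2 := b.2
    simp only [hf] at hab
    ext; omega
  rw [← card_idx_lt (B1 P x) f hinj K]
  apply Finset.card_le_card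
  intro u hu
  simp only [Finset.mem_filter, Finset.mem_univ, true_and] at hu
  obtain ⟨hux, hPu, hd⟩ := hu
  rw [Finset.mem_filter, mem_B1]
  refine ⟨⟨hux, hPu⟩, lt_of_le_of_lt ?_ hd⟩
  unfold idx dep
  apply Finset.card_le_card
  intro w hw
  rw [Finset.mem_filter, mem_B1] at hw
  rw [mem_depS, key_near hPx, key_near hw.1.2]
  refine ⟨?_, Or.inl hw.1.2, hw.1.1⟩
  have h1 := w.2
  have h2 := u.2
  have := hw.2
  simp only [hf] at this
  change (u : ℕ) < w
  omega

lemma start_in_card (K : ℕ) (P Q : Fin n → Prop) (x : Fin n) :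
    (univ.filter (fun v => x < v ∧ (P v ∨ Q v) ∧ dep P Q x v < K)).card +
      (univ.filter (fun u => u < x ∧ Q u ∧ ¬ Q x ∧ dep Q P u x < K)).card
      ≤ min K (B2 P Q x).card := by
  have hinj : Set.InjOn (ikey P x) (B2 P Q x) := fun _ _ _ _ h => ikey_inj h
  rw [← card_idx_lt (B2 P Q x) (ikey P x) hinj K, ← Finset.card_union_of_disjoint]
  · apply Finset.card_le_card
    intro y hy
    rw [Finset.mem_union] at hy
    rw [Finset.mem_filter, mem_B2]
    rcases hy with hy | hy
    · simp only [Finset.mem_filter, Finset.mem_univ, true_and] at hy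
      obtain ⟨h1, h2, h3⟩ := hy
      refine ⟨⟨ne_of_gt h1, ?_⟩, ?_⟩
      · rcases h2 with h2 | h2
        · exact Or.inl ⟨h1, h2⟩
        · exact Or.inr h2
      · rw [iidx_above h1]; exact h3
    · simp only [Finset.mem_filter, Finset.mem_univ, true_and] at hy
      obtain ⟨h1, h2, h3, h4⟩ := hy
      refine ⟨⟨ne_of_lt h1, Or.inr h2⟩, ?_⟩
      rw [iidx_below h1 h3]; exact h4
  · rw [Finset.disjoint_left]
    intro y hy hy'
    simp only [Finset.mem_filter, Finset.mem_univ, true_and] at hy hy'
    exact lt_asymm hy.1 hy'.1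

/-- Near start: a new instance not involving `x` as seen arc or seer cannot occur. -/
lemma dep_mono {P Q P' Q' : Fin n → Prop} {j v : Fin n} (hP : ∀ w, P' w → P w)
    (hPQ : ∀ w, (P' w ∨ Q' w) → (P w ∨ Q w)) (hv : P v ↔ P' v) :
    dep P' Q' j v ≤ dep P Q j v := by
  unfold dep
  apply Finset.card_le_card
  intro w hw
  rw [mem_depS] at hw ⊢
  refine ⟨hw.1, hPQ w hw.2.1, ?_⟩
  have hkv : key P v = key P' v := by unfold key; simp [hv]
  rw [hkv]
  refine lt_of_le_of_lt ?_ hw.2.2
  unfold key
  have := w.2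
  by_cases h1 : P' w
  · rw [if_pos h1, if_pos (hP w h1)]
  · rw [if_neg h1]; split_ifs <;> omega

end Pool.Agent.Lib.MP_f47cd5_co
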