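import Pool.Agent.Lib.MP_f47cd5_co.Bridge
import Pool.Agent.Lib.MP_f47cd5_co.Poor

/-!
# From a geometric representation of `K_n` to a cyclic configuration
-/

namespace Pool.Agent.Lib.MP_f47cd5_co

open Real Finset Classical

/-- the direction `θ` is in the open angular interval of the arc -/
def InArc (A : Arc) (θ : ℝ) : Prop := ∃ j : ℤ, A.a < θ + j * (2 * π) ∧ θ + j * (2 * π) < A.b

lemma inArc_add {A : Arc} {θ : ℝ} (m : ℤ) : InArc A (θ + m * (2 * π)) ↔ InArc A θ := by
  constructor
  · rintro ⟨j, h1, h2⟩
    refine ⟨j + m, ?_, ?_⟩ <;> push_cast <;> linarith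
  · rintro ⟨j, h1, h2⟩
    refine ⟨j - m, ?_, ?_⟩ <;> push_cast <;> linarith

section

variable {n : ℕ} (A : Fin n → Arc)

/-- direction of an event in `[0, 2π)`; `(u, false)` is the start, `(u, true)` the end -/
noncomputable def dir (e : Fin n × Bool) : ℝ :=
  if e.2 = true then (if (A e.1).b < 2 * π then (A e.1).b else (A e.1).b - 2 * π) else (A e.1).a

lemma dir_nonneg (e : Fin n × Bool) : 0 ≤ dir A e := by
  unfold dir
  have h1 := (A e.1).a_nonneg
  have h2 := (A e.1).a_le_b
  split_ifs with h3 h4
  · linarith
  · push Not at h4; linarith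
  · exact h1

lemma dir_lt (e : Fin n × Bool) : dir A e < 2 * π := by
  unfold dir
  have h1 := (A e.1).a_lt
  have h2 := (A e.1).b_lt
  split_ifs with h3 h4
  · exact h4
  · linarith
  · exact h1

/-- side of an event -/
noncomputable def sd (e : Fin n × Bool) : ℕ := if dir A e < π then 0 else 1

/-- direction modulo `π` -/
noncomputable def dm (e : Fin n × Bool) : ℝ := dir A e - sd A e * π

lemma dm_nonneg (e : Fin n × Bool) : 0 ≤ dm A e := by
  unfold dm sd
  have := dir_nonneg A e
  split_ifs with h
  · simpa using this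
  · push Not at h; push_cast; linarith

lemma dm_lt (e : Fin n × Bool) : dm A e < π := by
  unfold dm sd
  have := dir_lt A e
  split_ifs with h
  · simpa using h
  · push_cast; linarith

/-- generic directions -/
def Generic (θ : ℝ) : Prop := ∀ (e : Fin n × Bool) (j : ℤ), θ ≠ dir A e + j * π

lemma exists_generic {α β : ℝ} (h : α < β) : ∃ θ, α < θ ∧ θ < β ∧ Generic A θ := by
  have hc : (⋃ (e : Fin n × Bool), Set.range (fun j : ℤ => dir A e + j * π)).Countable :=
    Set.countable_iUnion (fun e => Set.countable_range _)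
  obtain ⟨θ, hθ, h1, h2⟩ := (hc.dense_compl ℝ).exists_between h
  refine ⟨θ, h1, h2, ?_⟩
  intro e j he
  apply hθ
  rw [Set.mem_iUnion]
  exact ⟨e, j, he.symm⟩

lemma Generic.add {θ : ℝ} (h : Generic A θ) (m : ℤ) : Generic A (θ + m * π) := by
  intro e j he
  apply h e (j - m)
  push_cast; linarith

lemma Generic.add_pi {θ : ℝ} (h : Generic A θ) : Generic A (θ + π) := by
  have := h.add A 1
  simpa using this

/-- an ordering of the events compatible with `dm` -/
lemma exists_pos : ∃ pos : (Fin n × Bool) ≃ Fin (2 * n),
    ∀ e e', pos e ≤ pos e' → dm A e ≤ dm A e' := by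
  have hcard : Fintype.card (Fin n × Bool) = 2 * n := by
    rw [Fintype.card_prod, Fintype.card_fin, Fintype.card_bool, mul_comm]
  set q : Fin (2 * n) ≃ Fin n × Bool := (Fintype.equivFinOfCardEq hcard).symm with hq
  set f : Fin (2 * n) → ℝ := fun i => dm A (q i) with hf
  set τ := Tuple.sort f with hτ
  have hmono : Monotone (f ∘ τ) := Tuple.monotone_sort f
  refine ⟨q.symm.trans τ.symm, ?_⟩
  intro e e' h
  have := hmono h
  simpa [hf] using this

/-- the chosen ordering -/
noncomputable def pos : (Fin n × Bool) ≃ Fin (2 * n) := (exists_pos A).choose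

lemma pos_spec (e e' : Fin n × Bool) (h : pos A e ≤ pos A e') : dm A e ≤ dm A e' :=
  (exists_pos A).choose_spec e e' h

/-- number of events with `dm < x` -/
noncomputable def cnt (x : ℝ) : ℕ := (univ.filter (fun e => dm A e < x)).card

lemma card_pos_lt (i : ℕ) (hi : i ≤ 2 * n) :
    (univ.filter (fun e => (pos A e : ℕ) < i)).card = i := by
  have : (univ.filter (fun e => (pos A e : ℕ) < i)).card =
      (univ.filter (fun j : Fin (2 * n) => (j : ℕ) < i)).card := by
    apply Finset.card_bij (fun e _ => pos A e)
    · intro e he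
      simp only [Finset.mem_filter, Finset.mem_univ, true_and] at he ⊢
      exact he
    · intro e _ e' _ h
      exact (pos A).injective h
    · intro j hj
      refine ⟨(pos A).symm j, ?_, by simp⟩
      simp only [Finset.mem_filter, Finset.mem_univ, true_and] at hj ⊢
      simpa using hj
  rw [this, Fin.card_filter_val_lt, min_eq_right hi]

lemma pos_lt_cnt (e : Fin n × Bool) (x : ℝ) : (pos A e : ℕ) < cnt A x ↔ dm A e < x := by
  constructor
  · intro h
    by_contra hcon
    push Not at hcon
    have hsub : (univ.filter (fun e' => dm A e' < x)) ⊆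
        (univ.filter (fun e' => (pos A e' : ℕ) < (pos A e : ℕ))) := by
      intro e' he'
      simp only [Finset.mem_filter, Finset.mem_univ, true_and] at he' ⊢
      by_contra h2
      push Not at h2
      have := pos_spec A e e' h2
      linarith
    have h2 := Finset.card_le_card hsub
    rw [card_pos_lt A _ (pos A e).2.le] at h2
    unfold cnt at h
    omega
  · intro h
    have hsub : (univ.filter (fun e' => (pos A e' : ℕ) < (pos A e : ℕ) + 1)) ⊆
        (univ.filter (fun e' => dm A e' < x)) := by
      intro e' he'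
      simp only [Finset.mem_filter, Finset.mem_univ, true_and] at he' ⊢
      have h1 : pos A e' ≤ pos A e := by
        change (pos A e' : ℕ) ≤ pos A e
        omega
      have := pos_spec A e' e h1
      linarith
    have h2 := Finset.card_le_card hsub
    rw [card_pos_lt A _ (by have := (pos A e).2; omega)] at h2
    unfold cnt
    omega

lemma cnt_le (x : ℝ) : cnt A x ≤ 2 * n := by
  unfold cnt
  calc _ ≤ (univ : Finset (Fin n × Bool)).card := Finset.card_filter_le _ _
    _ = 2 * n := by
      rw [Finset.card_univ, Fintype.card_prod, Fintype.card_fin, Fintype.card_bool, mul_comm]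

/-- integer position of an event in `[0, 4 n)` -/
noncomputable def pn (e : Fin n × Bool) : ℕ := (pos A e : ℕ) + sd A e * (2 * n)

lemma sd_le (e : Fin n × Bool) : sd A e ≤ 1 := by
  unfold sd; split_ifs <;> omega

lemma pn_lt (e : Fin n × Bool) : pn A e < 2 * (2 * n) := by
  unfold pn
  have h1 := (pos A e).2
  have h2 := sd_le A e
  have : sd A e * (2 * n) ≤ 1 * (2 * n) := Nat.mul_le_mul_right _ h2
  omega

lemma pn_lt_of_dir_lt {e e' : Fin n × Bool} (h : dir A e < dir A e') : pn A e < pn A e' := by
  unfold pn
  have h1 := (pos A e).2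
  have h2 : ¬ (sd A e' < sd A e) := by
    unfold sd
    split_ifs <;> first | omega | (push Not at *; linarith)
  have h3 := sd_le A e
  have h4 := sd_le A e'
  rcases Nat.lt_or_ge (sd A e) (sd A e') with h5 | h5
  · have e1 : sd A e = 0 := by omega
    have e2 : sd A e' = 1 := by omega
    rw [e1, e2]; omega
  · have e1 : sd A e = sd A e' := by omega
    have h6 : dm A e < dm A e' := by unfold dm; rw [e1]; linarith
    have h7 : pos A e < pos A e' := by
      by_contra hcon
      push Not at hcon
      have := pos_spec A e' e hcon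
      linarith
    have : (pos A e : ℕ) < pos A e' := h7
    rw [e1]; omega

lemma pn_ne_mod {e e' : Fin n × Bool} (h : e ≠ e') (c : ℕ) :
    (pn A e : ZMod (2 * (2 * n))) ≠ (pn A e' : ZMod (2 * (2 * n))) + ((c * (2 * n) : ℕ) :
      ZMod (2 * (2 * n))) := by
  intro hcon
  rw [← Nat.cast_add, ZMod.natCast_eq_natCast_iff] at hcon
  have h1 : pn A e ≡ pn A e' + c * (2 * n) [MOD 2 * n] := Nat.ModEq.of_dvd ⟨2, by ring⟩ hcon
  have h2 : (pos A e : ℕ) % (2 * n) = (pos A e' : ℕ) % (2 * n) := by
    have h3 : (pn A e) % (2 * n) = (pn A e' + c * (2 * n)) % (2 * n) := h1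
    unfold pn at h3
    rw [Nat.add_mul_mod_self_right, Nat.add_mul_mod_self_right, Nat.add_mul_mod_self_right] at h3
    exact h3
  rw [Nat.mod_eq_of_lt (pos A e).2, Nat.mod_eq_of_lt (pos A e').2] at h2
  exact h ((pos A).injective (Fin.ext h2))

variable [NeZero n]

lemma val_cases {N : ℕ} [NeZero N] (a b : ℕ) (ha : a < N) (hb : b < N) :
    ((a : ZMod N) - (b : ZMod N)).val = if b ≤ a then a - b else N + a - b := by
  split_ifs with h
  · rw [← Nat.cast_sub h, ZMod.val_natCast_of_lt (by omega)]
  · have : (a : ZMod N) - (b : ZMod N) = ((N + a - b : ℕ) : ZMod N) := by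
      rw [Nat.cast_sub (by omega), Nat.cast_add, ZMod.natCast_self, zero_add]
    rw [this, ZMod.val_natCast_of_lt (by omega)]

/-- The cyclic configuration of a family of arcs. -/
noncomputable def toCfg : Cfg n (2 * n) where
  al := fun u h => (h - (pn A (u, false) : ZMod (2 * (2 * n)))).val <
    ((pn A (u, true) : ZMod (2 * (2 * n))) - (pn A (u, false) : ZMod (2 * (2 * n)))).val
  s := fun u => (pn A (u, false) : ZMod (2 * (2 * n)))
  e := fun u => (pn A (u, true) : ZMod (2 * (2 * n)))
  start_iff := by
    intro u h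
    have hne : (pn A (u, true) : ZMod (2 * (2 * n))) - pn A (u, false) ≠ 0 := by
      intro h0
      have := pn_ne_mod A (e := (u, true)) (e' := (u, false)) (by simp) 0
      apply this
      simpa using sub_eq_zero.1 h0
    set L := (pn A (u, true) : ZMod (2 * (2 * n))) - pn A (u, false) with hL
    set x := h - (pn A (u, false) : ZMod (2 * (2 * n))) with hx
    have hx1 : h - 1 - (pn A (u, false) : ZMod (2 * (2 * n))) = x - 1 := by rw [hx]; ring
    rw [hx1]
    have hLpos : 0 < L.val := by
      rw [Nat.pos_iff_ne_zero, Ne, ZMod.val_eq_zero]; exact hne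
    have hLlt := ZMod.val_lt L
    have hn : 0 < n := Nat.pos_of_ne_zero (NeZero.ne n)
    constructor
    · rintro ⟨h1, h2⟩
      have : x = 0 := by
        by_contra h0
        apply h2
        have hxv : 0 < x.val := by rw [Nat.pos_iff_ne_zero, Ne, ZMod.val_eq_zero]; exact h0
        have h3 : (x - 1).val = x.val - 1 := by
          have := val_cases (N := 2 * (2 * n)) x.val 1 (ZMod.val_lt x) (by omega)
          rw [ZMod.natCast_zmod_val, Nat.cast_one, if_pos (by omega)] at this
          exact this
        omega
      exact sub_eq_zero.1 this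
    · intro h0
      have hx0 : x = 0 := by rw [hx, h0, sub_self]
      rw [hx0]
      have h3 : ((0 : ZMod (2 * (2 * n))) - 1).val = 2 * (2 * n) - 1 := by
        have := val_cases (N := 2 * (2 * n)) 0 1 (by omega) (by omega)
        rw [Nat.cast_zero, Nat.cast_one, if_neg (by omega)] at this
        rw [this, add_zero]
      rw [ZMod.val_zero, h3]
      omega
  end_iff := by
    intro u h
    have hne : (pn A (u, true) : ZMod (2 * (2 * n))) - pn A (u, false) ≠ 0 := by
      intro h0
      have := pn_ne_mod A (e := (u, true)) (e' := (u, false)) (by simp) 0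
      apply this
      simpa using sub_eq_zero.1 h0
    set L := (pn A (u, true) : ZMod (2 * (2 * n))) - pn A (u, false) with hL
    set x := h - (pn A (u, false) : ZMod (2 * (2 * n))) with hx
    have hx1 : h - 1 - (pn A (u, false) : ZMod (2 * (2 * n))) = x - 1 := by rw [hx]; ring
    rw [hx1]
    have hLpos : 0 < L.val := by
      rw [Nat.pos_iff_ne_zero, Ne, ZMod.val_eq_zero]; exact hne
    have hLlt := ZMod.val_lt L
    have hn : 0 < n := Nat.pos_of_ne_zero (NeZero.ne n)
    have h3 : x ≠ 0 → (x - 1).val = x.val - 1 := by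
      intro h0
      have hxv : 0 < x.val := by rw [Nat.pos_iff_ne_zero, Ne, ZMod.val_eq_zero]; exact h0
      have := val_cases (N := 2 * (2 * n)) x.val 1 (ZMod.val_lt x) (by omega)
      rw [ZMod.natCast_zmod_val, Nat.cast_one, if_pos (by omega)] at this
      exact this
    constructor
    · rintro ⟨h1, h2⟩
      have hx0 : x ≠ 0 := by
        rintro h0
        apply h1
        rw [h0, ZMod.val_zero]; exact hLpos
      rw [h3 hx0] at h2
      have h4 : x.val = L.val := by omega
      have h5 : x = L := ZMod.val_injective _ h4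
      rw [hx, hL] at h5
      exact sub_left_injective h5
    · intro h0
      have h5 : x = L := by rw [hx, hL, h0]
      have hx0 : x ≠ 0 := by rw [h5]; exact hne
      rw [h3 hx0, h5]
      omega
  ss := by
    intro u v huv
    constructor
    · have := pn_ne_mod A (e := (u, false)) (e' := (v, false)) (by simp [huv]) 0
      simpa using this
    · have := pn_ne_mod A (e := (u, false)) (e' := (v, false)) (by simp [huv]) 1
      simpa using this
  ee := by
    intro u v huv
    constructor
    · have := pn_ne_mod A (e := (u, true)) (e' := (v, true)) (by simp [huv]) 0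
      simpa using this
    · have := pn_ne_mod A (e := (u, true)) (e' := (v, true)) (by simp [huv]) 1
      simpa using this
  se := by
    intro u v
    constructor
    · have := pn_ne_mod A (e := (u, false)) (e' := (v, true)) (by simp) 0
      simpa using this
    · have := pn_ne_mod A (e := (u, false)) (e' := (v, true)) (by simp) 1
      simpa using this

/-- the slot of a direction `x + q π` with `x ∈ [0, π)` -/
noncomputable def slotOf (x : ℝ) (q : ℤ) : ZMod (2 * (2 * n)) :=
  (cnt A x : ZMod (2 * (2 * n))) - 1 + q * ((2 * n : ℕ) : ZMod (2 * (2 * n)))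

/-- slot of a direction -/
noncomputable def slot (θ : ℝ) : ZMod (2 * (2 * n)) :=
  slotOf A (toIcoMod Real.pi_pos 0 θ) (toIcoDiv Real.pi_pos 0 θ)

omit [NeZero n] in
lemma slot_add_pi (θ : ℝ) : slot A (θ + π) = slot A θ + ((2 * n : ℕ) : ZMod (2 * (2 * n))) := by
  unfold slot slotOf
  rw [toIcoMod_add_right, toIcoDiv_add_right]
  push_cast; ring

omit [NeZero n] in
lemma slot_add_two_pi (θ : ℝ) (m : ℤ) : slot A (θ + m * (2 * π)) = slot A θ := by
  unfold slot slotOf
  have e : θ + m * (2 * π) = θ + (2 * m : ℤ) • π := by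
    rw [zsmul_eq_mul]; push_cast; ring
  rw [e, toIcoMod_add_zsmul, toIcoDiv_add_zsmul]
  have h := half_add_half (2 * n)
  have h2 : ((2 * m : ℤ) : ZMod (2 * (2 * n))) * ((2 * n : ℕ) : ZMod (2 * (2 * n))) = 0 := by
    push_cast
    push_cast at h
    have : (2 : ZMod (2 * (2 * n))) * m * (2 * n) = m * (2 * n + 2 * n) := by ring
    rw [this, h, mul_zero]
  rw [Int.cast_add, add_mul, h2, add_zero]

/-- main comparison lemma for directions in `[0, 2π)` -/
lemma slot_spec {θ : ℝ} (h0 : 0 ≤ θ) (h1 : θ < 2 * π) : ∃ N : ℕ, N ≤ 2 * (2 * n) ∧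
    slot A θ = (N : ZMod (2 * (2 * n))) - 1 ∧ ∀ e, pn A e < N ↔ dir A e < θ := by
  rcases lt_or_ge θ π with h2 | h2
  · refine ⟨cnt A θ, by have := cnt_le A θ; omega, ?_, ?_⟩
    · unfold slot slotOf
      have e1 : toIcoMod Real.pi_pos 0 θ = θ := by
        rw [toIcoMod_eq_self]; exact ⟨h0, by simpa using h2⟩
      have e2 : toIcoDiv Real.pi_pos 0 θ = 0 := by
        apply toIcoDiv_eq_of_sub_zsmul_mem_Ico
        simp only [zero_smul, sub_zero, zero_add]
        exact ⟨h0, h2⟩
      rw [e1, e2]; simp
    · intro e
      by_cases hs : dir A e < π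
      · have hsd : sd A e = 0 := by unfold sd; rw [if_pos hs]
        have hdm : dm A e = dir A e := by unfold dm; rw [hsd]; simp
        unfold pn
        rw [hsd, zero_mul, add_zero, pos_lt_cnt, hdm]
      · have hsd : sd A e = 1 := by unfold sd; rw [if_neg hs]
        push Not at hs
        unfold pn
        rw [hsd]
        constructor
        · intro h
          have := cnt_le A θ
          omega
        · intro h; linarith
  · refine ⟨cnt A (θ - π) + 2 * n, by have := cnt_le A (θ - π); omega, ?_, ?_⟩
    · unfold slot slotOf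
      have e1 : toIcoMod Real.pi_pos 0 θ = θ - π := by
        have : θ = (θ - π) + π := by ring
        conv_lhs => rw [this]
        rw [toIcoMod_add_right, toIcoMod_eq_self]
        exact ⟨by linarith, by simp only [zero_add]; linarith⟩
      have e2 : toIcoDiv Real.pi_pos 0 θ = 1 := by
        apply toIcoDiv_eq_of_sub_zsmul_mem_Ico
        simp only [one_smul, zero_add]
        exact ⟨by linarith, by linarith⟩
      rw [e1, e2]; push_cast; ring
    · intro e
      by_cases hs : dir A e < π
      · have hsd : sd A e = 0 := by unfold sd; rw [if_pos hs]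
        unfold pn
        rw [hsd, zero_mul, add_zero]
        constructor
        · intro _; linarith
        · intro _
          have := (pos A e).2
          omega
      · have hsd : sd A e = 1 := by unfold sd; rw [if_neg hs]
        have hdm : dm A e = dir A e - π := by unfold dm; rw [hsd]; simp
        unfold pn
        rw [hsd, one_mul, Nat.add_lt_add_iff_right, pos_lt_cnt, hdm]
        constructor <;> intro h <;> linarith

lemma al_iff_of_mem (hnd : ∀ u, (A u).a < (A u).b) (u : Fin n) {θ : ℝ} (h0 : 0 ≤ θ)
    (h1 : θ < 2 * π) (hg : Generic A θ) : (toCfg A).al u (slot A θ) ↔ InArc (A u) θ := by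
  obtain ⟨N, hN, hs, hN2⟩ := slot_spec A h0 h1
  have hn : 0 < n := Nat.pos_of_ne_zero (NeZero.ne n)
  have hgs : θ ≠ dir A (u, false) := by simpa using hg (u, false) 0
  have hge : θ ≠ dir A (u, true) := by simpa using hg (u, true) 0
  have ps := pn_lt A (u, false)
  have pe := pn_lt A (u, true)
  have ks := hN2 (u, false)
  have ke := hN2 (u, true)
  -- representative of the slot
  obtain ⟨x, hx, hxs, hxN⟩ : ∃ x : ℕ, x < 2 * (2 * n) ∧ slot A θ = (x : ZMod (2 * (2 * n))) ∧
      (x + 1 = N ∨ (N = 0 ∧ x = 2 * (2 * n) - 1)) := by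
    rcases Nat.eq_zero_or_pos N with h | h
    · refine ⟨2 * (2 * n) - 1, by omega, ?_, Or.inr ⟨h, rfl⟩⟩
      rw [hs, h, Nat.cast_sub (by omega), ZMod.natCast_self]; simp
    · refine ⟨N - 1, by omega, ?_, Or.inl (by omega)⟩
      rw [hs, Nat.cast_sub h]; simp
  change (slot A θ - (pn A (u, false) : ZMod (2 * (2 * n)))).val <
    ((pn A (u, true) : ZMod (2 * (2 * n))) - (pn A (u, false) : ZMod (2 * (2 * n)))).val ↔ _
  rw [hxs, val_cases x _ hx ps, val_cases _ _ pe ps]
  have ha := (A u).a_nonneg
  have ha2 := (A u).a_lt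
  have hb2 := (A u).b_lt
  have hab := hnd u
  have dsu : dir A (u, false) = (A u).a := by unfold dir; simp
  by_cases hb : (A u).b < 2 * π
  · have deu : dir A (u, true) = (A u).b := by unfold dir; simp [hb]
    have hlt : pn A (u, false) < pn A (u, true) := by
      apply pn_lt_of_dir_lt; rw [dsu, deu]; exact hab
    rw [deu] at ke hge
    rw [dsu] at ks hgs
    have hin : InArc (A u) θ ↔ (A u).a < θ ∧ θ < (A u).b := by
      constructor
      · rintro ⟨j, h2, h3⟩
        have hj : j = 0 := by
          have h4 : (j : ℝ) < 1 := by nlinarith [Real.pi_pos]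
          have h5 : (-1 : ℝ) < j := by nlinarith [Real.pi_pos]
          have h6 : j < 1 := by exact_mod_cast h4
          have h7 : -1 < j := by exact_mod_cast h5
          omega
        rw [hj] at h2 h3
        simp only [Int.cast_zero, zero_mul, add_zero] at h2 h3
        exact ⟨h2, h3⟩
      · rintro ⟨h2, h3⟩
        exact ⟨0, by simpa using h2, by simpa using h3⟩
    rw [hin]
    have : ((A u).a < θ ∧ θ < (A u).b) ↔ (pn A (u, false) < N ∧ ¬ pn A (u, true) < N) := by
      rw [ks, ke]
      constructor
      · rintro ⟨h2, h3⟩; exact ⟨h2, by linarith⟩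
      · rintro ⟨h2, h3⟩
        push Not at h3
        exact ⟨h2, lt_of_le_of_ne h3 hge⟩
    rw [this]
    split_ifs <;> omega
  · have deu : dir A (u, true) = (A u).b - 2 * π := by unfold dir; simp [hb]
    have hlt : pn A (u, true) < pn A (u, false) := by
      apply pn_lt_of_dir_lt; rw [dsu, deu]; linarith
    push Not at hb
    rw [deu] at ke hge
    rw [dsu] at ks hgs
    have hin : InArc (A u) θ ↔ (A u).a < θ ∨ θ < (A u).b - 2 * π := by
      constructor
      · rintro ⟨j, h2, h3⟩
        have hj : j = 0 ∨ j = 1 := by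
          have h4 : (j : ℝ) < 2 := by nlinarith [Real.pi_pos]
          have h5 : (-1 : ℝ) < j := by nlinarith [Real.pi_pos]
          have h6 : j < 2 := by exact_mod_cast h4
          have h7 : -1 < j := by exact_mod_cast h5
          omega
        rcases hj with rfl | rfl
        · left; simpa using h2
        · right
          simp only [Int.cast_one, one_mul] at h3
          linarith
      · rintro (h2 | h2)
        · exact ⟨0, by simpa using h2, by simp only [Int.cast_zero, zero_mul, add_zero]; linarith⟩
        · exact ⟨1, by simp only [Int.cast_one, one_mul]; linarith,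
            by simp only [Int.cast_one, one_mul]; linarith⟩
    rw [hin]
    have : ((A u).a < θ ∨ θ < (A u).b - 2 * π) ↔
        (pn A (u, false) < N ∨ ¬ pn A (u, true) < N) := by
      rw [ks, ke]
      constructor
      · rintro (h2 | h2)
        · exact Or.inl h2
        · right; linarith
      · rintro (h2 | h2)
        · exact Or.inl h2
        · push Not at h2
          exact Or.inr (lt_of_le_of_ne h2 hge)
    rw [this]
    split_ifs <;> omega

lemma al_iff (hnd : ∀ u, (A u).a < (A u).b) (u : Fin n) {θ : ℝ} (hg : Generic A θ) :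
    (toCfg A).al u (slot A θ) ↔ InArc (A u) θ := by
  have h2pi : (0 : ℝ) < 2 * π := by have := Real.pi_pos; linarith
  set m := toIcoDiv h2pi 0 θ with hm
  set θ' := toIcoMod h2pi 0 θ with hθ'
  have hmem := toIcoMod_mem_Ico h2pi 0 θ
  rw [zero_add] at hmem
  have he : θ = θ' + m * (2 * π) := by
    have := toIcoMod_add_toIcoDiv_zsmul h2pi 0 θ
    rw [zsmul_eq_mul] at this
    exact this.symm
  have hg' : Generic A θ' := by
    have := hg.add A (-(2 * m))
    have e : θ + ((-(2 * m) : ℤ) : ℝ) * π = θ' := by rw [he]; push_cast; ring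
    rwa [e] at this
  rw [he, slot_add_two_pi, inArc_add]
  exact al_iff_of_mem A hnd u hmem.1 hmem.2 hg'

end

end Pool.Agent.Lib.MP_f47cd5_co
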