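import Pool.Agent.Lib.MP_f47cd5_co.ToDisc

/-!
# The upper bound for complete arc k-visibility graphs
-/

namespace Pool.Agent.Lib.MP_f47cd5_co

open Real Finset Classical

/-- a point of a circular end with a generic direction -/
lemma inArc_of_end {n : ℕ} (A : Fin n → Arc) (u : Fin n) {p θ : ℝ} (hp : 0 < p)
    (hg : Generic A θ) (h : pt p θ ∈ (A u).pts) : (A u).r = p ∧ InArc (A u) θ := by
  obtain ⟨t, h1, h2, h3⟩ := h
  have hr : p = (A u).r := by
    have := congrArg (fun z => ‖z‖) h3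
    simp only [norm_pt] at this
    rwa [abs_of_pos hp, abs_of_pos (A u).r_pos] at this
  refine ⟨hr.symm, ?_⟩
  rw [← hr, pt_eq_iff hp] at h3
  obtain ⟨j, hj⟩ := h3
  have ha : (A u).a ≠ t := by
    intro h
    apply hg (u, false) (2 * j)
    unfold dir
    simp only [Bool.false_eq_true, if_false]
    rw [h]; push_cast; linarith
  have hb : (A u).b ≠ t := by
    intro h
    by_cases hb : (A u).b < 2 * π
    · apply hg (u, true) (2 * j)
      unfold dir
      simp only [if_true, hb]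
      rw [h]; push_cast; linarith
    · apply hg (u, true) (2 * j + 2)
      unfold dir
      simp only [if_true, hb, if_false]
      rw [h]; push_cast; linarith
  refine ⟨-j, ?_, ?_⟩
  · have e : θ + ((-j : ℤ) : ℝ) * (2 * π) = t := by push_cast; linarith
    rw [e]; exact lt_of_le_of_ne h1 ha
  · have e : θ + ((-j : ℤ) : ℝ) * (2 * π) = t := by push_cast; linarith
    rw [e]; exact lt_of_le_of_ne h2 (Ne.symm hb)

lemma pt_mem_of_inArc {B : Arc} {θ : ℝ} (h : InArc B θ) : pt B.r θ ∈ B.pts := by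
  obtain ⟨j, h1, h2⟩ := h
  refine ⟨θ + j * (2 * π), h1.le, h2.le, ?_⟩
  rw [pt_eq_iff B.r_pos]
  exact ⟨-j, by push_cast; ring⟩

lemma InArc.nondeg {B : Arc} {θ : ℝ} (h : InArc B θ) : B.a < B.b := by
  obtain ⟨j, h1, h2⟩ := h
  linarith

/-- swapping the roles of the two ends of a crossing cone -/
lemma coneSet_flip (p q α β : ℝ) : coneSet p q α β = coneSet (-q) (-p) (α + π) (β + π) := by
  ext z
  constructor
  · rintro ⟨s, t, h1, h2, h3, h4, rfl⟩
    refine ⟨-s, t + π, by linarith, by linarith, by linarith, by linarith, ?_⟩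
    rw [pt_neg]
    rw [pt]
    rw [pt]
    push_cast
    rw [show ((t : ℂ) + (π : ℂ) + (π : ℂ)) * Complex.I =
      (t : ℂ) * Complex.I + 2 * (π : ℂ) * Complex.I by ring, Complex.exp_add,
      Complex.exp_two_pi_mul_I, mul_one]
  · rintro ⟨s, t, h1, h2, h3, h4, rfl⟩
    refine ⟨-s, t - π, by linarith, by linarith, by linarith, by linarith, ?_⟩
    rw [pt_neg]
    congr 1
    ring

lemma coneEnd_flip (p α β : ℝ) : coneEnd p α β = coneEnd (-p) (α + π) (β + π) := by
  ext z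
  constructor
  · rintro ⟨t, h3, h4, rfl⟩
    refine ⟨t + π, by linarith, by linarith, ?_⟩
    rw [pt_neg]
    rw [pt]
    rw [pt]
    push_cast
    rw [show ((t : ℂ) + (π : ℂ) + (π : ℂ)) * Complex.I =
      (t : ℂ) * Complex.I + 2 * (π : ℂ) * Complex.I by ring, Complex.exp_add,
      Complex.exp_two_pi_mul_I, mul_one]
  · rintro ⟨t, h3, h4, rfl⟩
    refine ⟨t - π, by linarith, by linarith, ?_⟩
    have := pt_neg (-p) (t - π)
    rw [neg_neg, sub_add_cancel] at this
    exact this.symm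

section

variable {n : ℕ} [NeZero n] (A : Fin n → Arc)

/-- Both arcs on the same ray. -/
lemma inst_of_near (hnd : ∀ u, (A u).a < (A u).b) {u v : Fin n}
    (huv : u < v) {k : ℕ} {p q α β θ : ℝ} (hp : 0 < p)
    (hθ1 : α < θ) (hθ2 : θ < β) (hg : Generic A θ)
    (hv : pt p θ ∈ (A v).pts) (hu : pt q θ ∈ (A u).pts) (hq : 0 < q)
    (hmono : ∀ i j : Fin n, i ≤ j → (A j).r ≤ (A i).r)
    (hk : {w | w ≠ u ∧ w ≠ v ∧ (coneSet p q α β ∩ (A w).pts).Nonempty}.encard ≤ (k : ℕ∞)) :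
    (toCfg A).inst (k + 1) u v (slot A θ) := by
  obtain ⟨hru, hiu⟩ := inArc_of_end A u hq hg hu
  obtain ⟨hrv, hiv⟩ := inArc_of_end A v hp hg hv
  have hau : (toCfg A).al u (slot A θ) := (al_iff A hnd u hg).2 hiu
  have hav : (toCfg A).al v (slot A θ) := (al_iff A hnd v hg).2 hiv
  refine ⟨hau, Or.inl hav, ?_⟩
  unfold dep
  have hsub : ((depS ((toCfg A).P (slot A θ)) ((toCfg A).P (slot A θ + (2 * n : ℕ))) u v :
      Finset (Fin n)) : Set (Fin n)) ⊆
      {w | w ≠ u ∧ w ≠ v ∧ (coneSet p q α β ∩ (A w).pts).Nonempty} := by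
    intro w hw
    rw [Finset.mem_coe, mem_depS] at hw
    obtain ⟨h1, h2, h3⟩ := hw
    rw [key_near (show (toCfg A).P (slot A θ) v from hav)] at h3
    have hw2 := w.2
    have hv2 := v.2
    have hPw : (toCfg A).P (slot A θ) w := by
      by_contra hcon
      rw [key_far hcon] at h3
      omega
    rw [key_near hPw] at h3
    have hwv : w < v := h3
    have hiw : InArc (A w) θ := (al_iff A hnd w hg).1 hPw
    refine ⟨ne_of_gt h1, ne_of_lt hwv, pt (A w).r θ, ⟨(A w).r, θ, ?_, ?_, hθ1.le, hθ2.le, rfl⟩,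
      pt_mem_of_inArc hiw⟩
    · rw [← hrv]; exact hmono w v hwv.le
    · rw [← hru]; exact hmono u w h1.le
  have h1 := (Set.encard_le_encard hsub).trans hk
  rw [Set.encard_coe_eq_coe_finsetCard] at h1
  have h2 : (depS ((toCfg A).P (slot A θ)) ((toCfg A).P (slot A θ + (2 * n : ℕ))) u v).card ≤ k := by
    exact_mod_cast h1
  exact Nat.lt_succ_of_le h2

/-- The two arcs on opposite rays: `u` on the ray `θ`, `v` on the ray `θ + π`. -/
lemma inst_of_far (hnd : ∀ u, (A u).a < (A u).b) {u v : Fin n}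
    (huv : u < v) {k : ℕ} {p q α β θ : ℝ} (hp : p < 0)
    (hθ1 : α < θ) (hθ2 : θ < β) (hg : Generic A θ)
    (hv : pt p θ ∈ (A v).pts) (hu : pt q θ ∈ (A u).pts) (hq : 0 < q)
    (hmono : ∀ i j : Fin n, i ≤ j → (A j).r ≤ (A i).r)
    (hk : {w | w ≠ u ∧ w ≠ v ∧ (coneSet p q α β ∩ (A w).pts).Nonempty}.encard ≤ (k : ℕ∞)) :
    (toCfg A).inst (k + 1) u v (slot A θ) := by
  obtain ⟨hru, hiu⟩ := inArc_of_end A u hq hg hu
  have hp' : 0 < -p := by linarith
  have hv' : pt (-p) (θ + π) ∈ (A v).pts := by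
    have : pt p θ = pt (-p) (θ + π) := by
      have := pt_neg (-p) θ
      rwa [neg_neg] at this
    rw [← this]; exact hv
  obtain ⟨hrv, hiv⟩ := inArc_of_end A v hp' hg.add_pi hv'
  have hau : (toCfg A).al u (slot A θ) := (al_iff A hnd u hg).2 hiu
  have hav : (toCfg A).al v (slot A θ + (2 * n : ℕ)) := by
    rw [← slot_add_pi]; exact (al_iff A hnd v hg.add_pi).2 hiv
  refine ⟨hau, Or.inr hav, ?_⟩
  unfold dep
  have hsub : ((depS ((toCfg A).P (slot A θ)) ((toCfg A).P (slot A θ + (2 * n : ℕ))) u v :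
      Finset (Fin n)) : Set (Fin n)) ⊆
      {w | w ≠ u ∧ w ≠ v ∧ (coneSet p q α β ∩ (A w).pts).Nonempty} := by
    intro w hw
    rw [Finset.mem_coe, mem_depS] at hw
    obtain ⟨h1, h2, h3⟩ := hw
    have hwv : w ≠ v := by rintro rfl; exact lt_irrefl _ h3
    refine ⟨ne_of_gt h1, hwv, ?_⟩
    have hw2 := w.2
    have hv2 := v.2
    by_cases hPw : (toCfg A).P (slot A θ) w
    · have hiw : InArc (A w) θ := (al_iff A hnd w hg).1 hPw
      refine ⟨pt (A w).r θ, ⟨(A w).r, θ, ?_, ?_, hθ1.le, hθ2.le, rfl⟩, pt_mem_of_inArc hiw⟩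
      · have := (A w).r_pos; linarith
      · rw [← hru]; exact hmono u w h1.le
    · have hQw := h2.resolve_left hPw
      rw [key_far hPw] at h3
      have hvw : v < w := by
        by_contra hcon
        have h4 : w < v := lt_of_le_of_ne (not_lt.1 hcon) hwv
        have h5 : (w : ℕ) < v := h4
        unfold key at h3
        split_ifs at h3 <;> omega
      have hiw : InArc (A w) (θ + π) := by
        have : (toCfg A).al w (slot A (θ + π)) := by rw [slot_add_pi]; exact hQw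
        exact (al_iff A hnd w hg.add_pi).1 this
      refine ⟨pt (-(A w).r) θ, ⟨-(A w).r, θ, ?_, ?_, hθ1.le, hθ2.le, rfl⟩, ?_⟩
      · have := hmono v w hvw.le
        linarith
      · have := (A w).r_pos; linarith
      · rw [pt_neg]; exact pt_mem_of_inArc hiw
  have h1 := (Set.encard_le_encard hsub).trans hk
  rw [Set.encard_coe_eq_coe_finsetCard] at h1
  have h2 : (depS ((toCfg A).P (slot A θ)) ((toCfg A).P (slot A θ + (2 * n : ℕ))) u v).card ≤ k := by
    exact_mod_cast h1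
  exact Nat.lt_succ_of_le h2

lemma inst_of_sees (hnd : ∀ u, (A u).a < (A u).b) {u v : Fin n} (huv : u < v) {k : ℕ}
    (hmono : ∀ i j : Fin n, i ≤ j → (A j).r ≤ (A i).r) (hs : Sees k A u v) :
    ∃ h, (toCfg A).inst (k + 1) u v h := by
  obtain ⟨p, q, α, β, hc, he, hk⟩ := hs
  have hαβ : α < β := by
    rcases hc with h | h
    · exact h.2.2.1
    · exact h.2.2.1
  obtain ⟨θ, hθ1, hθ2, hg⟩ := exists_generic A hαβ
  have hpm : pt p θ ∈ coneEnd p α β := ⟨θ, hθ1.le, hθ2.le, rfl⟩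
  have hqm : pt q θ ∈ coneEnd q α β := ⟨θ, hθ1.le, hθ2.le, rfl⟩
  rcases hc with ⟨hp, hpq, -, -⟩ | ⟨hp, hq, -, -⟩
  · rcases he with ⟨h1, h2⟩ | ⟨h1, h2⟩
    · exfalso
      obtain ⟨e1, -⟩ := inArc_of_end A u hp hg (h1 hpm)
      obtain ⟨e2, -⟩ := inArc_of_end A v (hp.trans hpq) hg (h2 hqm)
      have := hmono u v huv.le
      linarith
    · exact ⟨_, inst_of_near A hnd huv hp hθ1 hθ2 hg (h1 hpm) (h2 hqm) (hp.trans hpq) hmono hk⟩
  · rcases he with ⟨h1, h2⟩ | ⟨h1, h2⟩
    · -- `u` on the negative side: flip the cone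
      rw [coneSet_flip] at hk
      rw [coneEnd_flip] at h1 h2
      have hm1 : pt (-p) (θ + π) ∈ coneEnd (-p) (α + π) (β + π) :=
        ⟨θ + π, by linarith, by linarith, rfl⟩
      have hm2 : pt (-q) (θ + π) ∈ coneEnd (-q) (α + π) (β + π) :=
        ⟨θ + π, by linarith, by linarith, rfl⟩
      exact ⟨_, inst_of_far A hnd huv (p := -q) (q := -p) (by linarith) (by linarith)
        (by linarith) hg.add_pi (h2 hm2) (h1 hm1) (by linarith) hmono hk⟩
    · exact ⟨_, inst_of_far A hnd huv hp hθ1 hθ2 hg (h1 hpm) (h2 hqm) hq hmono hk⟩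

end

lemma sees_nondeg {V : Type*} {k : ℕ} {A : V → Arc} {u v : V} (hs : Sees k A u v) :
    (A u).a < (A u).b := by
  obtain ⟨p, q, α, β, hc, he, -⟩ := hs
  have hαβ : α < β := by
    rcases hc with h | h
    · exact h.2.2.1
    · exact h.2.2.1
  have hp : p ≠ 0 ∧ q ≠ 0 := by
    rcases hc with ⟨h1, h2, -, -⟩ | ⟨h1, h2, -, -⟩
    · exact ⟨ne_of_gt h1, ne_of_gt (h1.trans h2)⟩
    · exact ⟨ne_of_lt h1, ne_of_gt h2⟩
  -- a degenerate arc has only one point
  have key : ∀ s : ℝ, s ≠ 0 → coneEnd s α β ⊆ (A u).pts → (A u).a < (A u).b := by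
    intro s hs hsub
    by_contra hcon
    have heq : (A u).a = (A u).b := le_antisymm (A u).a_le_b (not_lt.1 hcon)
    -- two close points of the end
    set δ := min (β - α) 1 with hδ
    have hδ0 : 0 < δ := lt_min (by linarith) one_pos
    have m1 : pt s α ∈ coneEnd s α β := ⟨α, le_rfl, hαβ.le, rfl⟩
    have m2 : pt s (α + δ) ∈ coneEnd s α β :=
      ⟨α + δ, by linarith, by have := min_le_left (β - α) 1; linarith, rfl⟩
    obtain ⟨t1, a1, a2, a3⟩ := hsub m1
    obtain ⟨t2, b1, b2, b3⟩ := hsub m2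
    have et : t1 = t2 := by linarith
    have e : pt s α = pt s (α + δ) := by rw [a3, b3, et]
    have hpi := Real.pi_gt_three
    have hδ1 : δ ≤ 1 := min_le_right _ _
    have fin : ∀ x y : ℝ, (∃ j : ℤ, x = y + δ + j * (2 * π)) → x = y → False := by
      rintro x y ⟨j, hj⟩ hxy
      rw [hxy] at hj
      have h1 : (j : ℝ) * (2 * π) = -δ := by linarith
      have h2 : (j : ℝ) < 0 := by nlinarith
      have h3 : (-1 : ℝ) < j := by nlinarith
      have h4 : j < 0 := by exact_mod_cast h2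
      have h5 : -1 < j := by exact_mod_cast h3
      omega
    rcases lt_or_gt_of_ne hs with h | h
    · have e2 : pt (-s) (α + π) = pt (-s) (α + δ + π) := by
        rw [← pt_neg, ← pt_neg, neg_neg]; exact e
      rw [pt_eq_iff (by linarith)] at e2
      obtain ⟨j, hj⟩ := e2
      exact fin (α + π) (α + π) ⟨j, by linarith⟩ rfl
    · rw [pt_eq_iff h] at e
      obtain ⟨j, hj⟩ := e
      exact fin α α ⟨j, hj⟩ rfl
  rcases he with ⟨h1, h2⟩ | ⟨h1, h2⟩
  · exact key p hp.1 h1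
  · exact key q hp.2 h2

lemma Sees.comp {n : ℕ} {k : ℕ} {A : Fin n → Arc} (σ : Equiv.Perm (Fin n)) {u v : Fin n}
    (hs : Sees k A (σ u) (σ v)) : Sees k (A ∘ σ) u v := by
  obtain ⟨p, q, α, β, hc, he, hk⟩ := hs
  refine ⟨p, q, α, β, hc, he, ?_⟩
  refine le_trans ?_ hk
  rw [← (σ.injective.injOn (s := {w | w ≠ u ∧ w ≠ v ∧
    (coneSet p q α β ∩ ((A ∘ σ) w).pts).Nonempty})).encard_image]
  apply Set.encard_le_encard
  rintro w ⟨w', ⟨h1, h2, h3⟩, rfl⟩
  exact ⟨fun h => h1 (σ.injective h), fun h => h2 (σ.injective h), h3⟩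

/-- **Upper bound.** -/
theorem upper_bound {k n : ℕ} (h : IsArcVis k (⊤ : SimpleGraph (Fin n)))
    (hn : 3 * (k + 1) ≤ n) :
    n * (n - 1) + 3 * ((k + 1) * (k + 2)) ≤ 6 * (k + 1) * n := by
  obtain ⟨-, A, -, hA⟩ := h
  haveI : NeZero n := ⟨by omega⟩
  set σ := Tuple.sort (fun i => -(A i).r) with hσ
  have hmono' : Monotone ((fun i => -(A i).r) ∘ σ) := Tuple.monotone_sort _
  set B : Fin n → Arc := A ∘ σ with hB
  have hmono : ∀ i j : Fin n, i ≤ j → (B j).r ≤ (B i).r := by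
    intro i j hij
    have := hmono' hij
    simp only [Function.comp_apply, neg_le_neg_iff] at this
    exact this
  have hsees : ∀ u v : Fin n, u ≠ v → Sees k B u v := by
    intro u v huv
    apply Sees.comp
    have hne : σ u ≠ σ v := fun h => huv (σ.injective h)
    exact (hA _ _ hne).1 (by simpa using hne)
  have hnd : ∀ u, (B u).a < (B u).b := by
    intro u
    have : ∃ v : Fin n, u ≠ v := by
      by_cases h0 : u = ⟨0, by omega⟩
      · exact ⟨⟨1, by omega⟩, by rw [h0]; intro h; exact absurd (Fin.ext_iff.1 h) (by simp)⟩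
      · exact ⟨⟨0, by omega⟩, h0⟩
    obtain ⟨v, huv⟩ := this
    exact sees_nondeg (hsees u v huv)
  exact (toCfg B).disc_bound (k + 1) (Nat.succ_pos k) hn (by
    intro u v huv
    exact inst_of_sees B hnd huv hmono (hsees u v (ne_of_lt huv)))

end Pool.Agent.Lib.MP_f47cd5_co
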