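import Pool.Agent.Lib.MP_f47cd5_co.Events

/-!
# The zone: the first `m` distinct arcs of index `> j` on a line
-/

namespace Pool.Agent.Lib.MP_f47cd5_co

open Finset Classical

variable {n : ℕ}

/-- strands `(σ, c)` (σ = true: on the near ray) among the first `m` arcs of index `> j` -/
noncomputable def ZS (P Q : Fin n → Prop) (m : ℕ) (j : Fin n) : Finset (Bool × Fin n) :=
  univ.filter (fun p => (p.1 = true ↔ P p.2) ∧ j < p.2 ∧ (P p.2 ∨ Q p.2) ∧ dep P Q j p.2 < m)

lemma mem_ZS {P Q : Fin n → Prop} {m : ℕ} {j : Fin n} {σ : Bool} {c : Fin n} :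
    (σ, c) ∈ ZS P Q m j ↔ (σ = true ↔ P c) ∧ j < c ∧ (P c ∨ Q c) ∧ dep P Q j c < m := by
  unfold ZS; simp

lemma ZS_card (P Q : Fin n → Prop) (m : ℕ) (j : Fin n) :
    (ZS P Q m j).card = min m (lnAbove P Q j).card := by
  rw [← card_idx_lt (lnAbove P Q j) (key P) (key_injOn P _) m]
  symm
  apply Finset.card_bij (fun c _ => (decide (P c), c))
  · intro c hc
    rw [Finset.mem_filter] at hc
    rw [mem_ZS, dep_eq_idx]
    have := hc.1
    unfold lnAbove at this
    rw [Finset.mem_filter] at this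
    exact ⟨by simp, this.2.1, this.2.2, hc.2⟩
  · intro c _ c' _ h
    exact (Prod.ext_iff.1 h).2
  · rintro ⟨σ, c⟩ hc
    rw [mem_ZS] at hc
    refine ⟨c, ?_, ?_⟩
    · rw [Finset.mem_filter]
      refine ⟨?_, ?_⟩
      · unfold lnAbove; rw [Finset.mem_filter]; exact ⟨Finset.mem_univ _, hc.2.1, hc.2.2.1⟩
      · rw [← dep_eq_idx]; exact hc.2.2.2
    · ext
      · by_cases hP : P c
        · have := hc.1.2 hP
          simp [hP, this]
        · have : σ ≠ true := fun h => hP (hc.1.1 h)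
          simp only [hP, decide_false]
          cases σ
          · rfl
          · exact absurd rfl this
      · rfl

lemma dep_inj {P Q : Fin n → Prop} {j c c' : Fin n} (hc : j < c) (hc' : j < c')
    (hl : P c ∨ Q c) (hl' : P c' ∨ Q c') (h : dep P Q j c = dep P Q j c') : c = c' := by
  rw [dep_eq_idx, dep_eq_idx] at h
  refine idx_injOn (lnAbove P Q j) (key P) (key_injOn P _) ?_ ?_ h
  · unfold lnAbove; simp [hc, hl]
  · unfold lnAbove; simp [hc', hl']

lemma dep_lt_of_key_lt {P Q : Fin n → Prop} {j c c' : Fin n} (hc : j < c)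
    (hl : P c ∨ Q c) (h : key P c < key P c') : dep P Q j c < dep P Q j c' := by
  rw [dep_eq_idx, dep_eq_idx]
  refine idx_lt_idx (lnAbove P Q j) (key P) ?_ h
  unfold lnAbove; simp [hc, hl]

/-- a strand lost by a change of state which does not touch arc `c` -/
lemma lost_of_insert {P P' Q Q' : Fin n → Prop} {m : ℕ} {j x c : Fin n} {σ : Bool}
    (hP : P c ↔ P' c) (hQ : Q c ↔ Q' c)
    (hsub : depS P Q j c ⊆ insert x (depS P' Q' j c))
    (h' : (σ, c) ∈ ZS P' Q' m j) (h : (σ, c) ∉ ZS P Q m j) :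
    dep P' Q' j c + 1 = m ∧ x ∈ depS P Q j c ∧ x ∉ depS P' Q' j c := by
  rw [mem_ZS] at h' h
  rw [hP, hQ] at h
  have hge : m ≤ dep P Q j c := by
    by_contra hcon
    exact h ⟨h'.1, h'.2.1, h'.2.2.1, not_le.1 hcon⟩
  have hcard : dep P Q j c ≤ dep P' Q' j c + 1 := by
    unfold dep
    exact (Finset.card_le_card hsub).trans (Finset.card_insert_le _ _)
  have hlt := h'.2.2.2
  have hnsub : ¬ depS P Q j c ⊆ depS P' Q' j c := by
    intro hs
    have := Finset.card_le_card hs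
    unfold dep at hge hlt
    omega
  rw [Finset.not_subset] at hnsub
  obtain ⟨w, hw1, hw2⟩ := hnsub
  have := hsub hw1
  rw [Finset.mem_insert] at this
  rcases this with h3 | h3
  · subst h3; exact ⟨by omega, hw1, hw2⟩
  · exact absurd h3 hw2

lemma depS_sub_insert {P P' Q Q' : Fin n → Prop} {j x c : Fin n}
    (hoffP : AgreeOff x P P') (hoffQ : AgreeOff x Q Q') (hc : key P c = key P' c) :
    depS P Q j c ⊆ insert x (depS P' Q' j c) := by
  intro w hw
  rw [Finset.mem_insert]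
  by_cases hwx : w = x
  · exact Or.inl hwx
  · right
    rw [mem_depS] at hw ⊢
    refine ⟨hw.1, ?_, ?_⟩
    · rcases hw.2.1 with h | h
      · exact Or.inl ((hoffP w hwx).1 h)
      · exact Or.inr ((hoffQ w hwx).1 h)
    · rw [← key_congr (hoffP w hwx), ← hc]; exact hw.2.2

lemma agreeOff_refl (x : Fin n) (P : Fin n → Prop) : AgreeOff x P P := fun _ _ => Iff.rfl

lemma AgreeOff.symm {x : Fin n} {P P' : Fin n → Prop} (h : AgreeOff x P P') : AgreeOff x P' P :=
  fun w hw => (h w hw).symm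

/-- near start -/
lemma zone_near_start {P P' Q : Fin n → Prop} {m : ℕ} {j x : Fin n}
    (hx' : ¬ P' x) (hx : P x) (hoff : AgreeOff x P P') :
    (ZS P' Q m j \ ZS P Q m j).card ≤ 1 ∧
    (¬ (j < x ∧ ((B1 P x).filter (fun w => j < w)).card < m) → ZS P' Q m j ⊆ ZS P Q m j) := by
  -- description of a lost strand
  have key1 : ∀ σ c, (σ, c) ∈ ZS P' Q m j → (σ, c) ∉ ZS P Q m j →
      (c = x ∧ σ = false ∧ Q x ∧ j < x ∧ dep P' Q j x < m) ∨
      (c ≠ x ∧ dep P' Q j c + 1 = m ∧ j < x ∧ (x : ℕ) < key P' c ∧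
        (Q x → key P' c ≤ 2 * n - x)) := by
    intro σ c h' h
    by_cases hcx : c = x
    · subst hcx
      rw [mem_ZS] at h'
      left
      refine ⟨rfl, ?_, ?_, h'.2.1, h'.2.2.2⟩
      · cases σ
        · rfl
        · exact absurd (h'.1.1 rfl) hx'
      · exact h'.2.2.1.resolve_left hx'
    · right
      have hk : key P c = key P' c := key_congr (hoff c hcx)
      obtain ⟨h1, h2, h3⟩ := lost_of_insert (hoff c hcx) Iff.rfl
        (depS_sub_insert hoff (agreeOff_refl x Q) hk) h' h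
      rw [mem_depS] at h2 h3
      rw [key_near hx, hk] at h2
      refine ⟨hcx, h1, h2.1, h2.2.2, ?_⟩
      intro hq
      by_contra hcon
      apply h3
      rw [key_far hx']
      exact ⟨h2.1, Or.inr hq, not_le.1 hcon⟩
  constructor
  · rw [Finset.card_le_one]
    rintro ⟨σ, c⟩ hc ⟨σ', c'⟩ hc'
    rw [Finset.mem_sdiff] at hc hc'
    have hcases := key1 σ c hc.1 hc.2
    have hcases' := key1 σ' c' hc'.1 hc'.2
    have hc1 := mem_ZS.1 hc.1
    have hc1' := mem_ZS.1 hc'.1
    have mixed : ∀ (d : Fin n), j < d → (P' d ∨ Q d) → d ≠ x → dep P' Q j d + 1 = m →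
        (Q x → key P' d ≤ 2 * n - x) → Q x → dep P' Q j x < m → False := by
      intro d hjd hld hdx hdm hkq hq hdx2
      have h1 : key P' d ≤ key P' x := by rw [key_far hx']; exact hkq hq
      have h2 : key P' d ≠ key P' x := fun h => hdx (key_inj h)
      have h3 := dep_lt_of_key_lt (Q := Q) hjd hld (lt_of_le_of_ne h1 h2)
      omega
    have hstatus : c = c' → σ = σ' := by
      rintro rfl
      by_cases hp : P' c
      · rw [hc1.1.2 hp, hc1'.1.2 hp]
      · cases σ
        · cases σ'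
          · rfl
          · exact absurd (hc1'.1.1 rfl) hp
        · exact absurd (hc1.1.1 rfl) hp
    rcases hcases with ⟨e1, e2, e3, e4, e5⟩ | ⟨e1, e2, e3, e4, e5⟩ <;>
      rcases hcases' with ⟨g1, g2, g3, g4, g5⟩ | ⟨g1, g2, g3, g4, g5⟩
    · rw [e1, g1, e2, g2]
    · exact (mixed c' hc1'.2.1 hc1'.2.2.1 g1 g2 g5 e3 e5).elim
    · exact (mixed c hc1.2.1 hc1.2.2.1 e1 e2 e5 g3 g5).elim
    · have hcc : c = c' := by
        apply dep_inj (P := P') (Q := Q) hc1.2.1 hc1'.2.1 hc1.2.2.1 hc1'.2.2.1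
        omega
      rw [hstatus hcc, hcc]
  · intro hnc
    rintro ⟨σ, c⟩ h'
    by_contra h
    have big : j < x → m ≤ ((B1 P x).filter (fun w => j < w)).card := by
      intro hjx
      by_contra hcon
      exact hnc ⟨hjx, not_le.1 hcon⟩
    have sub : ∀ d : Fin n, (x : ℕ) < key P' d →
        (B1 P x).filter (fun w => j < w) ⊆ depS P' Q j d := by
      intro d hd w hw
      rw [Finset.mem_filter, mem_B1] at hw
      obtain ⟨⟨h1, h2⟩, h3⟩ := hw
      have h4 : P' w := (hoff w (ne_of_lt h1)).1 h2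
      rw [mem_depS, key_near h4]
      exact ⟨h3, Or.inl h4, lt_trans (show (w : ℕ) < x from h1) hd⟩
    rcases key1 σ c h' h with ⟨e1, e2, e3, e4, e5⟩ | ⟨e1, e2, e3, e4, e5⟩
    · have h1 := big e4
      have h2 : (x : ℕ) < key P' x := by rw [key_far hx']; have := x.2; omega
      have h3 := Finset.card_le_card (sub x h2)
      unfold dep at e5
      omega
    · have h1 := big e3
      have h3 := Finset.card_le_card (sub c e4)
      have h4 := (mem_ZS.1 h').2.2.2
      unfold dep at h4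
      omega

/-- near end -/
lemma zone_near_end {P P' Q : Fin n → Prop} {m : ℕ} {j x : Fin n}
    (hx' : P' x) (hx : ¬ P x) (hoff : AgreeOff x P P') :
    (ZS P' Q m j \ ZS P Q m j).card ≤ 1 ∧
    (¬ (j < x ∧ ((B1 P x).filter (fun w => j < w)).card < m) → ZS P' Q m j ⊆ ZS P Q m j) := by
  have key1 : ∀ σ c, (σ, c) ∈ ZS P' Q m j → (σ, c) ∉ ZS P Q m j → c = x ∧ σ = true := by
    intro σ c h' h
    have h1 := mem_ZS.1 h'
    have hcx : c = x := by
      by_contra hcx
      apply h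
      rw [mem_ZS, hoff c hcx]
      refine ⟨h1.1, h1.2.1, h1.2.2.1, lt_of_le_of_lt ?_ h1.2.2.2⟩
      unfold dep
      apply Finset.card_le_card
      intro w hw
      rw [mem_depS] at hw ⊢
      have hkc : key P c = key P' c := key_congr (hoff c hcx)
      by_cases hwx : w = x
      · subst hwx
        refine ⟨hw.1, Or.inl hx', ?_⟩
        rw [key_near hx']
        have h3 := hw.2.2
        rw [key_far hx, hkc] at h3
        have := w.2
        omega
      · refine ⟨hw.1, ?_, ?_⟩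
        · rcases hw.2.1 with h | h
          · exact Or.inl ((hoff w hwx).1 h)
          · exact Or.inr h
        · rw [← key_congr (hoff w hwx), ← hkc]; exact hw.2.2
    subst hcx
    exact ⟨rfl, h1.1.2 hx'⟩
  constructor
  · rw [Finset.card_le_one]
    rintro ⟨σ, c⟩ hc ⟨σ', c'⟩ hc'
    rw [Finset.mem_sdiff] at hc hc'
    obtain ⟨e1, e2⟩ := key1 σ c hc.1 hc.2
    obtain ⟨g1, g2⟩ := key1 σ' c' hc'.1 hc'.2
    rw [e1, e2, g1, g2]
  · intro hnc
    rintro ⟨σ, c⟩ h'
    by_contra h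
    obtain ⟨e1, e2⟩ := key1 σ c h' h
    subst e1
    have h1 := mem_ZS.1 h'
    apply hnc
    refine ⟨h1.2.1, lt_of_le_of_lt ?_ h1.2.2.2⟩
    unfold dep
    apply Finset.card_le_card
    intro w hw
    rw [Finset.mem_filter, mem_B1] at hw
    obtain ⟨⟨h2, h3⟩, h4⟩ := hw
    have h5 : P' w := (hoff w (ne_of_lt h2)).1 h3
    rw [mem_depS, key_near h5, key_near hx']
    exact ⟨h4, Or.inl h5, h2⟩

/-- far start (the state is `(P, Q)`, the arc `x` starts on the far ray) -/
lemma zone_far_start {P Q Q' : Fin n → Prop} {m : ℕ} {j x : Fin n}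
    (hx' : ¬ Q' x) (hoff : AgreeOff x Q Q') :
    (ZS P Q' m j \ ZS P Q m j).card ≤ 1 ∧
    (¬ (j < x ∧ ((B2 Q P x).filter (fun w => j < w)).card < m) → ZS P Q' m j ⊆ ZS P Q m j) := by
  have key1 : ∀ σ c, (σ, c) ∈ ZS P Q' m j → (σ, c) ∉ ZS P Q m j →
      c ≠ x ∧ dep P Q' j c + 1 = m ∧ j < x ∧ ¬ P x ∧ 2 * n - x < key P c := by
    intro σ c h' h
    have hcx : c ≠ x := by
      rintro rfl
      have h1 := mem_ZS.1 h'
      have hPc : P c := h1.2.2.1.resolve_right hx'
      apply h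
      rw [mem_ZS]
      refine ⟨h1.1, h1.2.1, Or.inl hPc, lt_of_le_of_lt ?_ h1.2.2.2⟩
      unfold dep
      apply Finset.card_le_card
      intro w hw
      rw [mem_depS] at hw ⊢
      have hwc : w ≠ c := by rintro rfl; exact lt_irrefl _ hw.2.2
      refine ⟨hw.1, ?_, hw.2.2⟩
      rcases hw.2.1 with h | h
      · exact Or.inl h
      · exact Or.inr ((hoff w hwc).1 h)
    obtain ⟨h1, h2, h3⟩ := lost_of_insert (P := P) (P' := P) Iff.rfl (hoff c hcx)
      (depS_sub_insert (agreeOff_refl x P) hoff rfl) h' h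
    rw [mem_depS] at h2 h3
    have hPx : ¬ P x := by
      intro hp
      exact h3 ⟨h2.1, Or.inl hp, h2.2.2⟩
    refine ⟨hcx, h1, h2.1, hPx, ?_⟩
    have := h2.2.2
    rwa [key_far hPx] at this
  constructor
  · rw [Finset.card_le_one]
    rintro ⟨σ, c⟩ hc ⟨σ', c'⟩ hc'
    rw [Finset.mem_sdiff] at hc hc'
    obtain ⟨e1, e2, e3, e4, e5⟩ := key1 σ c hc.1 hc.2
    obtain ⟨g1, g2, g3, g4, g5⟩ := key1 σ' c' hc'.1 hc'.2
    have hc1 := mem_ZS.1 hc.1
    have hc1' := mem_ZS.1 hc'.1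
    have hcc : c = c' := by
      apply dep_inj (P := P) (Q := Q') hc1.2.1 hc1'.2.1 hc1.2.2.1 hc1'.2.2.1
      omega
    subst hcc
    have : σ = σ' := by
      by_cases hp : P c
      · rw [hc1.1.2 hp, hc1'.1.2 hp]
      · cases σ
        · cases σ'
          · rfl
          · exact absurd (hc1'.1.1 rfl) hp
        · exact absurd (hc1.1.1 rfl) hp
    rw [this]
  · intro hnc
    rintro ⟨σ, c⟩ h'
    by_contra h
    obtain ⟨e1, e2, e3, e4, e5⟩ := key1 σ c h' h
    apply hnc
    refine ⟨e3, lt_of_le_of_lt ?_ (mem_ZS.1 h').2.2.2⟩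
    unfold dep
    apply Finset.card_le_card
    intro w hw
    rw [Finset.mem_filter, mem_B2] at hw
    obtain ⟨⟨h2, h3⟩, h4⟩ := hw
    rw [mem_depS]
    have hw2 := w.2
    have hx2 := x.2
    by_cases hPw : P w
    · rw [key_near hPw]
      exact ⟨h4, Or.inl hPw, by omega⟩
    · rw [key_far hPw]
      rcases h3 with ⟨h5, h6⟩ | h5
      · have : (x : ℕ) < w := h5
        exact ⟨h4, Or.inr ((hoff w h2).1 h6), by omega⟩
      · exact absurd h5 hPw

/-- far end -/
lemma zone_far_end {P Q Q' : Fin n → Prop} {m : ℕ} {j x : Fin n}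
    (hx' : Q' x) (hx : ¬ Q x) (hoff : AgreeOff x Q Q') :
    (ZS P Q' m j \ ZS P Q m j).card ≤ 1 ∧
    (¬ (j < x ∧ ((B2 Q P x).filter (fun w => j < w)).card < m) → ZS P Q' m j ⊆ ZS P Q m j) := by
  have depmono : ∀ c : Fin n, dep P Q j c ≤ dep P Q' j c := by
    intro c
    unfold dep
    apply Finset.card_le_card
    intro w hw
    rw [mem_depS] at hw ⊢
    refine ⟨hw.1, ?_, hw.2.2⟩
    rcases hw.2.1 with h | h
    · exact Or.inl h
    · by_cases hwx : w = x
      · subst hwx; exact Or.inr hx'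
      · exact Or.inr ((hoff w hwx).1 h)
  have key1 : ∀ σ c, (σ, c) ∈ ZS P Q' m j → (σ, c) ∉ ZS P Q m j → c = x ∧ σ = false ∧ ¬ P x := by
    intro σ c h' h
    have h1 := mem_ZS.1 h'
    have hnl : ¬ (P c ∨ Q c) := by
      intro hl
      apply h
      rw [mem_ZS]
      exact ⟨h1.1, h1.2.1, hl, lt_of_le_of_lt (depmono c) h1.2.2.2⟩
    have hnP : ¬ P c := fun hp => hnl (Or.inl hp)
    have hcx : c = x := by
      by_contra hcx
      exact hnl (Or.inr ((hoff c hcx).2 (h1.2.2.1.resolve_left hnP)))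
    subst hcx
    refine ⟨rfl, ?_, hnP⟩
    cases σ
    · rfl
    · exact absurd (h1.1.1 rfl) hnP
  constructor
  · rw [Finset.card_le_one]
    rintro ⟨σ, c⟩ hc ⟨σ', c'⟩ hc'
    rw [Finset.mem_sdiff] at hc hc'
    obtain ⟨e1, e2, -⟩ := key1 σ c hc.1 hc.2
    obtain ⟨g1, g2, -⟩ := key1 σ' c' hc'.1 hc'.2
    rw [e1, e2, g1, g2]
  · intro hnc
    rintro ⟨σ, c⟩ h'
    by_contra h
    obtain ⟨e1, e2, e3⟩ := key1 σ c h' h
    subst e1
    have h1 := mem_ZS.1 h'
    apply hnc
    refine ⟨h1.2.1, lt_of_le_of_lt ?_ h1.2.2.2⟩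
    unfold dep
    apply Finset.card_le_card
    intro w hw
    rw [Finset.mem_filter, mem_B2] at hw
    obtain ⟨⟨h2, h3⟩, h4⟩ := hw
    rw [mem_depS, key_far e3]
    have hw2 := w.2
    have hx2 := c.2
    by_cases hPw : P w
    · rw [key_near hPw]
      exact ⟨h4, Or.inl hPw, by omega⟩
    · rw [key_far hPw]
      rcases h3 with ⟨h5, h6⟩ | h5
      · have : (c : ℕ) < w := h5
        exact ⟨h4, Or.inr ((hoff w h2).1 h6), by omega⟩
      · exact absurd h5 hPw

end Pool.Agent.Lib.MP_f47cd5_co
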